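import Pool.Agent.P.MP_e16cac_co.Checker

namespace Pool.Agent.P.MP_e16cac_co

def cert0 : Cert :=
 (.node (.node (.node (.node (.node (.leaf 1 0 [(0, 54514), (2, 7174), (4, 6866), (6, 5502), (8, 7906), (10, 2808), (12, 5212), (14, 616), (16, 6194), (18, 4482), (20, 1674), (22, 837), (24, 5212), (26, 616), (28, 837), (32, 7136), (34, 2038), (36, 5252), (38, 424), (40, 2942), (44, 837), (48, 4366), (52, 837), (56, 837)])
 (.leaf 1 0 [(2, 34800), (4, 7624), (6, 2210), (8, 12864), (10, 2012), (12, 1306), (14, 626), (16, 7852), (18, 1668), (20, 890), (22, 445), (24, 1034), (26, 386), (28, 445), (32, 13414), (34, 1870), (36, 1508), (38, 516), (40, 1382), (44, 445), (48, 1088), (52, 445), (56, 445)]))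
 (.node (.leaf 1 0 [(4, 30424), (6, 2548), (8, 8814), (10, 792), (12, 3424), (14, 532), (16, 9352), (18, 1018), (20, 2466), (22, 1233), (24, 2286), (26, 558), (28, 1233), (32, 6126), (34, 244), (36, 3262), (38, 638), (40, 2264), (44, 1233), (48, 1568), (52, 1233), (56, 1233)])
 (.leaf 4 0 [(6, 9376), (8, 224), (10, 2715), (12, 4182), (14, 508), (16, -105), (18, 2390), (20, 904), (22, 452), (24, 1340), (26, 157), (28, 452), (32, 151), (34, 1280), (36, 4231), (38, 507), (40, 2017), (44, 452), (48, 1342), (52, 452), (56, 452)])))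
 (.node (.node (.leaf 1 0 [(8, 32662), (10, 1482), (12, 1584), (14, 442), (16, 2712), (18, 230), (20, 930), (22, 465), (24, 1946), (26, 508), (28, 465), (32, 7866), (34, 178), (36, 670), (38, 118), (40, 1640), (44, 465), (48, 720), (52, 465), (56, 465)])
 (.leaf 1 0 [(10, 15926), (12, 2396), (14, 452), (16, 364), (18, 1972), (20, 346), (22, 173), (24, 4326), (26, 714), (28, 173), (32, -472), (34, 5942), (36, 1238), (38, -266), (40, 6488), (44, 173), (48, 2510), (52, 173), (56, 173)]))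
 (.node (.leaf 4 0 [(12, 7744), (14, 292), (16, 631), (18, 282), (20, 1080), (22, 540), (24, 3525), (26, 296), (28, 540), (32, 156), (34, -85), (36, 3961), (38, 220), (40, 1989), (44, 540), (48, 1103), (52, 540), (56, 540)])
 (.leaf 4 0 [(14, 1728), (16, 931), (18, -157), (20, 1478), (22, 739), (24, 449), (26, 906), (28, 739), (32, 17), (34, -525), (36, 446), (38, 904), (40, -199), (44, 739), (48, 422), (52, 739), (56, 739)]))))
 (.node (.node (.node (.leaf 4 0 [(16, 12710), (18, 1083), (20, 648), (22, 324), (24, 1155), (26, 167), (28, 324), (32, 2252), (34, 430), (36, 248), (38, 25), (40, 584), (44, 324), (48, 1273), (52, 324), (56, 324)])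
 (.leaf 1 0 [(18, 15492), (20, 810), (22, 405), (24, 6890), (26, 736), (28, 405), (32, -776), (34, 4548), (36, 604), (38, -488), (40, 2194), (44, 405), (48, 8176), (52, 405), (56, 405)]))
 (.node (.leaf 4 0 [(20, 2976), (22, 1488), (24, 1182), (26, 427), (28, 1488), (32, 507), (34, -20), (36, 630), (38, 523), (40, 2117), (44, 1488), (48, 1227), (52, 1488), (56, 1488)])
 (.leaf 4 0 [(24, 6754), (26, 219), (32, -378), (34, -176), (36, -1266), (38, -174), (40, 816), (48, 2400)])))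
 (.node (.node (.leaf 4 0 [(26, 1401), (32, -1793), (34, -989), (36, 69), (38, -881), (40, -459), (48, 111)])
 (.leaf 4 0 [(32, 14290), (34, 406), (36, 520), (38, 82), (40, 328), (48, 393)]))
 (.node (.leaf 4 0 [(34, 5810), (36, 603), (38, 69), (40, 1157), (48, 879)])
 (.leaf 4 0 [(36, 6517), (38, 16), (40, 1371), (48, 2459)])))))
 (.node (.node (.node (.node (.leaf 4 0 [(38, 1088), (40, -465), (48, -357)])
 (.leaf 16 0 [(40, 2871), (48, -139)]))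
 (.node (.leaf 4 0 [(48, 4711)])
 (.leaf 1408220 0 [(0, 1)])))
 (.node (.node (.leaf 1775124 0 [(2, 1)])
 (.leaf 35412 0 [(0, 1), (2, 1)]))
 (.node (.leaf 1619996 0 [(4, 1)])
 (.leaf 48508 0 [(0, 1), (4, 1)]))))
 (.node (.node (.node (.leaf 916 0 [(2, 1), (4, 1)])
 (.leaf 1776256 0 [(6, 1)]))
 (.node (.leaf 43292 0 [(0, -1), (6, 1)])
 (.leaf 12588 0 [(2, 1), (6, 1)])))
 (.node (.node (.leaf 25548 0 [(4, -1), (6, 1)])
 (.leaf 1680180 0 [(8, 1)]))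
 (.node (.leaf 22948 0 [(0, -1), (8, 1)])
 (.leaf 19788 0 [(2, -1), (8, 1)]))))))

def cert1 : Cert :=
 (.node (.node (.node (.node (.node (.leaf 35892 0 [(4, -1), (8, 1)])
 (.leaf 26772 0 [(6, -1), (8, 1)]))
 (.node (.leaf 1860908 0 [(10, 1)])
 (.leaf 16784 0 [(0, 1), (10, 1)])))
 (.node (.node (.leaf 15344 0 [(2, 1), (10, 1)])
 (.leaf 5232 0 [(4, 1), (10, 1)]))
 (.node (.leaf 5544 0 [(6, -1), (10, 1)])
 (.leaf 5348 0 [(8, 1), (10, 1)]))))
 (.node (.node (.node (.leaf 1816820 0 [(12, 1)])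
 (.leaf 37128 0 [(0, 1), (12, 1)]))
 (.node (.leaf 2184 0 [(2, -1), (12, 1)])
 (.leaf 32056 0 [(4, 1), (12, 1)])))
 (.node (.node (.leaf 3524 0 [(6, 1), (12, 1)])
 (.leaf 14360 0 [(8, -1), (12, 1)]))
 (.node (.leaf 8696 0 [(10, 1), (12, 1)])
 (.leaf 1868276 0 [(14, 1)])))))
 (.node (.node (.node (.node (.leaf 26192 0 [(0, -1), (14, 1)])
 (.leaf 10416 0 [(2, 1), (14, 1)]))
 (.node (.leaf 21824 0 [(4, -1), (14, 1)])
 (.leaf 14436 0 [(6, -1), (14, 1)])))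
 (.node (.node (.leaf 2076 0 [(8, 1), (14, 1)])
 (.leaf 3844 0 [(10, -1), (14, 1)]))
 (.node (.leaf 9828 0 [(12, -1), (14, 1)])
 (.leaf 1781768 0 [(16, 1)]))))
 (.node (.node (.node (.leaf 18244 0 [(0, -1), (16, 1)])
 (.leaf 33172 0 [(2, 1), (16, 1)]))
 (.node (.leaf 7644 0 [(4, 1), (16, 1)])
 (.leaf 20116 0 [(6, -1), (16, 1)])))
 (.node (.node (.leaf 27428 0 [(8, -1), (16, 1)])
 (.leaf 9364 0 [(10, 1), (16, 1)]))
 (.node (.leaf 1112 0 [(12, 1), (16, 1)])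
 (.leaf 7976 0 [(14, -1), (16, 1)]))))))

def cert2 : Cert :=
 (.node (.node (.node (.node (.node (.leaf 1799384 0 [(18, 1)])
 (.leaf 13540 0 [(0, -1), (18, 1)]))
 (.node (.leaf 22732 0 [(2, -1), (18, 1)])
 (.leaf 12980 0 [(4, -1), (18, 1)])))
 (.node (.node (.leaf 11572 0 [(6, 1), (18, 1)])
 (.leaf 20724 0 [(8, -1), (18, 1)]))
 (.node (.leaf 1164 0 [(10, -1), (18, 1)])
 (.leaf 8896 0 [(12, 1), (18, 1)]))))
 (.node (.node (.node (.leaf 3148 0 [(14, -1), (18, 1)])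
 (.leaf 2608 0 [(16, 1), (18, 1)]))
 (.node (.leaf 448645 0 [(20, 2), (22, 1), (28, 1), (44, 1), (52, 1), (56, 1)])
 (.leaf 7581 0 [(0, -2), (20, 2), (22, 1), (28, 1), (44, 1), (52, 1), (56, 1)])))
 (.node (.node (.leaf 2585 0 [(2, 2), (20, 2), (22, 1), (28, 1), (44, 1), (52, 1), (56, 1)])
 (.leaf 4659 0 [(4, 2), (20, 2), (22, 1), (28, 1), (44, 1), (52, 1), (56, 1)]))
 (.node (.leaf 3998 0 [(6, 2), (20, 2), (22, 1), (28, 1), (44, 1), (52, 1), (56, 1)])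
 (.leaf 2487 0 [(8, -2), (20, 2), (22, 1), (28, 1), (44, 1), (52, 1), (56, 1)])))))
 (.node (.node (.node (.node (.leaf 3846 0 [(10, 2), (20, 2), (22, 1), (28, 1), (44, 1), (52, 1), (56, 1)])
 (.leaf 781 0 [(12, -2), (20, 2), (22, 1), (28, 1), (44, 1), (52, 1), (56, 1)]))
 (.node (.leaf 1194 0 [(14, -2), (20, 2), (22, 1), (28, 1), (44, 1), (52, 1), (56, 1)])
 (.leaf 6069 0 [(16, 2), (20, 2), (22, 1), (28, 1), (44, 1), (52, 1), (56, 1)])))
 (.node (.node (.leaf 4555 0 [(18, 2), (20, 2), (22, 1), (28, 1), (44, 1), (52, 1), (56, 1)])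
 (.leaf 1744116 0 [(24, 1)]))
 (.node (.leaf 37128 0 [(0, 1), (24, 1)])
 (.leaf 26232 0 [(2, 1), (24, 1)]))))
 (.node (.node (.node (.leaf 28136 0 [(4, 1), (24, 1)])
 (.leaf 9844 0 [(6, -1), (24, 1)]))
 (.node (.leaf 43464 0 [(8, 1), (24, 1)])
 (.leaf 864 0 [(10, -1), (24, 1)])))
 (.node (.node (.leaf 7556 0 [(12, 1), (24, 1)])
 (.leaf 7288 0 [(14, -1), (24, 1)]))
 (.node (.leaf 3896 0 [(16, 1), (24, 1)])
 (.leaf 12032 0 [(18, -1), (24, 1)]))))))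

def cert3 : Cert :=
 (.node (.node (.node (.node (.node (.leaf 255 0 [(20, 2), (22, 1), (24, 2), (28, 1), (44, 1), (52, 1), (56, 1)])
 (.leaf 1719672 0 [(26, 1)]))
 (.node (.leaf 26192 0 [(0, -1), (26, 1)])
 (.leaf 26192 0 [(2, -1), (26, 1)])))
 (.node (.node (.leaf 31664 0 [(4, -1), (26, 1)])
 (.leaf 17868 0 [(6, -1), (26, 1)]))
 (.node (.leaf 29500 0 [(8, -1), (26, 1)])
 (.leaf 120 0 [(10, -1), (26, 1)]))))
 (.node (.node (.node (.leaf 12964 0 [(12, -1), (26, 1)])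
 (.leaf 3628 0 [(14, -1), (26, 1)]))
 (.node (.leaf 33372 0 [(16, -1), (26, 1)])
 (.leaf 14680 0 [(18, -1), (26, 1)])))
 (.node (.node (.leaf 1939 0 [(20, -2), (22, -1), (26, 2), (28, -1), (44, -1), (52, -1), (56, -1)])
 (.leaf 22744 0 [(24, -1), (26, 1)]))
 (.node (.leaf 1795664 0 [(32, 1)])
 (.leaf 9792 0 [(0, 1), (32, 1)])))))
 (.node (.node (.node (.node (.leaf 4320 0 [(2, -1), (32, 1)])
 (.leaf 64 0 [(4, -1), (32, 1)]))
 (.node (.leaf 1828 0 [(6, -1), (32, 1)])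
 (.leaf 7424 0 [(8, -1), (32, 1)])))
 (.node (.node (.leaf 12832 0 [(10, 1), (32, 1)])
 (.leaf 2116 0 [(12, -1), (32, 1)]))
 (.node (.leaf 1000 0 [(14, 1), (32, 1)])
 (.leaf 20792 0 [(16, 1), (32, 1)]))))
 (.node (.node (.node (.leaf 1916 0 [(18, 1), (32, 1)])
 (.leaf 3239 0 [(20, 2), (22, 1), (28, 1), (32, 2), (44, 1), (52, 1), (56, 1)]))
 (.node (.leaf 28752 0 [(24, 1), (32, 1)])
 (.leaf 23396 0 [(26, -1), (32, 1)])))
 (.node (.node (.leaf 1817204 0 [(34, 1)])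
 (.leaf 49524 0 [(0, 1), (34, 1)]))
 (.node (.leaf 4836 0 [(2, -1), (34, 1)])
 (.leaf 21660 0 [(4, -1), (34, 1)]))))))

def cert4 : Cert :=
 (.node (.node (.node (.node (.node (.leaf 9472 0 [(6, -1), (34, 1)])
 (.leaf 3632 0 [(8, 1), (34, 1)]))
 (.node (.leaf 13808 0 [(10, 1), (34, 1)])
 (.leaf 11676 0 [(12, -1), (34, 1)])))
 (.node (.node (.leaf 1128 0 [(14, 1), (34, 1)])
 (.leaf 7860 0 [(16, -1), (34, 1)]))
 (.node (.leaf 476 0 [(18, 1), (34, 1)])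
 (.leaf 3640 0 [(20, 2), (22, 1), (28, 1), (34, 2), (44, 1), (52, 1), (56, 1)]))))
 (.node (.node (.node (.leaf 5500 0 [(24, -1), (34, 1)])
 (.leaf 5140 0 [(26, -1), (34, 1)]))
 (.node (.leaf 31360 0 [(32, 1), (34, 1)])
 (.leaf 1785836 0 [(36, 1)])))
 (.node (.node (.leaf 46280 0 [(0, -1), (36, 1)])
 (.leaf 21288 0 [(2, 1), (36, 1)]))
 (.node (.leaf 328 0 [(4, 1), (36, 1)])
 (.leaf 9256 0 [(6, 1), (36, 1)])))))
 (.node (.node (.node (.node (.leaf 3648 0 [(8, -1), (36, 1)])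
 (.leaf 8604 0 [(10, 1), (36, 1)]))
 (.node (.leaf 15160 0 [(12, 1), (36, 1)])
 (.leaf 8260 0 [(14, -1), (36, 1)])))
 (.node (.node (.leaf 20648 0 [(16, -1), (36, 1)])
 (.leaf 6936 0 [(18, -1), (36, 1)]))
 (.node (.leaf 1477 0 [(20, 2), (22, 1), (28, 1), (36, 2), (44, 1), (52, 1), (56, 1)])
 (.leaf 6976 0 [(24, 1), (36, 1)]))))
 (.node (.node (.node (.leaf 11696 0 [(26, -1), (36, 1)])
 (.leaf 16376 0 [(32, 1), (36, 1)]))
 (.node (.leaf 5120 0 [(34, -1), (36, 1)])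
 (.leaf 1724760 0 [(38, 1)])))
 (.node (.node (.leaf 45264 0 [(0, -1), (38, 1)])
 (.leaf 27056 0 [(2, -1), (38, 1)]))
 (.node (.leaf 41280 0 [(4, -1), (38, 1)])
 (.leaf 3888 0 [(6, 1), (38, 1)]))))))

def cert5 : Cert :=
 (.node (.node (.node (.node (.node (.leaf 1256 0 [(8, 1), (38, 1)])
 (.leaf 15644 0 [(10, 1), (38, 1)]))
 (.node (.leaf 9256 0 [(12, 1), (38, 1)])
 (.leaf 2564 0 [(14, -1), (38, 1)])))
 (.node (.node (.leaf 21700 0 [(16, -1), (38, 1)])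
 (.leaf 11300 0 [(18, 1), (38, 1)]))
 (.node (.leaf 1571 0 [(20, -2), (22, -1), (28, -1), (38, 2), (44, -1), (52, -1), (56, -1)])
 (.leaf 6176 0 [(24, -1), (38, 1)]))))
 (.node (.node (.node (.leaf 2624 0 [(26, -1), (38, 1)])
 (.leaf 36116 0 [(32, -1), (38, 1)]))
 (.node (.leaf 20332 0 [(34, 1), (38, 1)])
 (.leaf 16688 0 [(36, 1), (38, 1)])))
 (.node (.node (.leaf 1804164 0 [(40, 1)])
 (.leaf 51940 0 [(0, 1), (40, 1)]))
 (.node (.leaf 6508 0 [(2, 1), (40, 1)])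
 (.leaf 1356 0 [(4, -1), (40, 1)])))))
 (.node (.node (.node (.node (.leaf 7952 0 [(6, 1), (40, 1)])
 (.leaf 26628 0 [(8, 1), (40, 1)]))
 (.node (.leaf 11388 0 [(10, 1), (40, 1)])
 (.leaf 26852 0 [(12, 1), (40, 1)])))
 (.node (.node (.leaf 2604 0 [(14, -1), (40, 1)])
 (.leaf 1496 0 [(16, -1), (40, 1)]))
 (.node (.leaf 8968 0 [(18, -1), (40, 1)])
 (.leaf 2799 0 [(20, 2), (22, 1), (28, 1), (40, 2), (44, 1), (52, 1), (56, 1)]))))
 (.node (.node (.node (.leaf 6552 0 [(24, -1), (40, 1)])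
 (.leaf 9736 0 [(26, -1), (40, 1)]))
 (.node (.leaf 28500 0 [(32, 1), (40, 1)])
 (.leaf 3404 0 [(34, -1), (40, 1)])))
 (.node (.node (.leaf 19212 0 [(36, 1), (40, 1)])
 (.leaf 10544 0 [(38, 1), (40, 1)]))
 (.node (.leaf 1817092 0 [(48, 1)])
 (.leaf 18628 0 [(0, 1), (48, 1)]))))))

def cert6 : Cert :=
 (.node (.node (.node (.node (.node (.leaf 21932 0 [(2, 1), (48, 1)])
 (.leaf 6532 0 [(4, 1), (48, 1)]))
 (.node (.leaf 11492 0 [(6, -1), (48, 1)])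
 (.leaf 21244 0 [(8, -1), (48, 1)])))
 (.node (.node (.leaf 2892 0 [(10, -1), (48, 1)])
 (.leaf 7968 0 [(12, 1), (48, 1)]))
 (.node (.leaf 6680 0 [(14, -1), (48, 1)])
 (.leaf 7440 0 [(16, 1), (48, 1)]))))
 (.node (.node (.node (.leaf 17040 0 [(18, -1), (48, 1)])
 (.leaf 2254 0 [(20, 2), (22, 1), (28, 1), (44, 1), (48, 2), (52, 1), (56, 1)]))
 (.node (.leaf 2412 0 [(24, 1), (48, 1)])
 (.leaf 12576 0 [(26, -1), (48, 1)])))
 (.node (.node (.leaf 19744 0 [(32, 1), (48, 1)])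
 (.leaf 3248 0 [(34, -1), (48, 1)]))
 (.node (.leaf 13284 0 [(36, -1), (48, 1)])
 (.leaf 3620 0 [(38, 1), (48, 1)])))))
 (.node (.node (.node (.node (.leaf 4268 0 [(40, -1), (48, 1)])
 (.leaf 1 1 [(0, 54514), (1, 7174), (4, 7906), (5, 2808), (8, 6866), (9, 5502), (12, 5212), (13, 616), (16, 7136), (17, 2038), (20, 2942), (24, 5252), (25, 424), (28, 837), (32, 6194), (33, 4482), (36, 5212), (37, 616), (40, 1674), (41, 837), (44, 837), (48, 4366), (52, 837), (56, 837)]))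
 (.node (.leaf 1 1 [(1, 34800), (4, 12864), (5, 2012), (8, 7624), (9, 2210), (12, 1306), (13, 626), (16, 13414), (17, 1870), (20, 1382), (24, 1508), (25, 516), (28, 445), (32, 7852), (33, 1668), (36, 1034), (37, 386), (40, 890), (41, 445), (44, 445), (48, 1088), (52, 445), (56, 445)])
 (.leaf 1 1 [(4, 8814), (5, 792), (8, 30424), (9, 2548), (12, 3424), (13, 532), (16, 6126), (17, 244), (20, 2264), (24, 3262), (25, 638), (28, 1233), (32, 9352), (33, 1018), (36, 2286), (37, 558), (40, 2466), (41, 1233), (44, 1233), (48, 1568), (52, 1233), (56, 1233)])))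
 (.node (.node (.leaf 4 1 [(4, 224), (5, 2715), (9, 9376), (12, 4182), (13, 508), (16, 151), (17, 1280), (20, 2017), (24, 4231), (25, 507), (28, 452), (32, -105), (33, 2390), (36, 1340), (37, 157), (40, 904), (41, 452), (44, 452), (48, 1342), (52, 452), (56, 452)])
 (.leaf 1 1 [(4, 32662), (5, 1482), (12, 1584), (13, 442), (16, 7866), (17, 178), (20, 1640), (24, 670), (25, 118), (28, 465), (32, 2712), (33, 230), (36, 1946), (37, 508), (40, 930), (41, 465), (44, 465), (48, 720), (52, 465), (56, 465)]))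
 (.node (.leaf 1 1 [(5, 15926), (12, 2396), (13, 452), (16, -472), (17, 5942), (20, 6488), (24, 1238), (25, -266), (28, 173), (32, 364), (33, 1972), (36, 4326), (37, 714), (40, 346), (41, 173), (44, 173), (48, 2510), (52, 173), (56, 173)])
 (.leaf 4 1 [(12, 7744), (13, 292), (16, 156), (17, -85), (20, 1989), (24, 3961), (25, 220), (28, 540), (32, 631), (33, 282), (36, 3525), (37, 296), (40, 1080), (41, 540), (44, 540), (48, 1103), (52, 540), (56, 540)]))))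
 (.node (.node (.node (.leaf 4 1 [(13, 1728), (16, 17), (17, -525), (20, -199), (24, 446), (25, 904), (28, 739), (32, 931), (33, -157), (36, 449), (37, 906), (40, 1478), (41, 739), (44, 739), (48, 422), (52, 739), (56, 739)])
 (.leaf 4 1 [(16, 2252), (17, 430), (20, 584), (24, 248), (25, 25), (28, 324), (32, 12710), (33, 1083), (36, 1155), (37, 167), (40, 648), (41, 324), (44, 324), (48, 1273), (52, 324), (56, 324)]))
 (.node (.leaf 1 1 [(16, -776), (17, 4548), (20, 2194), (24, 604), (25, -488), (28, 405), (33, 15492), (36, 6890), (37, 736), (40, 810), (41, 405), (44, 405), (48, 8176), (52, 405), (56, 405)])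
 (.leaf 4 1 [(16, 507), (17, -20), (20, 2117), (24, 630), (25, 523), (28, 1488), (36, 1182), (37, 427), (40, 2976), (41, 1488), (44, 1488), (48, 1227), (52, 1488), (56, 1488)])))
 (.node (.node (.leaf 4 1 [(16, -378), (17, -176), (20, 816), (24, -1266), (25, -174), (36, 6754), (37, 219), (48, 2400)])
 (.leaf 4 1 [(16, -1793), (17, -989), (20, -459), (24, 69), (25, -881), (37, 1401), (48, 111)]))
 (.node (.leaf 4 1 [(16, 14290), (17, 406), (20, 328), (24, 520), (25, 82), (48, 393)])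
 (.leaf 4 1 [(17, 5810), (20, 1157), (24, 603), (25, 69), (48, 879)]))))))

def cert7 : Cert :=
 (.node (.node (.node (.node (.node (.leaf 4 1 [(20, 1371), (24, 6517), (25, 16), (48, 2459)])
 (.leaf 4 1 [(20, -465), (25, 1088), (48, -357)]))
 (.node (.leaf 16 1 [(20, 2871), (48, -139)])
 (.leaf 4 1 [(48, 4711)])))
 (.node (.node (.leaf 1408220 1 [(0, 1)])
 (.leaf 1775124 1 [(1, 1)]))
 (.node (.leaf 35412 1 [(0, 1), (1, 1)])
 (.leaf 1619996 1 [(8, 1)]))))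
 (.node (.node (.node (.leaf 48508 1 [(0, 1), (8, 1)])
 (.leaf 916 1 [(1, 1), (8, 1)]))
 (.node (.leaf 1776256 1 [(9, 1)])
 (.leaf 43292 1 [(0, -1), (9, 1)])))
 (.node (.node (.leaf 12588 1 [(1, 1), (9, 1)])
 (.leaf 25548 1 [(8, -1), (9, 1)]))
 (.node (.leaf 1680180 1 [(4, 1)])
 (.leaf 22948 1 [(0, -1), (4, 1)])))))
 (.node (.node (.node (.node (.leaf 19788 1 [(1, -1), (4, 1)])
 (.leaf 35892 1 [(4, 1), (8, -1)]))
 (.node (.leaf 26772 1 [(4, 1), (9, -1)])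
 (.leaf 1860908 1 [(5, 1)])))
 (.node (.node (.leaf 16784 1 [(0, 1), (5, 1)])
 (.leaf 15344 1 [(1, 1), (5, 1)]))
 (.node (.leaf 5232 1 [(5, 1), (8, 1)])
 (.leaf 5544 1 [(5, 1), (9, -1)]))))
 (.node (.node (.node (.leaf 5348 1 [(4, 1), (5, 1)])
 (.leaf 1816820 1 [(12, 1)]))
 (.node (.leaf 37128 1 [(0, 1), (12, 1)])
 (.leaf 2184 1 [(1, -1), (12, 1)])))
 (.node (.node (.leaf 32056 1 [(8, 1), (12, 1)])
 (.leaf 3524 1 [(9, 1), (12, 1)]))
 (.node (.leaf 14360 1 [(4, -1), (12, 1)])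
 (.leaf 8696 1 [(5, 1), (12, 1)]))))))

def cert8 : Cert :=
 (.node (.node (.node (.node (.node (.leaf 1868276 1 [(13, 1)])
 (.leaf 26192 1 [(0, -1), (13, 1)]))
 (.node (.leaf 10416 1 [(1, 1), (13, 1)])
 (.leaf 21824 1 [(8, -1), (13, 1)])))
 (.node (.node (.leaf 14436 1 [(9, -1), (13, 1)])
 (.leaf 2076 1 [(4, 1), (13, 1)]))
 (.node (.leaf 3844 1 [(5, -1), (13, 1)])
 (.leaf 9828 1 [(12, -1), (13, 1)]))))
 (.node (.node (.node (.leaf 1781768 1 [(32, 1)])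
 (.leaf 18244 1 [(0, -1), (32, 1)]))
 (.node (.leaf 33172 1 [(1, 1), (32, 1)])
 (.leaf 7644 1 [(8, 1), (32, 1)])))
 (.node (.node (.leaf 20116 1 [(9, -1), (32, 1)])
 (.leaf 27428 1 [(4, -1), (32, 1)]))
 (.node (.leaf 9364 1 [(5, 1), (32, 1)])
 (.leaf 1112 1 [(12, 1), (32, 1)])))))
 (.node (.node (.node (.node (.leaf 7976 1 [(13, -1), (32, 1)])
 (.leaf 1799384 1 [(33, 1)]))
 (.node (.leaf 13540 1 [(0, -1), (33, 1)])
 (.leaf 22732 1 [(1, -1), (33, 1)])))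
 (.node (.node (.leaf 12980 1 [(8, -1), (33, 1)])
 (.leaf 11572 1 [(9, 1), (33, 1)]))
 (.node (.leaf 20724 1 [(4, -1), (33, 1)])
 (.leaf 1164 1 [(5, -1), (33, 1)]))))
 (.node (.node (.node (.leaf 8896 1 [(12, 1), (33, 1)])
 (.leaf 3148 1 [(13, -1), (33, 1)]))
 (.node (.leaf 2608 1 [(32, 1), (33, 1)])
 (.leaf 448645 1 [(28, 1), (40, 2), (41, 1), (44, 1), (52, 1), (56, 1)])))
 (.node (.node (.leaf 7581 1 [(0, -2), (28, 1), (40, 2), (41, 1), (44, 1), (52, 1), (56, 1)])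
 (.leaf 2585 1 [(1, 2), (28, 1), (40, 2), (41, 1), (44, 1), (52, 1), (56, 1)]))
 (.node (.leaf 4659 1 [(8, 2), (28, 1), (40, 2), (41, 1), (44, 1), (52, 1), (56, 1)])
 (.leaf 3998 1 [(9, 2), (28, 1), (40, 2), (41, 1), (44, 1), (52, 1), (56, 1)]))))))

def cert9 : Cert :=
 (.node (.node (.node (.node (.node (.leaf 2487 1 [(4, -2), (28, 1), (40, 2), (41, 1), (44, 1), (52, 1), (56, 1)])
 (.leaf 3846 1 [(5, 2), (28, 1), (40, 2), (41, 1), (44, 1), (52, 1), (56, 1)]))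
 (.node (.leaf 781 1 [(12, -2), (28, 1), (40, 2), (41, 1), (44, 1), (52, 1), (56, 1)])
 (.leaf 1194 1 [(13, -2), (28, 1), (40, 2), (41, 1), (44, 1), (52, 1), (56, 1)])))
 (.node (.node (.leaf 6069 1 [(28, 1), (32, 2), (40, 2), (41, 1), (44, 1), (52, 1), (56, 1)])
 (.leaf 4555 1 [(28, 1), (33, 2), (40, 2), (41, 1), (44, 1), (52, 1), (56, 1)]))
 (.node (.leaf 1744116 1 [(36, 1)])
 (.leaf 37128 1 [(0, 1), (36, 1)]))))
 (.node (.node (.node (.leaf 26232 1 [(1, 1), (36, 1)])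
 (.leaf 28136 1 [(8, 1), (36, 1)]))
 (.node (.leaf 9844 1 [(9, -1), (36, 1)])
 (.leaf 43464 1 [(4, 1), (36, 1)])))
 (.node (.node (.leaf 864 1 [(5, -1), (36, 1)])
 (.leaf 7556 1 [(12, 1), (36, 1)]))
 (.node (.leaf 7288 1 [(13, -1), (36, 1)])
 (.leaf 3896 1 [(32, 1), (36, 1)])))))
 (.node (.node (.node (.node (.leaf 12032 1 [(33, -1), (36, 1)])
 (.leaf 255 1 [(28, 1), (36, 2), (40, 2), (41, 1), (44, 1), (52, 1), (56, 1)]))
 (.node (.leaf 1719672 1 [(37, 1)])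
 (.leaf 26192 1 [(0, -1), (37, 1)])))
 (.node (.node (.leaf 26192 1 [(1, -1), (37, 1)])
 (.leaf 31664 1 [(8, -1), (37, 1)]))
 (.node (.leaf 17868 1 [(9, -1), (37, 1)])
 (.leaf 29500 1 [(4, -1), (37, 1)]))))
 (.node (.node (.node (.leaf 120 1 [(5, -1), (37, 1)])
 (.leaf 12964 1 [(12, -1), (37, 1)]))
 (.node (.leaf 3628 1 [(13, -1), (37, 1)])
 (.leaf 33372 1 [(32, -1), (37, 1)])))
 (.node (.node (.leaf 14680 1 [(33, -1), (37, 1)])
 (.leaf 1939 1 [(28, -1), (37, 2), (40, -2), (41, -1), (44, -1), (52, -1), (56, -1)]))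
 (.node (.leaf 22744 1 [(36, -1), (37, 1)])
 (.leaf 1795664 1 [(16, 1)]))))))

def cert10 : Cert :=
 (.node (.node (.node (.node (.node (.leaf 9792 1 [(0, 1), (16, 1)])
 (.leaf 4320 1 [(1, -1), (16, 1)]))
 (.node (.leaf 64 1 [(8, -1), (16, 1)])
 (.leaf 1828 1 [(9, -1), (16, 1)])))
 (.node (.node (.leaf 7424 1 [(4, -1), (16, 1)])
 (.leaf 12832 1 [(5, 1), (16, 1)]))
 (.node (.leaf 2116 1 [(12, -1), (16, 1)])
 (.leaf 1000 1 [(13, 1), (16, 1)]))))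
 (.node (.node (.node (.leaf 20792 1 [(16, 1), (32, 1)])
 (.leaf 1916 1 [(16, 1), (33, 1)]))
 (.node (.leaf 3239 1 [(16, 2), (28, 1), (40, 2), (41, 1), (44, 1), (52, 1), (56, 1)])
 (.leaf 28752 1 [(16, 1), (36, 1)])))
 (.node (.node (.leaf 23396 1 [(16, 1), (37, -1)])
 (.leaf 1817204 1 [(17, 1)]))
 (.node (.leaf 49524 1 [(0, 1), (17, 1)])
 (.leaf 4836 1 [(1, -1), (17, 1)])))))
 (.node (.node (.node (.node (.leaf 21660 1 [(8, -1), (17, 1)])
 (.leaf 9472 1 [(9, -1), (17, 1)]))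
 (.node (.leaf 3632 1 [(4, 1), (17, 1)])
 (.leaf 13808 1 [(5, 1), (17, 1)])))
 (.node (.node (.leaf 11676 1 [(12, -1), (17, 1)])
 (.leaf 1128 1 [(13, 1), (17, 1)]))
 (.node (.leaf 7860 1 [(17, 1), (32, -1)])
 (.leaf 476 1 [(17, 1), (33, 1)]))))
 (.node (.node (.node (.leaf 3640 1 [(17, 2), (28, 1), (40, 2), (41, 1), (44, 1), (52, 1), (56, 1)])
 (.leaf 5500 1 [(17, 1), (36, -1)]))
 (.node (.leaf 5140 1 [(17, 1), (37, -1)])
 (.leaf 31360 1 [(16, 1), (17, 1)])))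
 (.node (.node (.leaf 1785836 1 [(24, 1)])
 (.leaf 46280 1 [(0, -1), (24, 1)]))
 (.node (.leaf 21288 1 [(1, 1), (24, 1)])
 (.leaf 328 1 [(8, 1), (24, 1)]))))))

def cert11 : Cert :=
 (.node (.node (.node (.node (.node (.leaf 9256 1 [(9, 1), (24, 1)])
 (.leaf 3648 1 [(4, -1), (24, 1)]))
 (.node (.leaf 8604 1 [(5, 1), (24, 1)])
 (.leaf 15160 1 [(12, 1), (24, 1)])))
 (.node (.node (.leaf 8260 1 [(13, -1), (24, 1)])
 (.leaf 20648 1 [(24, 1), (32, -1)]))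
 (.node (.leaf 6936 1 [(24, 1), (33, -1)])
 (.leaf 1477 1 [(24, 2), (28, 1), (40, 2), (41, 1), (44, 1), (52, 1), (56, 1)]))))
 (.node (.node (.node (.leaf 6976 1 [(24, 1), (36, 1)])
 (.leaf 11696 1 [(24, 1), (37, -1)]))
 (.node (.leaf 16376 1 [(16, 1), (24, 1)])
 (.leaf 5120 1 [(17, -1), (24, 1)])))
 (.node (.node (.leaf 1724760 1 [(25, 1)])
 (.leaf 45264 1 [(0, -1), (25, 1)]))
 (.node (.leaf 27056 1 [(1, -1), (25, 1)])
 (.leaf 41280 1 [(8, -1), (25, 1)])))))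
 (.node (.node (.node (.node (.leaf 3888 1 [(9, 1), (25, 1)])
 (.leaf 1256 1 [(4, 1), (25, 1)]))
 (.node (.leaf 15644 1 [(5, 1), (25, 1)])
 (.leaf 9256 1 [(12, 1), (25, 1)])))
 (.node (.node (.leaf 2564 1 [(13, -1), (25, 1)])
 (.leaf 21700 1 [(25, 1), (32, -1)]))
 (.node (.leaf 11300 1 [(25, 1), (33, 1)])
 (.leaf 1571 1 [(25, 2), (28, -1), (40, -2), (41, -1), (44, -1), (52, -1), (56, -1)]))))
 (.node (.node (.node (.leaf 6176 1 [(25, 1), (36, -1)])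
 (.leaf 2624 1 [(25, 1), (37, -1)]))
 (.node (.leaf 36116 1 [(16, -1), (25, 1)])
 (.leaf 20332 1 [(17, 1), (25, 1)])))
 (.node (.node (.leaf 16688 1 [(24, 1), (25, 1)])
 (.leaf 1804164 1 [(20, 1)]))
 (.node (.leaf 51940 1 [(0, 1), (20, 1)])
 (.leaf 6508 1 [(1, 1), (20, 1)]))))))

def cert12 : Cert :=
 (.node (.node (.node (.node (.node (.leaf 1356 1 [(8, -1), (20, 1)])
 (.leaf 7952 1 [(9, 1), (20, 1)]))
 (.node (.leaf 26628 1 [(4, 1), (20, 1)])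
 (.leaf 11388 1 [(5, 1), (20, 1)])))
 (.node (.node (.leaf 26852 1 [(12, 1), (20, 1)])
 (.leaf 2604 1 [(13, -1), (20, 1)]))
 (.node (.leaf 1496 1 [(20, 1), (32, -1)])
 (.leaf 8968 1 [(20, 1), (33, -1)]))))
 (.node (.node (.node (.leaf 2799 1 [(20, 2), (28, 1), (40, 2), (41, 1), (44, 1), (52, 1), (56, 1)])
 (.leaf 6552 1 [(20, 1), (36, -1)]))
 (.node (.leaf 9736 1 [(20, 1), (37, -1)])
 (.leaf 28500 1 [(16, 1), (20, 1)])))
 (.node (.node (.leaf 3404 1 [(17, -1), (20, 1)])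
 (.leaf 19212 1 [(20, 1), (24, 1)]))
 (.node (.leaf 10544 1 [(20, 1), (25, 1)])
 (.leaf 1817092 1 [(48, 1)])))))
 (.node (.node (.node (.node (.leaf 18628 1 [(0, 1), (48, 1)])
 (.leaf 21932 1 [(1, 1), (48, 1)]))
 (.node (.leaf 6532 1 [(8, 1), (48, 1)])
 (.leaf 11492 1 [(9, -1), (48, 1)])))
 (.node (.node (.leaf 21244 1 [(4, -1), (48, 1)])
 (.leaf 2892 1 [(5, -1), (48, 1)]))
 (.node (.leaf 7968 1 [(12, 1), (48, 1)])
 (.leaf 6680 1 [(13, -1), (48, 1)]))))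
 (.node (.node (.node (.leaf 7440 1 [(32, 1), (48, 1)])
 (.leaf 17040 1 [(33, -1), (48, 1)]))
 (.node (.leaf 2254 1 [(28, 1), (40, 2), (41, 1), (44, 1), (48, 2), (52, 1), (56, 1)])
 (.leaf 2412 1 [(36, 1), (48, 1)])))
 (.node (.node (.leaf 12576 1 [(37, -1), (48, 1)])
 (.leaf 19744 1 [(16, 1), (48, 1)]))
 (.node (.leaf 3248 1 [(17, -1), (48, 1)])
 (.leaf 13284 1 [(24, -1), (48, 1)]))))))

def cert13 : Cert :=
 (.node (.node (.node (.node (.node (.leaf 3620 1 [(25, 1), (48, 1)])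
 (.leaf 4268 1 [(20, -1), (48, 1)]))
 (.node (.leaf 1 2 [(0, 54514), (1, 6866), (2, 7906), (3, 5212), (8, 7174), (9, 5502), (10, 2808), (11, 616), (16, 6194), (17, 1674), (18, 5212), (19, 837), (24, 4482), (25, 837), (26, 616), (32, 7136), (33, 5252), (34, 2942), (35, 837), (40, 2038), (41, 424), (48, 4366), (49, 837), (50, 837)])
 (.leaf 1 2 [(1, 7624), (2, 12864), (3, 1306), (8, 34800), (9, 2210), (10, 2012), (11, 626), (16, 7852), (17, 890), (18, 1034), (19, 445), (24, 1668), (25, 445), (26, 386), (32, 13414), (33, 1508), (34, 1382), (35, 445), (40, 1870), (41, 516), (48, 1088), (49, 445), (50, 445)])))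
 (.node (.node (.leaf 1 2 [(1, 30424), (2, 8814), (3, 3424), (9, 2548), (10, 792), (11, 532), (16, 9352), (17, 2466), (18, 2286), (19, 1233), (24, 1018), (25, 1233), (26, 558), (32, 6126), (33, 3262), (34, 2264), (35, 1233), (40, 244), (41, 638), (48, 1568), (49, 1233), (50, 1233)])
 (.leaf 4 2 [(2, 224), (3, 4182), (9, 9376), (10, 2715), (11, 508), (16, -105), (17, 904), (18, 1340), (19, 452), (24, 2390), (25, 452), (26, 157), (32, 151), (33, 4231), (34, 2017), (35, 452), (40, 1280), (41, 507), (48, 1342), (49, 452), (50, 452)]))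
 (.node (.leaf 1 2 [(2, 32662), (3, 1584), (10, 1482), (11, 442), (16, 2712), (17, 930), (18, 1946), (19, 465), (24, 230), (25, 465), (26, 508), (32, 7866), (33, 670), (34, 1640), (35, 465), (40, 178), (41, 118), (48, 720), (49, 465), (50, 465)])
 (.leaf 1 2 [(3, 2396), (10, 15926), (11, 452), (16, 364), (17, 346), (18, 4326), (19, 173), (24, 1972), (25, 173), (26, 714), (32, -472), (33, 1238), (34, 6488), (35, 173), (40, 5942), (41, -266), (48, 2510), (49, 173), (50, 173)]))))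
 (.node (.node (.node (.leaf 4 2 [(3, 7744), (11, 292), (16, 631), (17, 1080), (18, 3525), (19, 540), (24, 282), (25, 540), (26, 296), (32, 156), (33, 3961), (34, 1989), (35, 540), (40, -85), (41, 220), (48, 1103), (49, 540), (50, 540)])
 (.leaf 4 2 [(11, 1728), (16, 931), (17, 1478), (18, 449), (19, 739), (24, -157), (25, 739), (26, 906), (32, 17), (33, 446), (34, -199), (35, 739), (40, -525), (41, 904), (48, 422), (49, 739), (50, 739)]))
 (.node (.leaf 4 2 [(16, 12710), (17, 648), (18, 1155), (19, 324), (24, 1083), (25, 324), (26, 167), (32, 2252), (33, 248), (34, 584), (35, 324), (40, 430), (41, 25), (48, 1273), (49, 324), (50, 324)])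
 (.leaf 1 2 [(17, 810), (18, 6890), (19, 405), (24, 15492), (25, 405), (26, 736), (32, -776), (33, 604), (34, 2194), (35, 405), (40, 4548), (41, -488), (48, 8176), (49, 405), (50, 405)])))
 (.node (.node (.leaf 4 2 [(17, 2976), (18, 1182), (19, 1488), (25, 1488), (26, 427), (32, 507), (33, 630), (34, 2117), (35, 1488), (40, -20), (41, 523), (48, 1227), (49, 1488), (50, 1488)])
 (.leaf 4 2 [(18, 6754), (26, 219), (32, -378), (33, -1266), (34, 816), (40, -176), (41, -174), (48, 2400)]))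
 (.node (.leaf 4 2 [(26, 1401), (32, -1793), (33, 69), (34, -459), (40, -989), (41, -881), (48, 111)])
 (.leaf 4 2 [(32, 14290), (33, 520), (34, 328), (40, 406), (41, 82), (48, 393)])))))
 (.node (.node (.node (.node (.leaf 4 2 [(33, 603), (34, 1157), (40, 5810), (41, 69), (48, 879)])
 (.leaf 4 2 [(33, 6517), (34, 1371), (41, 16), (48, 2459)]))
 (.node (.leaf 4 2 [(34, -465), (41, 1088), (48, -357)])
 (.leaf 16 2 [(34, 2871), (48, -139)])))
 (.node (.node (.leaf 4 2 [(48, 4711)])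
 (.leaf 1408220 2 [(0, 1)]))
 (.node (.leaf 1775124 2 [(8, 1)])
 (.leaf 35412 2 [(0, 1), (8, 1)]))))
 (.node (.node (.node (.leaf 1619996 2 [(1, 1)])
 (.leaf 48508 2 [(0, 1), (1, 1)]))
 (.node (.leaf 916 2 [(1, 1), (8, 1)])
 (.leaf 1776256 2 [(9, 1)])))
 (.node (.node (.leaf 43292 2 [(0, -1), (9, 1)])
 (.leaf 12588 2 [(8, 1), (9, 1)]))
 (.node (.leaf 25548 2 [(1, -1), (9, 1)])
 (.leaf 1680180 2 [(2, 1)]))))))

def cert14 : Cert :=
 (.node (.node (.node (.node (.node (.leaf 22948 2 [(0, -1), (2, 1)])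
 (.leaf 19788 2 [(2, 1), (8, -1)]))
 (.node (.leaf 35892 2 [(1, -1), (2, 1)])
 (.leaf 26772 2 [(2, 1), (9, -1)])))
 (.node (.node (.leaf 1860908 2 [(10, 1)])
 (.leaf 16784 2 [(0, 1), (10, 1)]))
 (.node (.leaf 15344 2 [(8, 1), (10, 1)])
 (.leaf 5232 2 [(1, 1), (10, 1)]))))
 (.node (.node (.node (.leaf 5544 2 [(9, -1), (10, 1)])
 (.leaf 5348 2 [(2, 1), (10, 1)]))
 (.node (.leaf 1816820 2 [(3, 1)])
 (.leaf 37128 2 [(0, 1), (3, 1)])))
 (.node (.node (.leaf 2184 2 [(3, 1), (8, -1)])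
 (.leaf 32056 2 [(1, 1), (3, 1)]))
 (.node (.leaf 3524 2 [(3, 1), (9, 1)])
 (.leaf 14360 2 [(2, -1), (3, 1)])))))
 (.node (.node (.node (.node (.leaf 8696 2 [(3, 1), (10, 1)])
 (.leaf 1868276 2 [(11, 1)]))
 (.node (.leaf 26192 2 [(0, -1), (11, 1)])
 (.leaf 10416 2 [(8, 1), (11, 1)])))
 (.node (.node (.leaf 21824 2 [(1, -1), (11, 1)])
 (.leaf 14436 2 [(9, -1), (11, 1)]))
 (.node (.leaf 2076 2 [(2, 1), (11, 1)])
 (.leaf 3844 2 [(10, -1), (11, 1)]))))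
 (.node (.node (.node (.leaf 9828 2 [(3, -1), (11, 1)])
 (.leaf 1781768 2 [(16, 1)]))
 (.node (.leaf 18244 2 [(0, -1), (16, 1)])
 (.leaf 33172 2 [(8, 1), (16, 1)])))
 (.node (.node (.leaf 7644 2 [(1, 1), (16, 1)])
 (.leaf 20116 2 [(9, -1), (16, 1)]))
 (.node (.leaf 27428 2 [(2, -1), (16, 1)])
 (.leaf 9364 2 [(10, 1), (16, 1)]))))))

def cert15 : Cert :=
 (.node (.node (.node (.node (.node (.leaf 1112 2 [(3, 1), (16, 1)])
 (.leaf 7976 2 [(11, -1), (16, 1)]))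
 (.node (.leaf 1799384 2 [(24, 1)])
 (.leaf 13540 2 [(0, -1), (24, 1)])))
 (.node (.node (.leaf 22732 2 [(8, -1), (24, 1)])
 (.leaf 12980 2 [(1, -1), (24, 1)]))
 (.node (.leaf 11572 2 [(9, 1), (24, 1)])
 (.leaf 20724 2 [(2, -1), (24, 1)]))))
 (.node (.node (.node (.leaf 1164 2 [(10, -1), (24, 1)])
 (.leaf 8896 2 [(3, 1), (24, 1)]))
 (.node (.leaf 3148 2 [(11, -1), (24, 1)])
 (.leaf 2608 2 [(16, 1), (24, 1)])))
 (.node (.node (.leaf 448645 2 [(17, 2), (19, 1), (25, 1), (35, 1), (49, 1), (50, 1)])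
 (.leaf 7581 2 [(0, -2), (17, 2), (19, 1), (25, 1), (35, 1), (49, 1), (50, 1)]))
 (.node (.leaf 2585 2 [(8, 2), (17, 2), (19, 1), (25, 1), (35, 1), (49, 1), (50, 1)])
 (.leaf 4659 2 [(1, 2), (17, 2), (19, 1), (25, 1), (35, 1), (49, 1), (50, 1)])))))
 (.node (.node (.node (.node (.leaf 3998 2 [(9, 2), (17, 2), (19, 1), (25, 1), (35, 1), (49, 1), (50, 1)])
 (.leaf 2487 2 [(2, -2), (17, 2), (19, 1), (25, 1), (35, 1), (49, 1), (50, 1)]))
 (.node (.leaf 3846 2 [(10, 2), (17, 2), (19, 1), (25, 1), (35, 1), (49, 1), (50, 1)])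
 (.leaf 781 2 [(3, -2), (17, 2), (19, 1), (25, 1), (35, 1), (49, 1), (50, 1)])))
 (.node (.node (.leaf 1194 2 [(11, -2), (17, 2), (19, 1), (25, 1), (35, 1), (49, 1), (50, 1)])
 (.leaf 6069 2 [(16, 2), (17, 2), (19, 1), (25, 1), (35, 1), (49, 1), (50, 1)]))
 (.node (.leaf 4555 2 [(17, 2), (19, 1), (24, 2), (25, 1), (35, 1), (49, 1), (50, 1)])
 (.leaf 1744116 2 [(18, 1)]))))
 (.node (.node (.node (.leaf 37128 2 [(0, 1), (18, 1)])
 (.leaf 26232 2 [(8, 1), (18, 1)]))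
 (.node (.leaf 28136 2 [(1, 1), (18, 1)])
 (.leaf 9844 2 [(9, -1), (18, 1)])))
 (.node (.node (.leaf 43464 2 [(2, 1), (18, 1)])
 (.leaf 864 2 [(10, -1), (18, 1)]))
 (.node (.leaf 7556 2 [(3, 1), (18, 1)])
 (.leaf 7288 2 [(11, -1), (18, 1)]))))))

def cert16 : Cert :=
 (.node (.node (.node (.node (.node (.leaf 3896 2 [(16, 1), (18, 1)])
 (.leaf 12032 2 [(18, 1), (24, -1)]))
 (.node (.leaf 255 2 [(17, 2), (18, 2), (19, 1), (25, 1), (35, 1), (49, 1), (50, 1)])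
 (.leaf 1719672 2 [(26, 1)])))
 (.node (.node (.leaf 26192 2 [(0, -1), (26, 1)])
 (.leaf 26192 2 [(8, -1), (26, 1)]))
 (.node (.leaf 31664 2 [(1, -1), (26, 1)])
 (.leaf 17868 2 [(9, -1), (26, 1)]))))
 (.node (.node (.node (.leaf 29500 2 [(2, -1), (26, 1)])
 (.leaf 120 2 [(10, -1), (26, 1)]))
 (.node (.leaf 12964 2 [(3, -1), (26, 1)])
 (.leaf 3628 2 [(11, -1), (26, 1)])))
 (.node (.node (.leaf 33372 2 [(16, -1), (26, 1)])
 (.leaf 14680 2 [(24, -1), (26, 1)]))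
 (.node (.leaf 1939 2 [(17, -2), (19, -1), (25, -1), (26, 2), (35, -1), (49, -1), (50, -1)])
 (.leaf 22744 2 [(18, -1), (26, 1)])))))
 (.node (.node (.node (.node (.leaf 1795664 2 [(32, 1)])
 (.leaf 9792 2 [(0, 1), (32, 1)]))
 (.node (.leaf 4320 2 [(8, -1), (32, 1)])
 (.leaf 64 2 [(1, -1), (32, 1)])))
 (.node (.node (.leaf 1828 2 [(9, -1), (32, 1)])
 (.leaf 7424 2 [(2, -1), (32, 1)]))
 (.node (.leaf 12832 2 [(10, 1), (32, 1)])
 (.leaf 2116 2 [(3, -1), (32, 1)]))))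
 (.node (.node (.node (.leaf 1000 2 [(11, 1), (32, 1)])
 (.leaf 20792 2 [(16, 1), (32, 1)]))
 (.node (.leaf 1916 2 [(24, 1), (32, 1)])
 (.leaf 3239 2 [(17, 2), (19, 1), (25, 1), (32, 2), (35, 1), (49, 1), (50, 1)])))
 (.node (.node (.leaf 28752 2 [(18, 1), (32, 1)])
 (.leaf 23396 2 [(26, -1), (32, 1)]))
 (.node (.leaf 1817204 2 [(40, 1)])
 (.leaf 49524 2 [(0, 1), (40, 1)]))))))

def cert17 : Cert :=
 (.node (.node (.node (.node (.node (.leaf 4836 2 [(8, -1), (40, 1)])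
 (.leaf 21660 2 [(1, -1), (40, 1)]))
 (.node (.leaf 9472 2 [(9, -1), (40, 1)])
 (.leaf 3632 2 [(2, 1), (40, 1)])))
 (.node (.node (.leaf 13808 2 [(10, 1), (40, 1)])
 (.leaf 11676 2 [(3, -1), (40, 1)]))
 (.node (.leaf 1128 2 [(11, 1), (40, 1)])
 (.leaf 7860 2 [(16, -1), (40, 1)]))))
 (.node (.node (.node (.leaf 476 2 [(24, 1), (40, 1)])
 (.leaf 3640 2 [(17, 2), (19, 1), (25, 1), (35, 1), (40, 2), (49, 1), (50, 1)]))
 (.node (.leaf 5500 2 [(18, -1), (40, 1)])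
 (.leaf 5140 2 [(26, -1), (40, 1)])))
 (.node (.node (.leaf 31360 2 [(32, 1), (40, 1)])
 (.leaf 1785836 2 [(33, 1)]))
 (.node (.leaf 46280 2 [(0, -1), (33, 1)])
 (.leaf 21288 2 [(8, 1), (33, 1)])))))
 (.node (.node (.node (.node (.leaf 328 2 [(1, 1), (33, 1)])
 (.leaf 9256 2 [(9, 1), (33, 1)]))
 (.node (.leaf 3648 2 [(2, -1), (33, 1)])
 (.leaf 8604 2 [(10, 1), (33, 1)])))
 (.node (.node (.leaf 15160 2 [(3, 1), (33, 1)])
 (.leaf 8260 2 [(11, -1), (33, 1)]))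
 (.node (.leaf 20648 2 [(16, -1), (33, 1)])
 (.leaf 6936 2 [(24, -1), (33, 1)]))))
 (.node (.node (.node (.leaf 1477 2 [(17, 2), (19, 1), (25, 1), (33, 2), (35, 1), (49, 1), (50, 1)])
 (.leaf 6976 2 [(18, 1), (33, 1)]))
 (.node (.leaf 11696 2 [(26, -1), (33, 1)])
 (.leaf 16376 2 [(32, 1), (33, 1)])))
 (.node (.node (.leaf 5120 2 [(33, 1), (40, -1)])
 (.leaf 1724760 2 [(41, 1)]))
 (.node (.leaf 45264 2 [(0, -1), (41, 1)])
 (.leaf 27056 2 [(8, -1), (41, 1)]))))))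

def cert18 : Cert :=
 (.node (.node (.node (.node (.node (.leaf 41280 2 [(1, -1), (41, 1)])
 (.leaf 3888 2 [(9, 1), (41, 1)]))
 (.node (.leaf 1256 2 [(2, 1), (41, 1)])
 (.leaf 15644 2 [(10, 1), (41, 1)])))
 (.node (.node (.leaf 9256 2 [(3, 1), (41, 1)])
 (.leaf 2564 2 [(11, -1), (41, 1)]))
 (.node (.leaf 21700 2 [(16, -1), (41, 1)])
 (.leaf 11300 2 [(24, 1), (41, 1)]))))
 (.node (.node (.node (.leaf 1571 2 [(17, -2), (19, -1), (25, -1), (35, -1), (41, 2), (49, -1), (50, -1)])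
 (.leaf 6176 2 [(18, -1), (41, 1)]))
 (.node (.leaf 2624 2 [(26, -1), (41, 1)])
 (.leaf 36116 2 [(32, -1), (41, 1)])))
 (.node (.node (.leaf 20332 2 [(40, 1), (41, 1)])
 (.leaf 16688 2 [(33, 1), (41, 1)]))
 (.node (.leaf 1804164 2 [(34, 1)])
 (.leaf 51940 2 [(0, 1), (34, 1)])))))
 (.node (.node (.node (.node (.leaf 6508 2 [(8, 1), (34, 1)])
 (.leaf 1356 2 [(1, -1), (34, 1)]))
 (.node (.leaf 7952 2 [(9, 1), (34, 1)])
 (.leaf 26628 2 [(2, 1), (34, 1)])))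
 (.node (.node (.leaf 11388 2 [(10, 1), (34, 1)])
 (.leaf 26852 2 [(3, 1), (34, 1)]))
 (.node (.leaf 2604 2 [(11, -1), (34, 1)])
 (.leaf 1496 2 [(16, -1), (34, 1)]))))
 (.node (.node (.node (.leaf 8968 2 [(24, -1), (34, 1)])
 (.leaf 2799 2 [(17, 2), (19, 1), (25, 1), (34, 2), (35, 1), (49, 1), (50, 1)]))
 (.node (.leaf 6552 2 [(18, -1), (34, 1)])
 (.leaf 9736 2 [(26, -1), (34, 1)])))
 (.node (.node (.leaf 28500 2 [(32, 1), (34, 1)])
 (.leaf 3404 2 [(34, 1), (40, -1)]))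
 (.node (.leaf 19212 2 [(33, 1), (34, 1)])
 (.leaf 10544 2 [(34, 1), (41, 1)]))))))

def cert19 : Cert :=
 (.node (.node (.node (.node (.node (.leaf 1817092 2 [(48, 1)])
 (.leaf 18628 2 [(0, 1), (48, 1)]))
 (.node (.leaf 21932 2 [(8, 1), (48, 1)])
 (.leaf 6532 2 [(1, 1), (48, 1)])))
 (.node (.node (.leaf 11492 2 [(9, -1), (48, 1)])
 (.leaf 21244 2 [(2, -1), (48, 1)]))
 (.node (.leaf 2892 2 [(10, -1), (48, 1)])
 (.leaf 7968 2 [(3, 1), (48, 1)]))))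
 (.node (.node (.node (.leaf 6680 2 [(11, -1), (48, 1)])
 (.leaf 7440 2 [(16, 1), (48, 1)]))
 (.node (.leaf 17040 2 [(24, -1), (48, 1)])
 (.leaf 2254 2 [(17, 2), (19, 1), (25, 1), (35, 1), (48, 2), (49, 1), (50, 1)])))
 (.node (.node (.leaf 2412 2 [(18, 1), (48, 1)])
 (.leaf 12576 2 [(26, -1), (48, 1)]))
 (.node (.leaf 19744 2 [(32, 1), (48, 1)])
 (.leaf 3248 2 [(40, -1), (48, 1)])))))
 (.node (.node (.node (.node (.leaf 13284 2 [(33, -1), (48, 1)])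
 (.leaf 3620 2 [(41, 1), (48, 1)]))
 (.node (.leaf 4268 2 [(34, -1), (48, 1)])
 (.leaf 1 3 [(0, 54514), (1, 7906), (2, 6866), (3, 5212), (4, 7174), (5, 2808), (6, 5502), (7, 616), (16, 7136), (17, 2942), (18, 5252), (19, 837), (20, 2038), (22, 424), (32, 6194), (33, 5212), (34, 1674), (35, 837), (36, 4482), (37, 616), (38, 837), (48, 4366), (49, 837), (50, 837)])))
 (.node (.node (.leaf 1 3 [(1, 12864), (2, 7624), (3, 1306), (4, 34800), (5, 2012), (6, 2210), (7, 626), (16, 13414), (17, 1382), (18, 1508), (19, 445), (20, 1870), (22, 516), (32, 7852), (33, 1034), (34, 890), (35, 445), (36, 1668), (37, 386), (38, 445), (48, 1088), (49, 445), (50, 445)])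
 (.leaf 1 3 [(1, 8814), (2, 30424), (3, 3424), (5, 792), (6, 2548), (7, 532), (16, 6126), (17, 2264), (18, 3262), (19, 1233), (20, 244), (22, 638), (32, 9352), (33, 2286), (34, 2466), (35, 1233), (36, 1018), (37, 558), (38, 1233), (48, 1568), (49, 1233), (50, 1233)]))
 (.node (.leaf 4 3 [(1, 224), (3, 4182), (5, 2715), (6, 9376), (7, 508), (16, 151), (17, 2017), (18, 4231), (19, 452), (20, 1280), (22, 507), (32, -105), (33, 1340), (34, 904), (35, 452), (36, 2390), (37, 157), (38, 452), (48, 1342), (49, 452), (50, 452)])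
 (.leaf 1 3 [(1, 32662), (3, 1584), (5, 1482), (7, 442), (16, 7866), (17, 1640), (18, 670), (19, 465), (20, 178), (22, 118), (32, 2712), (33, 1946), (34, 930), (35, 465), (36, 230), (37, 508), (38, 465), (48, 720), (49, 465), (50, 465)]))))
 (.node (.node (.node (.leaf 1 3 [(3, 2396), (5, 15926), (7, 452), (16, -472), (17, 6488), (18, 1238), (19, 173), (20, 5942), (22, -266), (32, 364), (33, 4326), (34, 346), (35, 173), (36, 1972), (37, 714), (38, 173), (48, 2510), (49, 173), (50, 173)])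
 (.leaf 4 3 [(3, 7744), (7, 292), (16, 156), (17, 1989), (18, 3961), (19, 540), (20, -85), (22, 220), (32, 631), (33, 3525), (34, 1080), (35, 540), (36, 282), (37, 296), (38, 540), (48, 1103), (49, 540), (50, 540)]))
 (.node (.leaf 4 3 [(7, 1728), (16, 17), (17, -199), (18, 446), (19, 739), (20, -525), (22, 904), (32, 931), (33, 449), (34, 1478), (35, 739), (36, -157), (37, 906), (38, 739), (48, 422), (49, 739), (50, 739)])
 (.leaf 4 3 [(16, 2252), (17, 584), (18, 248), (19, 324), (20, 430), (22, 25), (32, 12710), (33, 1155), (34, 648), (35, 324), (36, 1083), (37, 167), (38, 324), (48, 1273), (49, 324), (50, 324)])))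
 (.node (.node (.leaf 1 3 [(16, -776), (17, 2194), (18, 604), (19, 405), (20, 4548), (22, -488), (33, 6890), (34, 810), (35, 405), (36, 15492), (37, 736), (38, 405), (48, 8176), (49, 405), (50, 405)])
 (.leaf 4 3 [(16, 507), (17, 2117), (18, 630), (19, 1488), (20, -20), (22, 523), (33, 1182), (34, 2976), (35, 1488), (37, 427), (38, 1488), (48, 1227), (49, 1488), (50, 1488)]))
 (.node (.leaf 4 3 [(16, -378), (17, 816), (18, -1266), (20, -176), (22, -174), (33, 6754), (37, 219), (48, 2400)])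
 (.leaf 4 3 [(16, -1793), (17, -459), (18, 69), (20, -989), (22, -881), (37, 1401), (48, 111)]))))))

def cert20 : Cert :=
 (.node (.node (.node (.node (.node (.leaf 4 3 [(16, 14290), (17, 328), (18, 520), (20, 406), (22, 82), (48, 393)])
 (.leaf 4 3 [(17, 1157), (18, 603), (20, 5810), (22, 69), (48, 879)]))
 (.node (.leaf 4 3 [(17, 1371), (18, 6517), (22, 16), (48, 2459)])
 (.leaf 4 3 [(17, -465), (22, 1088), (48, -357)])))
 (.node (.node (.leaf 16 3 [(17, 2871), (48, -139)])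
 (.leaf 4 3 [(48, 4711)]))
 (.node (.leaf 1408220 3 [(0, 1)])
 (.leaf 1775124 3 [(4, 1)]))))
 (.node (.node (.node (.leaf 35412 3 [(0, 1), (4, 1)])
 (.leaf 1619996 3 [(2, 1)]))
 (.node (.leaf 48508 3 [(0, 1), (2, 1)])
 (.leaf 916 3 [(2, 1), (4, 1)])))
 (.node (.node (.leaf 1776256 3 [(6, 1)])
 (.leaf 43292 3 [(0, -1), (6, 1)]))
 (.node (.leaf 12588 3 [(4, 1), (6, 1)])
 (.leaf 25548 3 [(2, -1), (6, 1)])))))
 (.node (.node (.node (.node (.leaf 1680180 3 [(1, 1)])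
 (.leaf 22948 3 [(0, -1), (1, 1)]))
 (.node (.leaf 19788 3 [(1, 1), (4, -1)])
 (.leaf 35892 3 [(1, 1), (2, -1)])))
 (.node (.node (.leaf 26772 3 [(1, 1), (6, -1)])
 (.leaf 1860908 3 [(5, 1)]))
 (.node (.leaf 16784 3 [(0, 1), (5, 1)])
 (.leaf 15344 3 [(4, 1), (5, 1)]))))
 (.node (.node (.node (.leaf 5232 3 [(2, 1), (5, 1)])
 (.leaf 5544 3 [(5, 1), (6, -1)]))
 (.node (.leaf 5348 3 [(1, 1), (5, 1)])
 (.leaf 1816820 3 [(3, 1)])))
 (.node (.node (.leaf 37128 3 [(0, 1), (3, 1)])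
 (.leaf 2184 3 [(3, 1), (4, -1)]))
 (.node (.leaf 32056 3 [(2, 1), (3, 1)])
 (.leaf 3524 3 [(3, 1), (6, 1)]))))))

def cert21 : Cert :=
 (.node (.node (.node (.node (.node (.leaf 14360 3 [(1, -1), (3, 1)])
 (.leaf 8696 3 [(3, 1), (5, 1)]))
 (.node (.leaf 1868276 3 [(7, 1)])
 (.leaf 26192 3 [(0, -1), (7, 1)])))
 (.node (.node (.leaf 10416 3 [(4, 1), (7, 1)])
 (.leaf 21824 3 [(2, -1), (7, 1)]))
 (.node (.leaf 14436 3 [(6, -1), (7, 1)])
 (.leaf 2076 3 [(1, 1), (7, 1)]))))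
 (.node (.node (.node (.leaf 3844 3 [(5, -1), (7, 1)])
 (.leaf 9828 3 [(3, -1), (7, 1)]))
 (.node (.leaf 1781768 3 [(32, 1)])
 (.leaf 18244 3 [(0, -1), (32, 1)])))
 (.node (.node (.leaf 33172 3 [(4, 1), (32, 1)])
 (.leaf 7644 3 [(2, 1), (32, 1)]))
 (.node (.leaf 20116 3 [(6, -1), (32, 1)])
 (.leaf 27428 3 [(1, -1), (32, 1)])))))
 (.node (.node (.node (.node (.leaf 9364 3 [(5, 1), (32, 1)])
 (.leaf 1112 3 [(3, 1), (32, 1)]))
 (.node (.leaf 7976 3 [(7, -1), (32, 1)])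
 (.leaf 1799384 3 [(36, 1)])))
 (.node (.node (.leaf 13540 3 [(0, -1), (36, 1)])
 (.leaf 22732 3 [(4, -1), (36, 1)]))
 (.node (.leaf 12980 3 [(2, -1), (36, 1)])
 (.leaf 11572 3 [(6, 1), (36, 1)]))))
 (.node (.node (.node (.leaf 20724 3 [(1, -1), (36, 1)])
 (.leaf 1164 3 [(5, -1), (36, 1)]))
 (.node (.leaf 8896 3 [(3, 1), (36, 1)])
 (.leaf 3148 3 [(7, -1), (36, 1)])))
 (.node (.node (.leaf 2608 3 [(32, 1), (36, 1)])
 (.leaf 448645 3 [(19, 1), (34, 2), (35, 1), (38, 1), (49, 1), (50, 1)]))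
 (.node (.leaf 7581 3 [(0, -2), (19, 1), (34, 2), (35, 1), (38, 1), (49, 1), (50, 1)])
 (.leaf 2585 3 [(4, 2), (19, 1), (34, 2), (35, 1), (38, 1), (49, 1), (50, 1)]))))))

def cert22 : Cert :=
 (.node (.node (.node (.node (.node (.leaf 4659 3 [(2, 2), (19, 1), (34, 2), (35, 1), (38, 1), (49, 1), (50, 1)])
 (.leaf 3998 3 [(6, 2), (19, 1), (34, 2), (35, 1), (38, 1), (49, 1), (50, 1)]))
 (.node (.leaf 2487 3 [(1, -2), (19, 1), (34, 2), (35, 1), (38, 1), (49, 1), (50, 1)])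
 (.leaf 3846 3 [(5, 2), (19, 1), (34, 2), (35, 1), (38, 1), (49, 1), (50, 1)])))
 (.node (.node (.leaf 781 3 [(3, -2), (19, 1), (34, 2), (35, 1), (38, 1), (49, 1), (50, 1)])
 (.leaf 1194 3 [(7, -2), (19, 1), (34, 2), (35, 1), (38, 1), (49, 1), (50, 1)]))
 (.node (.leaf 6069 3 [(19, 1), (32, 2), (34, 2), (35, 1), (38, 1), (49, 1), (50, 1)])
 (.leaf 4555 3 [(19, 1), (34, 2), (35, 1), (36, 2), (38, 1), (49, 1), (50, 1)]))))
 (.node (.node (.node (.leaf 1744116 3 [(33, 1)])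
 (.leaf 37128 3 [(0, 1), (33, 1)]))
 (.node (.leaf 26232 3 [(4, 1), (33, 1)])
 (.leaf 28136 3 [(2, 1), (33, 1)])))
 (.node (.node (.leaf 9844 3 [(6, -1), (33, 1)])
 (.leaf 43464 3 [(1, 1), (33, 1)]))
 (.node (.leaf 864 3 [(5, -1), (33, 1)])
 (.leaf 7556 3 [(3, 1), (33, 1)])))))
 (.node (.node (.node (.node (.leaf 7288 3 [(7, -1), (33, 1)])
 (.leaf 3896 3 [(32, 1), (33, 1)]))
 (.node (.leaf 12032 3 [(33, 1), (36, -1)])
 (.leaf 255 3 [(19, 1), (33, 2), (34, 2), (35, 1), (38, 1), (49, 1), (50, 1)])))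
 (.node (.node (.leaf 1719672 3 [(37, 1)])
 (.leaf 26192 3 [(0, -1), (37, 1)]))
 (.node (.leaf 26192 3 [(4, -1), (37, 1)])
 (.leaf 31664 3 [(2, -1), (37, 1)]))))
 (.node (.node (.node (.leaf 17868 3 [(6, -1), (37, 1)])
 (.leaf 29500 3 [(1, -1), (37, 1)]))
 (.node (.leaf 120 3 [(5, -1), (37, 1)])
 (.leaf 12964 3 [(3, -1), (37, 1)])))
 (.node (.node (.leaf 3628 3 [(7, -1), (37, 1)])
 (.leaf 33372 3 [(32, -1), (37, 1)]))
 (.node (.leaf 14680 3 [(36, -1), (37, 1)])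
 (.leaf 1939 3 [(19, -1), (34, -2), (35, -1), (37, 2), (38, -1), (49, -1), (50, -1)]))))))

def cert23 : Cert :=
 (.node (.node (.node (.node (.node (.leaf 22744 3 [(33, -1), (37, 1)])
 (.leaf 1795664 3 [(16, 1)]))
 (.node (.leaf 9792 3 [(0, 1), (16, 1)])
 (.leaf 4320 3 [(4, -1), (16, 1)])))
 (.node (.node (.leaf 64 3 [(2, -1), (16, 1)])
 (.leaf 1828 3 [(6, -1), (16, 1)]))
 (.node (.leaf 7424 3 [(1, -1), (16, 1)])
 (.leaf 12832 3 [(5, 1), (16, 1)]))))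
 (.node (.node (.node (.leaf 2116 3 [(3, -1), (16, 1)])
 (.leaf 1000 3 [(7, 1), (16, 1)]))
 (.node (.leaf 20792 3 [(16, 1), (32, 1)])
 (.leaf 1916 3 [(16, 1), (36, 1)])))
 (.node (.node (.leaf 3239 3 [(16, 2), (19, 1), (34, 2), (35, 1), (38, 1), (49, 1), (50, 1)])
 (.leaf 28752 3 [(16, 1), (33, 1)]))
 (.node (.leaf 23396 3 [(16, 1), (37, -1)])
 (.leaf 1817204 3 [(20, 1)])))))
 (.node (.node (.node (.node (.leaf 49524 3 [(0, 1), (20, 1)])
 (.leaf 4836 3 [(4, -1), (20, 1)]))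
 (.node (.leaf 21660 3 [(2, -1), (20, 1)])
 (.leaf 9472 3 [(6, -1), (20, 1)])))
 (.node (.node (.leaf 3632 3 [(1, 1), (20, 1)])
 (.leaf 13808 3 [(5, 1), (20, 1)]))
 (.node (.leaf 11676 3 [(3, -1), (20, 1)])
 (.leaf 1128 3 [(7, 1), (20, 1)]))))
 (.node (.node (.node (.leaf 7860 3 [(20, 1), (32, -1)])
 (.leaf 476 3 [(20, 1), (36, 1)]))
 (.node (.leaf 3640 3 [(19, 1), (20, 2), (34, 2), (35, 1), (38, 1), (49, 1), (50, 1)])
 (.leaf 5500 3 [(20, 1), (33, -1)])))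
 (.node (.node (.leaf 5140 3 [(20, 1), (37, -1)])
 (.leaf 31360 3 [(16, 1), (20, 1)]))
 (.node (.leaf 1785836 3 [(18, 1)])
 (.leaf 46280 3 [(0, -1), (18, 1)]))))))

def cert24 : Cert :=
 (.node (.node (.node (.node (.node (.leaf 21288 3 [(4, 1), (18, 1)])
 (.leaf 328 3 [(2, 1), (18, 1)]))
 (.node (.leaf 9256 3 [(6, 1), (18, 1)])
 (.leaf 3648 3 [(1, -1), (18, 1)])))
 (.node (.node (.leaf 8604 3 [(5, 1), (18, 1)])
 (.leaf 15160 3 [(3, 1), (18, 1)]))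
 (.node (.leaf 8260 3 [(7, -1), (18, 1)])
 (.leaf 20648 3 [(18, 1), (32, -1)]))))
 (.node (.node (.node (.leaf 6936 3 [(18, 1), (36, -1)])
 (.leaf 1477 3 [(18, 2), (19, 1), (34, 2), (35, 1), (38, 1), (49, 1), (50, 1)]))
 (.node (.leaf 6976 3 [(18, 1), (33, 1)])
 (.leaf 11696 3 [(18, 1), (37, -1)])))
 (.node (.node (.leaf 16376 3 [(16, 1), (18, 1)])
 (.leaf 5120 3 [(18, 1), (20, -1)]))
 (.node (.leaf 1724760 3 [(22, 1)])
 (.leaf 45264 3 [(0, -1), (22, 1)])))))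
 (.node (.node (.node (.node (.leaf 27056 3 [(4, -1), (22, 1)])
 (.leaf 41280 3 [(2, -1), (22, 1)]))
 (.node (.leaf 3888 3 [(6, 1), (22, 1)])
 (.leaf 1256 3 [(1, 1), (22, 1)])))
 (.node (.node (.leaf 15644 3 [(5, 1), (22, 1)])
 (.leaf 9256 3 [(3, 1), (22, 1)]))
 (.node (.leaf 2564 3 [(7, -1), (22, 1)])
 (.leaf 21700 3 [(22, 1), (32, -1)]))))
 (.node (.node (.node (.leaf 11300 3 [(22, 1), (36, 1)])
 (.leaf 1571 3 [(19, -1), (22, 2), (34, -2), (35, -1), (38, -1), (49, -1), (50, -1)]))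
 (.node (.leaf 6176 3 [(22, 1), (33, -1)])
 (.leaf 2624 3 [(22, 1), (37, -1)])))
 (.node (.node (.leaf 36116 3 [(16, -1), (22, 1)])
 (.leaf 20332 3 [(20, 1), (22, 1)]))
 (.node (.leaf 16688 3 [(18, 1), (22, 1)])
 (.leaf 1804164 3 [(17, 1)]))))))

def cert25 : Cert :=
 (.node (.node (.node (.node (.node (.leaf 51940 3 [(0, 1), (17, 1)])
 (.leaf 6508 3 [(4, 1), (17, 1)]))
 (.node (.leaf 1356 3 [(2, -1), (17, 1)])
 (.leaf 7952 3 [(6, 1), (17, 1)])))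
 (.node (.node (.leaf 26628 3 [(1, 1), (17, 1)])
 (.leaf 11388 3 [(5, 1), (17, 1)]))
 (.node (.leaf 26852 3 [(3, 1), (17, 1)])
 (.leaf 2604 3 [(7, -1), (17, 1)]))))
 (.node (.node (.node (.leaf 1496 3 [(17, 1), (32, -1)])
 (.leaf 8968 3 [(17, 1), (36, -1)]))
 (.node (.leaf 2799 3 [(17, 2), (19, 1), (34, 2), (35, 1), (38, 1), (49, 1), (50, 1)])
 (.leaf 6552 3 [(17, 1), (33, -1)])))
 (.node (.node (.leaf 9736 3 [(17, 1), (37, -1)])
 (.leaf 28500 3 [(16, 1), (17, 1)]))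
 (.node (.leaf 3404 3 [(17, 1), (20, -1)])
 (.leaf 19212 3 [(17, 1), (18, 1)])))))
 (.node (.node (.node (.node (.leaf 10544 3 [(17, 1), (22, 1)])
 (.leaf 1817092 3 [(48, 1)]))
 (.node (.leaf 18628 3 [(0, 1), (48, 1)])
 (.leaf 21932 3 [(4, 1), (48, 1)])))
 (.node (.node (.leaf 6532 3 [(2, 1), (48, 1)])
 (.leaf 11492 3 [(6, -1), (48, 1)]))
 (.node (.leaf 21244 3 [(1, -1), (48, 1)])
 (.leaf 2892 3 [(5, -1), (48, 1)]))))
 (.node (.node (.node (.leaf 7968 3 [(3, 1), (48, 1)])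
 (.leaf 6680 3 [(7, -1), (48, 1)]))
 (.node (.leaf 7440 3 [(32, 1), (48, 1)])
 (.leaf 17040 3 [(36, -1), (48, 1)])))
 (.node (.node (.leaf 2254 3 [(19, 1), (34, 2), (35, 1), (38, 1), (48, 2), (49, 1), (50, 1)])
 (.leaf 2412 3 [(33, 1), (48, 1)]))
 (.node (.leaf 12576 3 [(37, -1), (48, 1)])
 (.leaf 19744 3 [(16, 1), (48, 1)]))))))

def cert26 : Cert :=
 (.node (.node (.node (.node (.node (.leaf 3248 3 [(20, -1), (48, 1)])
 (.leaf 13284 3 [(18, -1), (48, 1)]))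
 (.node (.leaf 3620 3 [(22, 1), (48, 1)])
 (.leaf 4268 3 [(17, -1), (48, 1)])))
 (.node (.node (.leaf 4 4 [(0, 26347), (1, 3104), (2, 3711), (3, 2119), (4, 3104), (5, 816), (6, 2756), (7, 408), (8, 3711), (9, 2756), (10, 1463), (11, 303), (12, 2119), (13, 408), (14, 303), (32, 3343), (33, 2278), (34, 955), (36, 2278), (37, 408), (38, 204), (40, 955), (41, 204)])
 (.leaf 1 4 [(1, 29472), (2, 10854), (3, 2808), (4, 9082), (5, 2182), (6, 1472), (7, 1091), (8, 7652), (9, 3002), (10, 950), (11, 690), (12, 922), (13, 1091), (14, 494), (32, 8696), (33, 2954), (34, 878), (36, 926), (37, 1091), (38, 342), (40, 24), (41, 749)]))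
 (.node (.leaf 1 4 [(2, 32852), (3, 1116), (4, 3864), (5, 346), (6, 2066), (7, 173), (8, 10318), (9, 30), (10, 2250), (11, 226), (12, 748), (13, 173), (14, 498), (32, 9724), (33, 484), (34, 1512), (36, 1026), (37, 173), (38, 418), (40, 646), (41, -245)])
 (.leaf 4 4 [(3, 8132), (4, -81), (5, 554), (6, 2759), (7, 277), (8, 50), (9, 4438), (10, 1781), (11, 337), (12, 1180), (13, 277), (14, 184), (32, 43), (33, 4937), (34, 2847), (36, 1290), (37, 277), (38, 32), (40, 694), (41, 245)]))))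
 (.node (.node (.node (.leaf 4 4 [(4, 13885), (5, 780), (6, 1225), (7, 390), (8, 3791), (9, 314), (10, 202), (11, 136), (12, 1294), (13, 390), (14, 252), (32, 2516), (33, 3), (34, -219), (36, 1352), (37, 390), (38, 313), (40, 421), (41, 77)])
 (.leaf 4 4 [(5, 3670), (6, 1800), (7, 1835), (8, 195), (9, 1560), (10, 311), (11, 888), (12, 1064), (13, 1835), (14, 909), (32, 621), (33, 868), (34, -1119), (36, 1421), (37, 1835), (38, 965), (40, -783), (41, 870)]))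
 (.node (.leaf 4 4 [(6, 8717), (8, -561), (9, -876), (10, 2196), (11, -72), (12, 3524), (14, 324), (32, -421), (33, -120), (34, 827), (36, 3280), (38, 365), (40, 1617), (41, -365)])
 (.leaf 4 4 [(8, 15597), (9, 830), (10, 881), (11, 178), (12, 634), (14, 34), (32, 3324), (33, 228), (34, 74), (36, 253), (38, -184), (40, 803), (41, 184)])))
 (.node (.node (.leaf 4 4 [(9, 8001), (10, 2298), (11, 258), (12, 2325), (14, 1), (32, -350), (33, 1432), (34, 579), (36, 1134), (38, -278), (40, 1577), (41, 278)])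
 (.leaf 4 4 [(10, 7350), (11, 267), (12, -164), (14, 265), (32, 2), (33, 595), (34, 2409), (36, 516), (38, 2), (40, 2357), (41, -2)]))
 (.node (.leaf 4 4 [(11, 1540), (12, -102), (14, 607), (32, -371), (33, 225), (34, -1296), (36, -350), (38, -600), (40, -473), (41, 600)])
 (.leaf 4 4 [(12, 6752), (14, 76), (32, 226), (33, 143), (34, -85), (36, 3386), (38, 36), (40, 2073), (41, -36)])))))
 (.node (.node (.node (.node (.leaf 4 4 [(14, 1415), (32, -242), (33, -423), (34, 77), (36, 375), (38, 868), (40, -1222), (41, -868)])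
 (.leaf 4 4 [(32, 13827), (33, 449), (34, 441), (36, 449), (38, -3), (40, 441), (41, 3)]))
 (.node (.leaf 4 4 [(33, 6202), (34, 2064), (36, 943), (38, -105), (40, -403), (41, 105)])
 (.leaf 4 4 [(34, 5378), (36, -826), (38, 172), (40, 1741), (41, -172)])))
 (.node (.node (.leaf 16 4 [(36, 3037), (38, 70), (40, 1203), (41, -70)])
 (.leaf 4 4 [(38, 1061), (40, -1271), (41, -1061)]))
 (.node (.leaf 1024 4 [(40, 297)])
 (.leaf 1584860 4 [(0, 1)]))))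
 (.node (.node (.node (.leaf 1715584 4 [(1, 1)])
 (.leaf 31360 4 [(0, 1), (1, 1)]))
 (.node (.leaf 1612220 4 [(2, 1)])
 (.leaf 23980 4 [(0, 1), (2, 1)])))
 (.node (.node (.leaf 11840 4 [(1, -1), (2, 1)])
 (.leaf 1790172 4 [(3, 1)]))
 (.node (.leaf 29516 4 [(0, 1), (3, 1)])
 (.leaf 14976 4 [(1, -1), (3, 1)]))))))

def cert27 : Cert :=
 (.node (.node (.node (.node (.node (.leaf 29156 4 [(2, -1), (3, 1)])
 (.leaf 1690688 4 [(4, 1)]))
 (.node (.leaf 31360 4 [(0, 1), (4, 1)])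
 (.leaf 19776 4 [(1, -1), (4, 1)])))
 (.node (.node (.leaf 10748 4 [(2, -1), (4, 1)])
 (.leaf 11840 4 [(3, -1), (4, 1)]))
 (.node (.leaf 469586 4 [(5, 2), (7, 1), (13, 1), (37, 1), (41, 1)])
 (.leaf 3344 4 [(0, -2), (5, 2), (7, 1), (13, 1), (37, 1), (41, 1)]))))
 (.node (.node (.node (.leaf 2384 4 [(1, 2), (5, 2), (7, 1), (13, 1), (37, 1), (41, 1)])
 (.leaf 5749 4 [(2, 2), (5, 2), (7, 1), (13, 1), (37, 1), (41, 1)]))
 (.node (.leaf 1790 4 [(3, 2), (5, 2), (7, 1), (13, 1), (37, 1), (41, 1)])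
 (.leaf 5467 4 [(4, 2), (5, 2), (7, 1), (13, 1), (37, 1), (41, 1)])))
 (.node (.node (.leaf 1811840 4 [(6, 1)])
 (.leaf 6224 4 [(0, 1), (6, 1)]))
 (.node (.leaf 6656 4 [(1, -1), (6, 1)])
 (.leaf 21160 4 [(2, 1), (6, 1)])))))
 (.node (.node (.node (.node (.leaf 5976 4 [(3, -1), (6, 1)])
 (.leaf 29416 4 [(4, -1), (6, 1)]))
 (.node (.leaf 201 4 [(5, 2), (6, 2), (7, 1), (13, 1), (37, 1), (41, 1)])
 (.leaf 1762064 4 [(8, 1)])))
 (.node (.node (.leaf 23980 4 [(0, 1), (8, 1)])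
 (.leaf 14336 4 [(1, -1), (8, 1)]))
 (.node (.leaf 5748 4 [(2, -1), (8, 1)])
 (.leaf 22252 4 [(3, -1), (8, 1)]))))
 (.node (.node (.node (.leaf 22908 4 [(4, -1), (8, 1)])
 (.leaf 1301 4 [(5, 2), (7, 1), (8, 2), (13, 1), (37, 1), (41, 1)]))
 (.node (.leaf 12652 4 [(6, -1), (8, 1)])
 (.leaf 1793660 4 [(9, 1)])))
 (.node (.node (.leaf 6224 4 [(0, 1), (9, 1)])
 (.leaf 10048 4 [(1, -1), (9, 1)]))
 (.node (.leaf 30436 4 [(2, -1), (9, 1)])
 (.leaf 21448 4 [(3, -1), (9, 1)]))))))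

def cert28 : Cert :=
 (.node (.node (.node (.node (.node (.leaf 5604 4 [(4, -1), (9, 1)])
 (.leaf 2914 4 [(5, 2), (7, 1), (9, 2), (13, 1), (37, 1), (41, 1)]))
 (.node (.leaf 6780 4 [(6, -1), (9, 1)])
 (.leaf 24044 4 [(8, -1), (9, 1)])))
 (.node (.node (.leaf 1804952 4 [(10, 1)])
 (.leaf 41972 4 [(0, -1), (10, 1)]))
 (.node (.leaf 25664 4 [(1, -1), (10, 1)])
 (.leaf 38896 4 [(2, -1), (10, 1)]))))
 (.node (.node (.node (.leaf 13884 4 [(3, -1), (10, 1)])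
 (.leaf 8800 4 [(4, 1), (10, 1)]))
 (.node (.leaf 2042 4 [(5, 2), (7, 1), (10, 2), (13, 1), (37, 1), (41, 1)])
 (.leaf 5560 4 [(6, 1), (10, 1)])))
 (.node (.node (.leaf 6592 4 [(8, 1), (10, 1)])
 (.leaf 1312 4 [(9, 1), (10, 1)]))
 (.node (.leaf 1841484 4 [(11, 1)])
 (.leaf 49004 4 [(0, 1), (11, 1)])))))
 (.node (.node (.node (.node (.leaf 19520 4 [(1, 1), (11, 1)])
 (.leaf 12888 4 [(2, -1), (11, 1)]))
 (.node (.leaf 8740 4 [(3, 1), (11, 1)])
 (.leaf 3936 4 [(4, 1), (11, 1)])))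
 (.node (.node (.leaf 626 4 [(5, -2), (7, -1), (11, 2), (13, -1), (37, -1), (41, -1)])
 (.leaf 15696 4 [(6, 1), (11, 1)]))
 (.node (.leaf 15944 4 [(8, 1), (11, 1)])
 (.leaf 1328 4 [(9, 1), (11, 1)]))))
 (.node (.node (.node (.leaf 8552 4 [(10, 1), (11, 1)])
 (.leaf 1841784 4 [(12, 1)]))
 (.node (.leaf 29516 4 [(0, 1), (12, 1)])
 (.leaf 5312 4 [(1, -1), (12, 1)])))
 (.node (.node (.leaf 25168 4 [(2, 1), (12, 1)])
 (.leaf 1404 4 [(3, 1), (12, 1)]))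
 (.node (.leaf 7916 4 [(4, -1), (12, 1)])
 (.leaf 357 4 [(5, -2), (7, -1), (12, 2), (13, -1), (37, -1), (41, -1)]))))))

def cert29 : Cert :=
 (.node (.node (.node (.node (.node (.leaf 352 4 [(6, -1), (12, 1)])
 (.leaf 4428 4 [(8, 1), (12, 1)]))
 (.node (.leaf 9456 4 [(9, 1), (12, 1)])
 (.leaf 23864 4 [(10, 1), (12, 1)])))
 (.node (.node (.leaf 5976 4 [(11, 1), (12, 1)])
 (.leaf 1854508 4 [(14, 1)]))
 (.node (.leaf 49004 4 [(0, 1), (14, 1)])
 (.leaf 28864 4 [(1, 1), (14, 1)]))))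
 (.node (.node (.node (.leaf 5504 4 [(2, -1), (14, 1)])
 (.leaf 10540 4 [(3, -1), (14, 1)]))
 (.node (.leaf 7956 4 [(4, 1), (14, 1)])
 (.leaf 24 4 [(5, -2), (7, -1), (13, -1), (14, 2), (37, -1), (41, -1)])))
 (.node (.node (.leaf 10636 4 [(6, 1), (14, 1)])
 (.leaf 21188 4 [(8, 1), (14, 1)]))
 (.node (.leaf 4372 4 [(9, 1), (14, 1)])
 (.leaf 3008 4 [(10, 1), (14, 1)])))))
 (.node (.node (.node (.node (.leaf 8 4 [(11, 1), (14, 1)])
 (.leaf 2836 4 [(12, -1), (14, 1)]))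
 (.node (.leaf 1804064 4 [(32, 1)])
 (.leaf 9452 4 [(0, 1), (32, 1)])))
 (.node (.node (.leaf 384 4 [(1, 1), (32, 1)])
 (.leaf 7868 4 [(2, 1), (32, 1)]))
 (.node (.leaf 7388 4 [(3, 1), (32, 1)])
 (.leaf 13580 4 [(4, 1), (32, 1)]))))
 (.node (.node (.node (.leaf 4858 4 [(5, 2), (7, 1), (13, 1), (32, 2), (37, 1), (41, 1)])
 (.leaf 13496 4 [(6, 1), (32, 1)]))
 (.node (.leaf 5036 4 [(8, 1), (32, 1)])
 (.leaf 6536 4 [(9, -1), (32, 1)])))
 (.node (.node (.leaf 852 4 [(10, -1), (32, 1)])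
 (.leaf 3088 4 [(11, 1), (32, 1)]))
 (.node (.leaf 22316 4 [(12, 1), (32, 1)])
 (.leaf 7452 4 [(14, 1), (32, 1)]))))))

def cert30 : Cert :=
 (.node (.node (.node (.node (.node (.leaf 1822616 4 [(33, 1)])
 (.leaf 50040 4 [(0, 1), (33, 1)]))
 (.node (.leaf 576 4 [(1, -1), (33, 1)])
 (.leaf 11212 4 [(2, 1), (33, 1)])))
 (.node (.node (.leaf 9640 4 [(3, 1), (33, 1)])
 (.leaf 25444 4 [(4, 1), (33, 1)]))
 (.node (.leaf 2065 4 [(5, 2), (7, 1), (13, 1), (33, 2), (37, 1), (41, 1)])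
 (.leaf 6032 4 [(6, 1), (33, 1)]))))
 (.node (.node (.node (.leaf 21604 4 [(8, -1), (33, 1)])
 (.leaf 364 4 [(9, -1), (33, 1)]))
 (.node (.leaf 1184 4 [(10, 1), (33, 1)])
 (.leaf 5476 4 [(11, 1), (33, 1)])))
 (.node (.node (.leaf 21076 4 [(12, 1), (33, 1)])
 (.leaf 16 4 [(14, 1), (33, 1)]))
 (.node (.leaf 14596 4 [(32, 1), (33, 1)])
 (.leaf 1808112 4 [(34, 1)])))))
 (.node (.node (.node (.node (.leaf 17756 4 [(0, 1), (34, 1)])
 (.leaf 15040 4 [(1, 1), (34, 1)]))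
 (.node (.leaf 22264 4 [(2, 1), (34, 1)])
 (.leaf 2988 4 [(3, 1), (34, 1)])))
 (.node (.node (.leaf 5044 4 [(4, -1), (34, 1)])
 (.leaf 575 4 [(5, 2), (7, 1), (13, 1), (34, 2), (37, 1), (41, 1)]))
 (.node (.leaf 9268 4 [(6, -1), (34, 1)])
 (.leaf 19704 4 [(8, 1), (34, 1)]))))
 (.node (.node (.node (.leaf 17800 4 [(9, -1), (34, 1)])
 (.leaf 12080 4 [(10, -1), (34, 1)]))
 (.node (.leaf 3856 4 [(11, 1), (34, 1)])
 (.leaf 2164 4 [(12, -1), (34, 1)])))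
 (.node (.node (.leaf 2552 4 [(14, -1), (34, 1)])
 (.leaf 2204 4 [(32, -1), (34, 1)]))
 (.node (.leaf 1076 4 [(33, -1), (34, 1)])
 (.leaf 1811252 4 [(36, 1)]))))))

def cert31 : Cert :=
 (.node (.node (.node (.node (.node (.leaf 50040 4 [(0, 1), (36, 1)])
 (.leaf 192 4 [(1, -1), (36, 1)]))
 (.node (.leaf 23036 4 [(2, 1), (36, 1)])
 (.leaf 2960 4 [(3, -1), (36, 1)])))
 (.node (.node (.leaf 13196 4 [(4, 1), (36, 1)])
 (.leaf 164 4 [(5, 2), (7, 1), (13, 1), (36, 2), (37, 1), (41, 1)]))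
 (.node (.leaf 8676 4 [(6, 1), (36, 1)])
 (.leaf 10324 4 [(8, 1), (36, 1)]))))
 (.node (.node (.node (.leaf 3896 4 [(9, 1), (36, 1)])
 (.leaf 19704 4 [(10, 1), (36, 1)]))
 (.node (.leaf 7048 4 [(11, 1), (36, 1)])
 (.leaf 3524 4 [(12, 1), (36, 1)])))
 (.node (.node (.leaf 2912 4 [(14, 1), (36, 1)])
 (.leaf 21096 4 [(32, 1), (36, 1)]))
 (.node (.leaf 1644 4 [(33, 1), (36, 1)])
 (.leaf 11360 4 [(34, -1), (36, 1)])))))
 (.node (.node (.node (.node (.leaf 1833096 4 [(38, 1), (41, -1)])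
 (.leaf 3344 4 [(0, -1), (38, 1), (41, -1)]))
 (.node (.leaf 29376 4 [(1, -1), (38, 1), (41, -1)])
 (.leaf 25148 4 [(2, -1), (38, 1), (41, -1)])))
 (.node (.node (.leaf 2520 4 [(3, -1), (38, 1), (41, -1)])
 (.leaf 13824 4 [(4, 1), (38, 1), (41, -1)]))
 (.node (.leaf 1704 4 [(5, 2), (7, 1), (13, 1), (37, 1), (38, 2), (41, -1)])
 (.leaf 11756 4 [(6, -1), (38, 1), (41, -1)]))))
 (.node (.node (.node (.leaf 19336 4 [(8, -1), (38, 1), (41, -1)])
 (.leaf 8248 4 [(9, -1), (38, 1), (41, -1)]))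
 (.node (.leaf 7404 4 [(10, -1), (38, 1), (41, -1)])
 (.leaf 1896 4 [(11, -1), (38, 1), (41, -1)])))
 (.node (.node (.leaf 9716 4 [(12, -1), (38, 1), (41, -1)])
 (.leaf 404 4 [(14, 1), (38, 1), (41, -1)]))
 (.node (.leaf 18876 4 [(32, 1), (38, 1), (41, -1)])
 (.leaf 4388 4 [(33, -1), (38, 1), (41, -1)]))))))

def cert32 : Cert :=
 (.node (.node (.node (.node (.node (.leaf 9932 4 [(34, -1), (38, 1), (41, -1)])
 (.leaf 4212 4 [(36, -1), (38, 1), (41, -1)]))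
 (.node (.leaf 1815884 4 [(40, 1)])
 (.leaf 17756 4 [(0, 1), (40, 1)])))
 (.node (.node (.leaf 18304 4 [(1, 1), (40, 1)])
 (.leaf 7324 4 [(2, -1), (40, 1)]))
 (.node (.leaf 60 4 [(3, -1), (40, 1)])
 (.leaf 19860 4 [(4, 1), (40, 1)]))))
 (.node (.node (.node (.leaf 1783 4 [(5, 2), (7, 1), (13, 1), (37, 1), (40, 2), (41, 1)])
 (.leaf 11980 4 [(6, -1), (40, 1)]))
 (.node (.leaf 5896 4 [(8, -1), (40, 1)])
 (.leaf 7896 4 [(9, 1), (40, 1)])))
 (.node (.node (.leaf 2584 4 [(10, -1), (40, 1)])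
 (.leaf 8140 4 [(11, 1), (40, 1)]))
 (.node (.leaf 5240 4 [(12, 1), (40, 1)])
 (.leaf 288 4 [(14, 1), (40, 1)])))))
 (.node (.node (.node (.node (.leaf 11844 4 [(32, -1), (40, 1)])
 (.leaf 13460 4 [(33, 1), (40, 1)]))
 (.node (.leaf 24120 4 [(34, -1), (40, 1)])
 (.leaf 10212 4 [(36, 1), (40, 1)])))
 (.node (.node (.leaf 7788 4 [(38, -1), (40, 1), (41, 1)])
 (.leaf 4 5 [(0, 26347), (1, 3711), (2, 3104), (3, 2119), (4, 3711), (5, 1463), (6, 2756), (7, 303), (8, 3104), (9, 2756), (10, 816), (11, 408), (12, 2119), (13, 303), (14, 408), (16, 3343), (17, 955), (18, 2278), (20, 955), (22, 204), (24, 2278), (25, 204), (26, 408)]))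
 (.node (.leaf 1 5 [(1, 10854), (2, 29472), (3, 2808), (4, 7652), (5, 950), (6, 3002), (7, 690), (8, 9082), (9, 1472), (10, 2182), (11, 1091), (12, 922), (13, 494), (14, 1091), (16, 8696), (17, 878), (18, 2954), (20, 24), (22, 749), (24, 926), (25, 342), (26, 1091)])
 (.leaf 1 5 [(1, 32852), (3, 1116), (4, 10318), (5, 2250), (6, 30), (7, 226), (8, 3864), (9, 2066), (10, 346), (11, 173), (12, 748), (13, 498), (14, 173), (16, 9724), (17, 1512), (18, 484), (20, 646), (22, -245), (24, 1026), (25, 418), (26, 173)]))))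
 (.node (.node (.node (.leaf 4 5 [(3, 8132), (4, 50), (5, 1781), (6, 4438), (7, 337), (8, -81), (9, 2759), (10, 554), (11, 277), (12, 1180), (13, 184), (14, 277), (16, 43), (17, 2847), (18, 4937), (20, 694), (22, 245), (24, 1290), (25, 32), (26, 277)])
 (.leaf 4 5 [(4, 3791), (5, 202), (6, 314), (7, 136), (8, 13885), (9, 1225), (10, 780), (11, 390), (12, 1294), (13, 252), (14, 390), (16, 2516), (17, -219), (18, 3), (20, 421), (22, 77), (24, 1352), (25, 313), (26, 390)]))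
 (.node (.leaf 4 5 [(4, 195), (5, 311), (6, 1560), (7, 888), (9, 1800), (10, 3670), (11, 1835), (12, 1064), (13, 909), (14, 1835), (16, 621), (17, -1119), (18, 868), (20, -783), (22, 870), (24, 1421), (25, 965), (26, 1835)])
 (.leaf 4 5 [(4, -561), (5, 2196), (6, -876), (7, -72), (9, 8717), (12, 3524), (13, 324), (16, -421), (17, 827), (18, -120), (20, 1617), (22, -365), (24, 3280), (25, 365)])))
 (.node (.node (.leaf 4 5 [(4, 15597), (5, 881), (6, 830), (7, 178), (12, 634), (13, 34), (16, 3324), (17, 74), (18, 228), (20, 803), (22, 184), (24, 253), (25, -184)])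
 (.leaf 4 5 [(5, 2298), (6, 8001), (7, 258), (12, 2325), (13, 1), (16, -350), (17, 579), (18, 1432), (20, 1577), (22, 278), (24, 1134), (25, -278)]))
 (.node (.leaf 4 5 [(5, 7350), (7, 267), (12, -164), (13, 265), (16, 2), (17, 2409), (18, 595), (20, 2357), (22, -2), (24, 516), (25, 2)])
 (.leaf 4 5 [(7, 1540), (12, -102), (13, 607), (16, -371), (17, -1296), (18, 225), (20, -473), (22, 600), (24, -350), (25, -600)]))))))

def cert33 : Cert :=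
 (.node (.node (.node (.node (.node (.leaf 4 5 [(12, 6752), (13, 76), (16, 226), (17, -85), (18, 143), (20, 2073), (22, -36), (24, 3386), (25, 36)])
 (.leaf 4 5 [(13, 1415), (16, -242), (17, 77), (18, -423), (20, -1222), (22, -868), (24, 375), (25, 868)]))
 (.node (.leaf 4 5 [(16, 13827), (17, 441), (18, 449), (20, 441), (22, 3), (24, 449), (25, -3)])
 (.leaf 4 5 [(17, 2064), (18, 6202), (20, -403), (22, 105), (24, 943), (25, -105)])))
 (.node (.node (.leaf 4 5 [(17, 5378), (20, 1741), (22, -172), (24, -826), (25, 172)])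
 (.leaf 16 5 [(20, 1203), (22, -70), (24, 3037), (25, 70)]))
 (.node (.leaf 4 5 [(20, -1271), (22, -1061), (25, 1061)])
 (.leaf 1024 5 [(20, 297)]))))
 (.node (.node (.node (.leaf 1584860 5 [(0, 1)])
 (.leaf 1715584 5 [(2, 1)]))
 (.node (.leaf 31360 5 [(0, 1), (2, 1)])
 (.leaf 1612220 5 [(1, 1)])))
 (.node (.node (.leaf 23980 5 [(0, 1), (1, 1)])
 (.leaf 11840 5 [(1, 1), (2, -1)]))
 (.node (.leaf 1790172 5 [(3, 1)])
 (.leaf 29516 5 [(0, 1), (3, 1)])))))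
 (.node (.node (.node (.node (.leaf 14976 5 [(2, -1), (3, 1)])
 (.leaf 29156 5 [(1, -1), (3, 1)]))
 (.node (.leaf 1690688 5 [(8, 1)])
 (.leaf 31360 5 [(0, 1), (8, 1)])))
 (.node (.node (.leaf 19776 5 [(2, -1), (8, 1)])
 (.leaf 10748 5 [(1, -1), (8, 1)]))
 (.node (.leaf 11840 5 [(3, -1), (8, 1)])
 (.leaf 469586 5 [(10, 2), (11, 1), (14, 1), (22, 1), (26, 1)]))))
 (.node (.node (.node (.leaf 3344 5 [(0, -2), (10, 2), (11, 1), (14, 1), (22, 1), (26, 1)])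
 (.leaf 2384 5 [(2, 2), (10, 2), (11, 1), (14, 1), (22, 1), (26, 1)]))
 (.node (.leaf 5749 5 [(1, 2), (10, 2), (11, 1), (14, 1), (22, 1), (26, 1)])
 (.leaf 1790 5 [(3, 2), (10, 2), (11, 1), (14, 1), (22, 1), (26, 1)])))
 (.node (.node (.leaf 5467 5 [(8, 2), (10, 2), (11, 1), (14, 1), (22, 1), (26, 1)])
 (.leaf 1811840 5 [(9, 1)]))
 (.node (.leaf 6224 5 [(0, 1), (9, 1)])
 (.leaf 6656 5 [(2, -1), (9, 1)]))))))

def cert34 : Cert :=
 (.node (.node (.node (.node (.node (.leaf 21160 5 [(1, 1), (9, 1)])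
 (.leaf 5976 5 [(3, -1), (9, 1)]))
 (.node (.leaf 29416 5 [(8, -1), (9, 1)])
 (.leaf 201 5 [(9, 2), (10, 2), (11, 1), (14, 1), (22, 1), (26, 1)])))
 (.node (.node (.leaf 1762064 5 [(4, 1)])
 (.leaf 23980 5 [(0, 1), (4, 1)]))
 (.node (.leaf 14336 5 [(2, -1), (4, 1)])
 (.leaf 5748 5 [(1, -1), (4, 1)]))))
 (.node (.node (.node (.leaf 22252 5 [(3, -1), (4, 1)])
 (.leaf 22908 5 [(4, 1), (8, -1)]))
 (.node (.leaf 1301 5 [(4, 2), (10, 2), (11, 1), (14, 1), (22, 1), (26, 1)])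
 (.leaf 12652 5 [(4, 1), (9, -1)])))
 (.node (.node (.leaf 1793660 5 [(6, 1)])
 (.leaf 6224 5 [(0, 1), (6, 1)]))
 (.node (.leaf 10048 5 [(2, -1), (6, 1)])
 (.leaf 30436 5 [(1, -1), (6, 1)])))))
 (.node (.node (.node (.node (.leaf 21448 5 [(3, -1), (6, 1)])
 (.leaf 5604 5 [(6, 1), (8, -1)]))
 (.node (.leaf 2914 5 [(6, 2), (10, 2), (11, 1), (14, 1), (22, 1), (26, 1)])
 (.leaf 6780 5 [(6, 1), (9, -1)])))
 (.node (.node (.leaf 24044 5 [(4, -1), (6, 1)])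
 (.leaf 1804952 5 [(5, 1)]))
 (.node (.leaf 41972 5 [(0, -1), (5, 1)])
 (.leaf 25664 5 [(2, -1), (5, 1)]))))
 (.node (.node (.node (.leaf 38896 5 [(1, -1), (5, 1)])
 (.leaf 13884 5 [(3, -1), (5, 1)]))
 (.node (.leaf 8800 5 [(5, 1), (8, 1)])
 (.leaf 2042 5 [(5, 2), (10, 2), (11, 1), (14, 1), (22, 1), (26, 1)])))
 (.node (.node (.leaf 5560 5 [(5, 1), (9, 1)])
 (.leaf 6592 5 [(4, 1), (5, 1)]))
 (.node (.leaf 1312 5 [(5, 1), (6, 1)])
 (.leaf 1841484 5 [(7, 1)]))))))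

def cert35 : Cert :=
 (.node (.node (.node (.node (.node (.leaf 49004 5 [(0, 1), (7, 1)])
 (.leaf 19520 5 [(2, 1), (7, 1)]))
 (.node (.leaf 12888 5 [(1, -1), (7, 1)])
 (.leaf 8740 5 [(3, 1), (7, 1)])))
 (.node (.node (.leaf 3936 5 [(7, 1), (8, 1)])
 (.leaf 626 5 [(7, 2), (10, -2), (11, -1), (14, -1), (22, -1), (26, -1)]))
 (.node (.leaf 15696 5 [(7, 1), (9, 1)])
 (.leaf 15944 5 [(4, 1), (7, 1)]))))
 (.node (.node (.node (.leaf 1328 5 [(6, 1), (7, 1)])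
 (.leaf 8552 5 [(5, 1), (7, 1)]))
 (.node (.leaf 1841784 5 [(12, 1)])
 (.leaf 29516 5 [(0, 1), (12, 1)])))
 (.node (.node (.leaf 5312 5 [(2, -1), (12, 1)])
 (.leaf 25168 5 [(1, 1), (12, 1)]))
 (.node (.leaf 1404 5 [(3, 1), (12, 1)])
 (.leaf 7916 5 [(8, -1), (12, 1)])))))
 (.node (.node (.node (.node (.leaf 357 5 [(10, -2), (11, -1), (12, 2), (14, -1), (22, -1), (26, -1)])
 (.leaf 352 5 [(9, -1), (12, 1)]))
 (.node (.leaf 4428 5 [(4, 1), (12, 1)])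
 (.leaf 9456 5 [(6, 1), (12, 1)])))
 (.node (.node (.leaf 23864 5 [(5, 1), (12, 1)])
 (.leaf 5976 5 [(7, 1), (12, 1)]))
 (.node (.leaf 1854508 5 [(13, 1)])
 (.leaf 49004 5 [(0, 1), (13, 1)]))))
 (.node (.node (.node (.leaf 28864 5 [(2, 1), (13, 1)])
 (.leaf 5504 5 [(1, -1), (13, 1)]))
 (.node (.leaf 10540 5 [(3, -1), (13, 1)])
 (.leaf 7956 5 [(8, 1), (13, 1)])))
 (.node (.node (.leaf 24 5 [(10, -2), (11, -1), (13, 2), (14, -1), (22, -1), (26, -1)])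
 (.leaf 10636 5 [(9, 1), (13, 1)]))
 (.node (.leaf 21188 5 [(4, 1), (13, 1)])
 (.leaf 4372 5 [(6, 1), (13, 1)]))))))

def cert36 : Cert :=
 (.node (.node (.node (.node (.node (.leaf 3008 5 [(5, 1), (13, 1)])
 (.leaf 8 5 [(7, 1), (13, 1)]))
 (.node (.leaf 2836 5 [(12, -1), (13, 1)])
 (.leaf 1804064 5 [(16, 1)])))
 (.node (.node (.leaf 9452 5 [(0, 1), (16, 1)])
 (.leaf 384 5 [(2, 1), (16, 1)]))
 (.node (.leaf 7868 5 [(1, 1), (16, 1)])
 (.leaf 7388 5 [(3, 1), (16, 1)]))))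
 (.node (.node (.node (.leaf 13580 5 [(8, 1), (16, 1)])
 (.leaf 4858 5 [(10, 2), (11, 1), (14, 1), (16, 2), (22, 1), (26, 1)]))
 (.node (.leaf 13496 5 [(9, 1), (16, 1)])
 (.leaf 5036 5 [(4, 1), (16, 1)])))
 (.node (.node (.leaf 6536 5 [(6, -1), (16, 1)])
 (.leaf 852 5 [(5, -1), (16, 1)]))
 (.node (.leaf 3088 5 [(7, 1), (16, 1)])
 (.leaf 22316 5 [(12, 1), (16, 1)])))))
 (.node (.node (.node (.node (.leaf 7452 5 [(13, 1), (16, 1)])
 (.leaf 1822616 5 [(18, 1)]))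
 (.node (.leaf 50040 5 [(0, 1), (18, 1)])
 (.leaf 576 5 [(2, -1), (18, 1)])))
 (.node (.node (.leaf 11212 5 [(1, 1), (18, 1)])
 (.leaf 9640 5 [(3, 1), (18, 1)]))
 (.node (.leaf 25444 5 [(8, 1), (18, 1)])
 (.leaf 2065 5 [(10, 2), (11, 1), (14, 1), (18, 2), (22, 1), (26, 1)]))))
 (.node (.node (.node (.leaf 6032 5 [(9, 1), (18, 1)])
 (.leaf 21604 5 [(4, -1), (18, 1)]))
 (.node (.leaf 364 5 [(6, -1), (18, 1)])
 (.leaf 1184 5 [(5, 1), (18, 1)])))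
 (.node (.node (.leaf 5476 5 [(7, 1), (18, 1)])
 (.leaf 21076 5 [(12, 1), (18, 1)]))
 (.node (.leaf 16 5 [(13, 1), (18, 1)])
 (.leaf 14596 5 [(16, 1), (18, 1)]))))))

def cert37 : Cert :=
 (.node (.node (.node (.node (.node (.leaf 1808112 5 [(17, 1)])
 (.leaf 17756 5 [(0, 1), (17, 1)]))
 (.node (.leaf 15040 5 [(2, 1), (17, 1)])
 (.leaf 22264 5 [(1, 1), (17, 1)])))
 (.node (.node (.leaf 2988 5 [(3, 1), (17, 1)])
 (.leaf 5044 5 [(8, -1), (17, 1)]))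
 (.node (.leaf 575 5 [(10, 2), (11, 1), (14, 1), (17, 2), (22, 1), (26, 1)])
 (.leaf 9268 5 [(9, -1), (17, 1)]))))
 (.node (.node (.node (.leaf 19704 5 [(4, 1), (17, 1)])
 (.leaf 17800 5 [(6, -1), (17, 1)]))
 (.node (.leaf 12080 5 [(5, -1), (17, 1)])
 (.leaf 3856 5 [(7, 1), (17, 1)])))
 (.node (.node (.leaf 2164 5 [(12, -1), (17, 1)])
 (.leaf 2552 5 [(13, -1), (17, 1)]))
 (.node (.leaf 2204 5 [(16, -1), (17, 1)])
 (.leaf 1076 5 [(17, 1), (18, -1)])))))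
 (.node (.node (.node (.node (.leaf 1811252 5 [(24, 1)])
 (.leaf 50040 5 [(0, 1), (24, 1)]))
 (.node (.leaf 192 5 [(2, -1), (24, 1)])
 (.leaf 23036 5 [(1, 1), (24, 1)])))
 (.node (.node (.leaf 2960 5 [(3, -1), (24, 1)])
 (.leaf 13196 5 [(8, 1), (24, 1)]))
 (.node (.leaf 164 5 [(10, 2), (11, 1), (14, 1), (22, 1), (24, 2), (26, 1)])
 (.leaf 8676 5 [(9, 1), (24, 1)]))))
 (.node (.node (.node (.leaf 10324 5 [(4, 1), (24, 1)])
 (.leaf 3896 5 [(6, 1), (24, 1)]))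
 (.node (.leaf 19704 5 [(5, 1), (24, 1)])
 (.leaf 7048 5 [(7, 1), (24, 1)])))
 (.node (.node (.leaf 3524 5 [(12, 1), (24, 1)])
 (.leaf 2912 5 [(13, 1), (24, 1)]))
 (.node (.leaf 21096 5 [(16, 1), (24, 1)])
 (.leaf 1644 5 [(18, 1), (24, 1)]))))))

def cert38 : Cert :=
 (.node (.node (.node (.node (.node (.leaf 11360 5 [(17, -1), (24, 1)])
 (.leaf 1833096 5 [(22, -1), (25, 1)]))
 (.node (.leaf 3344 5 [(0, -1), (22, -1), (25, 1)])
 (.leaf 29376 5 [(2, -1), (22, -1), (25, 1)])))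
 (.node (.node (.leaf 25148 5 [(1, -1), (22, -1), (25, 1)])
 (.leaf 2520 5 [(3, -1), (22, -1), (25, 1)]))
 (.node (.leaf 13824 5 [(8, 1), (22, -1), (25, 1)])
 (.leaf 1704 5 [(10, 2), (11, 1), (14, 1), (22, -1), (25, 2), (26, 1)]))))
 (.node (.node (.node (.leaf 11756 5 [(9, -1), (22, -1), (25, 1)])
 (.leaf 19336 5 [(4, -1), (22, -1), (25, 1)]))
 (.node (.leaf 8248 5 [(6, -1), (22, -1), (25, 1)])
 (.leaf 7404 5 [(5, -1), (22, -1), (25, 1)])))
 (.node (.node (.leaf 1896 5 [(7, -1), (22, -1), (25, 1)])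
 (.leaf 9716 5 [(12, -1), (22, -1), (25, 1)]))
 (.node (.leaf 404 5 [(13, 1), (22, -1), (25, 1)])
 (.leaf 18876 5 [(16, 1), (22, -1), (25, 1)])))))
 (.node (.node (.node (.node (.leaf 4388 5 [(18, -1), (22, -1), (25, 1)])
 (.leaf 9932 5 [(17, -1), (22, -1), (25, 1)]))
 (.node (.leaf 4212 5 [(22, -1), (24, -1), (25, 1)])
 (.leaf 1815884 5 [(20, 1)])))
 (.node (.node (.leaf 17756 5 [(0, 1), (20, 1)])
 (.leaf 18304 5 [(2, 1), (20, 1)]))
 (.node (.leaf 7324 5 [(1, -1), (20, 1)])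
 (.leaf 60 5 [(3, -1), (20, 1)]))))
 (.node (.node (.node (.leaf 19860 5 [(8, 1), (20, 1)])
 (.leaf 1783 5 [(10, 2), (11, 1), (14, 1), (20, 2), (22, 1), (26, 1)]))
 (.node (.leaf 11980 5 [(9, -1), (20, 1)])
 (.leaf 5896 5 [(4, -1), (20, 1)])))
 (.node (.node (.leaf 7896 5 [(6, 1), (20, 1)])
 (.leaf 2584 5 [(5, -1), (20, 1)]))
 (.node (.leaf 8140 5 [(7, 1), (20, 1)])
 (.leaf 5240 5 [(12, 1), (20, 1)]))))))

def cert39 : Cert :=
 (.node (.node (.node (.node (.node (.leaf 288 5 [(13, 1), (20, 1)])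
 (.leaf 11844 5 [(16, -1), (20, 1)]))
 (.node (.leaf 13460 5 [(18, 1), (20, 1)])
 (.leaf 24120 5 [(17, -1), (20, 1)])))
 (.node (.node (.leaf 10212 5 [(20, 1), (24, 1)])
 (.leaf 7788 5 [(20, 1), (22, 1), (25, -1)]))
 (.node (.leaf 4 6 [(0, 27161), (1, -8995), (2, -8995), (3, 4073), (4, -8995), (5, 2683), (6, 4575), (7, -1380), (8, -8995), (9, 4575), (10, 2683), (11, -1380), (12, 4073), (13, -1380), (14, -1380), (16, -8436), (17, 2220), (18, 4092), (19, -1158), (20, 2220), (22, -1361), (24, 4092), (25, -1361), (26, -1284), (28, -1158), (32, -8436), (33, 4092), (34, 2220), (35, -1158), (36, 4092), (37, -1284), (38, -1361), (40, 2220), (41, -1361), (44, -1158), (48, 3552), (49, -1158), (50, -1158), (52, -1158), (56, -1158)])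
 (.leaf 4 6 [(1, 15941), (2, 3705), (3, -4641), (4, 4232), (5, -3896), (6, -2418), (7, 1507), (8, 2456), (9, -4769), (10, -1627), (11, 1195), (12, -2109), (13, 1540), (14, 915), (16, 4547), (17, -3533), (18, -2493), (19, 1122), (20, -1576), (22, 490), (24, -1983), (25, 1534), (26, 854), (28, 588), (32, 2739), (33, -4466), (34, -1740), (35, 1122), (36, -2065), (37, 1364), (38, 1041), (40, -1082), (41, 1140), (44, 588), (48, -2090), (49, 1122), (50, 1122), (52, 588), (56, 588)]))))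
 (.node (.node (.node (.leaf 4 6 [(2, 15505), (3, -3663), (4, 1513), (5, -742), (6, -4326), (7, 868), (8, 3764), (9, -1346), (10, -3617), (11, 1264), (12, -1664), (13, 573), (14, 1365), (16, 1729), (17, -945), (18, -3996), (19, 886), (20, -736), (22, 1055), (24, -1649), (25, 704), (26, 1198), (28, 464), (32, 4021), (33, -1495), (34, -3216), (35, 886), (36, -1545), (37, 552), (38, 1329), (40, -1361), (41, 232), (44, 464), (48, -1650), (49, 886), (50, 886), (52, 464), (56, 464)])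
 (.leaf 4 6 [(3, 8590), (4, -982), (5, 1525), (6, 3225), (7, -1823), (8, -982), (9, 3225), (10, 1525), (11, -1823), (12, 1225), (13, -1016), (14, -1016), (16, -1168), (17, 1885), (18, 4164), (19, -1641), (20, 864), (22, -1189), (24, 1504), (25, -1155), (26, -1226), (28, -339), (32, -1168), (33, 4164), (34, 1885), (35, -1641), (36, 1504), (37, -1226), (38, -1155), (40, 864), (41, -1189), (44, -339), (48, 1854), (49, -1641), (50, -1641), (52, -339), (56, -339)]))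
 (.node (.leaf 4 6 [(4, 15263), (5, -2817), (6, -3674), (7, 987), (8, 2753), (9, -862), (10, -791), (11, 382), (12, -4019), (13, 1025), (14, 793), (16, 3242), (17, -451), (18, -716), (19, 110), (20, -3124), (22, 1286), (24, -1793), (25, -58), (26, 458), (28, 941), (32, 1627), (33, -502), (34, -208), (35, 110), (36, -3842), (37, 913), (38, 696), (40, -1327), (41, 672), (44, 941), (48, -1321), (49, 110), (50, 110), (52, 941), (56, 941)])
 (.leaf 4 6 [(5, 7084), (6, 1915), (7, -1843), (8, -610), (9, 2052), (10, 620), (11, -623), (12, 1589), (13, -2014), (14, -776), (16, 165), (17, 1269), (18, -43), (19, -64), (20, 1523), (22, -169), (24, 627), (25, -173), (26, -397), (28, -352), (32, -159), (33, 625), (34, -107), (35, -64), (36, 1185), (37, -1779), (38, -653), (40, 224), (41, -716), (44, -352), (48, 145), (49, -64), (50, -64), (52, -352), (56, -352)])))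
 (.node (.node (.leaf 4 6 [(6, 8800), (7, -1041), (8, -213), (9, -857), (10, 1463), (11, -259), (12, 2353), (13, -229), (14, -1569), (16, -170), (17, -140), (18, 1630), (19, -198), (20, 745), (22, -1622), (24, 711), (25, 184), (26, -642), (28, -619), (32, -144), (33, -331), (34, 680), (35, -198), (36, 2355), (37, -328), (38, -1489), (40, 564), (41, 278), (44, -619), (48, 749), (49, -198), (50, -198), (52, -619), (56, -619)])
 (.leaf 4 6 [(7, 3310), (8, 533), (9, -344), (10, -617), (11, 804), (12, -535), (13, 1583), (14, 730), (16, -89), (17, 301), (18, 35), (19, 274), (20, -306), (22, 1092), (24, 28), (25, -247), (26, 378), (28, 210), (32, 720), (33, -507), (34, -619), (35, 274), (36, -781), (37, 1726), (38, 736), (40, -496), (41, 499), (44, 210), (48, -551), (49, 274), (50, 274), (52, 210), (56, 210)]))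
 (.node (.leaf 4 6 [(8, 14989), (9, -3500), (10, -2656), (11, 877), (12, -3237), (13, 478), (14, 818), (16, 1069), (17, -90), (18, -360), (19, 76), (20, -694), (22, 379), (24, -3548), (25, 723), (26, 807), (28, 755), (32, 2968), (33, -598), (34, -394), (35, 76), (36, -1011), (37, 160), (38, -260), (40, -2903), (41, 1143), (44, 755), (48, -1066), (49, 76), (50, 76), (52, 755), (56, 755)])
 (.leaf 4 6 [(9, 8749), (10, 1567), (11, -1325), (12, 2549), (13, -1277), (14, -639), (16, -175), (17, 368), (18, -29), (19, -211), (20, 292), (22, 43), (24, 2569), (25, -1600), (26, -690), (28, -670), (32, -97), (33, 1443), (34, 216), (35, -211), (36, 745), (37, -318), (38, 172), (40, 1087), (41, -1470), (44, -670), (48, 800), (49, -211), (50, -211), (52, -670), (56, -670)])))))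
 (.node (.node (.node (.node (.leaf 4 6 [(10, 6715), (11, -1469), (12, 305), (13, -163), (14, -1509), (16, 9), (17, -259), (18, 302), (19, 53), (20, -249), (22, -276), (24, 437), (25, -375), (26, -1515), (28, -13), (32, 314), (33, -409), (34, 1102), (35, 53), (36, -306), (37, 29), (38, 233), (40, 1171), (41, 208), (44, -13), (48, -284), (49, 53), (50, 53), (52, -13), (56, -13)])
 (.leaf 4 6 [(11, 3237), (12, -274), (13, 289), (14, 1434), (16, 670), (17, -586), (18, -499), (19, 221), (20, -228), (22, 237), (24, -808), (25, 844), (26, 1697), (28, 136), (32, -256), (33, 163), (34, 400), (35, 221), (36, 399), (37, -107), (38, -494), (40, -242), (41, 991), (44, 136), (48, -421), (49, 221), (50, 221), (52, 136), (56, 136)]))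
 (.node (.leaf 4 6 [(12, 7640), (13, -884), (14, -884), (16, -833), (17, 190), (18, 420), (19, 64), (20, 1383), (22, -560), (24, 3267), (25, -560), (26, -538), (28, -1311), (32, -833), (33, 420), (34, 190), (35, 64), (36, 3267), (37, -538), (38, -560), (40, 1383), (41, -560), (44, -1311), (48, 1195), (49, 64), (50, 64), (52, -1311), (56, -1311)])
 (.leaf 4 6 [(13, 2934), (14, 312), (16, -160), (17, -361), (18, 438), (19, -35), (20, 471), (22, -946), (24, -39), (25, 1268), (26, -25), (28, 242), (32, 394), (33, -463), (34, -25), (35, -35), (36, -256), (37, 1054), (38, 131), (40, -446), (41, 540), (44, 242), (48, -251), (49, -35), (50, -35), (52, 242), (56, 242)])))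
 (.node (.node (.leaf 4 6 [(14, 2917), (16, 414), (17, 14), (18, -512), (19, -32), (20, -499), (22, 644), (24, -253), (25, -4), (26, 1063), (28, 218), (32, -203), (33, 490), (34, -360), (35, -32), (36, -11), (37, -138), (38, 1261), (40, 522), (41, -1009), (44, 218), (48, -226), (49, -32), (50, -32), (52, 218), (56, 218)])
 (.leaf 4 6 [(16, 13558), (17, -2134), (18, -3076), (19, 599), (20, -2134), (22, 860), (24, -3076), (25, 860), (26, 645), (28, 599), (32, 1234), (33, -304), (34, -523), (35, 599), (36, -304), (37, -373), (38, 301), (40, -523), (41, 301), (44, 599), (48, -2974), (49, 599), (50, 599), (52, 599), (56, 599)]))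
 (.node (.leaf 4 6 [(17, 6128), (18, 1908), (19, -1298), (20, 684), (22, 162), (24, 575), (25, -1654), (26, -447), (28, -332), (32, -727), (33, 1396), (34, 726), (35, -1298), (36, 810), (37, 200), (38, -850), (40, 222), (41, -535), (44, -332), (48, 1857), (49, -1298), (50, -1298), (52, -332), (56, -332)])
 (.leaf 4 6 [(18, 7189), (19, -780), (20, 309), (22, -1013), (24, 1985), (25, -278), (26, -1063), (28, -391), (32, 148), (33, 37), (34, 864), (35, -780), (36, 428), (37, -133), (38, -164), (40, 498), (41, -149), (44, -391), (48, 2652), (49, -780), (50, -780), (52, -391), (56, -391)]))))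
 (.node (.node (.node (.leaf 4 6 [(19, 2703), (20, -336), (22, 547), (24, -427), (25, 1297), (26, 123), (28, -112), (32, 2424), (33, -2924), (34, -2702), (35, 2703), (36, -1377), (37, 928), (38, 1841), (40, -860), (41, 585), (44, -112), (48, -2285), (49, 2703), (50, 2703), (52, -112), (56, -112)])
 (.leaf 4 6 [(20, 6073), (22, -1606), (24, 1736), (25, 436), (26, -340), (28, -1259), (32, -525), (33, 497), (34, -51), (36, 1220), (37, 238), (38, -334), (40, 635), (41, -757), (44, -1259), (48, 1404), (52, -1259), (56, -1259)]))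
 (.node (.leaf 4 6 [(22, 2823), (24, -77), (25, -104), (26, 464), (28, 1264), (32, 396), (33, -194), (34, -468), (36, -159), (37, -491), (38, 235), (40, -1219), (41, 504), (44, 1264), (48, -483), (52, 1264), (56, 1264)])
 (.leaf 4 6 [(24, 6917), (25, -821), (26, -788), (28, -706), (32, 257), (33, 234), (34, 112), (36, -160), (37, -69), (38, 15), (40, 711), (41, -85), (44, -706), (48, 1854), (52, -706), (56, -706)])))
 (.node (.node (.leaf 4 6 [(25, 2555), (26, 501), (28, 644), (32, -315), (33, 1020), (34, -152), (36, -74), (37, -867), (38, -248), (40, -655), (41, 337), (44, 644), (48, 149), (52, 644), (56, 644)])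
 (.leaf 4 6 [(26, 2782), (28, -252), (32, -2275), (33, 621), (34, 1546), (36, 776), (37, -807), (38, -890), (40, 1713), (41, -1009), (44, -252), (48, 534), (52, -252), (56, -252)]))
 (.node (.leaf 4 6 [(28, 469), (32, 13042), (33, -2394), (34, -1360), (36, -2682), (37, 410), (38, 296), (40, -1671), (41, 517), (44, 469), (48, -2180), (52, 469), (56, 469)])
 (.leaf 4 6 [(28, -483), (33, 6833), (34, 731), (36, 1776), (37, -876), (38, 86), (40, 289), (41, -739), (44, -483), (48, 2129), (52, -483), (56, -483)]))))))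

def cert40 : Cert :=
 (.node (.node (.node (.node (.node (.leaf 4 6 [(28, -121), (34, 5313), (36, -170), (37, 51), (38, -812), (40, -55), (41, 842), (44, -121), (48, 126), (52, -121), (56, -121)])
 (.leaf 4 6 [(28, -782), (36, 7031), (37, -935), (38, -655), (40, 1320), (41, -251), (44, -782), (48, 1929), (52, -782), (56, -782)]))
 (.node (.leaf 4 6 [(28, 952), (37, 2475), (38, 274), (40, -486), (41, 768), (44, 952), (48, -319), (52, 952), (56, 952)])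
 (.leaf 4 6 [(28, 206), (38, 2476), (40, 1794), (41, -866), (44, 206), (48, 115), (52, 206), (56, 206)])))
 (.node (.node (.leaf 4 6 [(28, -580), (40, 5193), (41, -892), (44, -580), (48, 327), (52, -580), (56, -580)])
 (.leaf 4 6 [(28, 862), (41, 2492), (44, 862), (48, -209), (52, 862), (56, 862)]))
 (.node (.leaf 16 6 [(28, 717), (44, 717), (48, -456), (52, 717), (56, 717)])
 (.leaf 16 6 [(48, 2559)]))))
 (.node (.node (.node (.leaf 1549116 6 [(1, 1)])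
 (.leaf 20052 6 [(0, -1), (1, 1)]))
 (.node (.leaf 1393768 6 [(2, 1)])
 (.leaf 20052 6 [(0, -1), (2, 1)])))
 (.node (.node (.leaf 53864 6 [(1, 1), (2, 1)])
 (.leaf 1608048 6 [(3, 1)]))
 (.node (.leaf 7940 6 [(0, -1), (3, 1)])
 (.leaf 23808 6 [(1, -1), (3, 1)])))))
 (.node (.node (.node (.node (.leaf 6348 6 [(2, 1), (3, 1)])
 (.leaf 1488612 6 [(4, 1)]))
 (.node (.leaf 20052 6 [(0, -1), (4, 1)])
 (.leaf 4668 6 [(1, 1), (4, 1)])))
 (.node (.node (.leaf 53208 6 [(2, 1), (4, 1)])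
 (.leaf 1016 6 [(3, 1), (4, 1)]))
 (.node (.leaf 1739716 6 [(5, 1)])
 (.leaf 12276 6 [(0, 1), (5, 1)]))))
 (.node (.node (.node (.leaf 22620 6 [(1, -1), (5, 1)])
 (.leaf 13884 6 [(2, 1), (5, 1)]))
 (.node (.leaf 1068 6 [(3, -1), (5, 1)])
 (.leaf 31408 6 [(4, -1), (5, 1)])))
 (.node (.node (.leaf 1477444 6 [(6, 1)])
 (.leaf 21276 6 [(0, -1), (6, 1)]))
 (.node (.leaf 22748 6 [(1, 1), (6, 1)])
 (.leaf 28308 6 [(2, 1), (6, 1)]))))))

def cert41 : Cert :=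
 (.node (.node (.node (.node (.node (.leaf 17924 6 [(3, -1), (6, 1)])
 (.leaf 19268 6 [(4, -1), (6, 1)]))
 (.node (.leaf 2928 6 [(5, 1), (6, 1)])
 (.leaf 1779664 6 [(7, 1)])))
 (.node (.node (.leaf 17648 6 [(0, -1), (7, 1)])
 (.leaf 7316 6 [(1, 1), (7, 1)]))
 (.node (.leaf 9620 6 [(2, 1), (7, 1)])
 (.leaf 13996 6 [(3, -1), (7, 1)]))))
 (.node (.node (.node (.leaf 14116 6 [(4, 1), (7, 1)])
 (.leaf 6824 6 [(5, -1), (7, 1)]))
 (.node (.leaf 23104 6 [(6, -1), (7, 1)])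
 (.leaf 1634412 6 [(8, 1)])))
 (.node (.node (.leaf 20052 6 [(0, -1), (8, 1)])
 (.leaf 3324 6 [(1, 1), (8, 1)]))
 (.node (.leaf 12716 6 [(2, 1), (8, 1)])
 (.leaf 13004 6 [(3, 1), (8, 1)])))))
 (.node (.node (.node (.node (.leaf 11136 6 [(4, 1), (8, 1)])
 (.leaf 1856 6 [(5, -1), (8, 1)]))
 (.node (.leaf 24172 6 [(6, 1), (8, 1)])
 (.leaf 7192 6 [(7, 1), (8, 1)])))
 (.node (.node (.leaf 1654944 6 [(9, 1)])
 (.leaf 21276 6 [(0, -1), (9, 1)]))
 (.node (.leaf 14456 6 [(1, -1), (9, 1)])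
 (.leaf 3104 6 [(2, -1), (9, 1)]))))
 (.node (.node (.node (.leaf 1072 6 [(3, 1), (9, 1)])
 (.leaf 11644 6 [(4, 1), (9, 1)]))
 (.node (.leaf 13168 6 [(5, 1), (9, 1)])
 (.leaf 23840 6 [(6, -1), (9, 1)])))
 (.node (.node (.leaf 3796 6 [(7, -1), (9, 1)])
 (.leaf 27328 6 [(8, 1), (9, 1)]))
 (.node (.leaf 1731544 6 [(10, 1)])
 (.leaf 12276 6 [(0, 1), (10, 1)]))))))

def cert42 : Cert :=
 (.node (.node (.node (.node (.node (.leaf 352 6 [(1, 1), (10, 1)])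
 (.leaf 8684 6 [(2, -1), (10, 1)]))
 (.node (.leaf 3852 6 [(3, -1), (10, 1)])
 (.leaf 29404 6 [(4, -1), (10, 1)])))
 (.node (.node (.leaf 4892 6 [(5, -1), (10, 1)])
 (.leaf 9568 6 [(6, -1), (10, 1)]))
 (.node (.leaf 3832 6 [(7, -1), (10, 1)])
 (.leaf 12584 6 [(8, 1), (10, 1)]))))
 (.node (.node (.node (.leaf 3212 6 [(9, 1), (10, 1)])
 (.leaf 1755964 6 [(11, 1)]))
 (.node (.leaf 17648 6 [(0, -1), (11, 1)])
 (.leaf 21260 6 [(1, -1), (11, 1)])))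
 (.node (.node (.leaf 3516 6 [(2, -1), (11, 1)])
 (.leaf 3772 6 [(3, -1), (11, 1)]))
 (.node (.leaf 10368 6 [(4, -1), (11, 1)])
 (.leaf 8004 6 [(5, 1), (11, 1)])))))
 (.node (.node (.node (.node (.leaf 8024 6 [(6, -1), (11, 1)])
 (.leaf 4336 6 [(7, 1), (11, 1)]))
 (.node (.leaf 22696 6 [(8, 1), (11, 1)])
 (.leaf 13856 6 [(9, 1), (11, 1)])))
 (.node (.node (.leaf 14972 6 [(10, -1), (11, 1)])
 (.leaf 1698252 6 [(12, 1)]))
 (.node (.leaf 7940 6 [(0, -1), (12, 1)])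
 (.leaf 6448 6 [(1, 1), (12, 1)]))))
 (.node (.node (.node (.leaf 15168 6 [(2, -1), (12, 1)])
 (.leaf 14256 6 [(3, -1), (12, 1)]))
 (.node (.leaf 1064 6 [(4, -1), (12, 1)])
 (.leaf 5156 6 [(5, 1), (12, 1)])))
 (.node (.node (.leaf 10212 6 [(6, 1), (12, 1)])
 (.leaf 3308 6 [(7, -1), (12, 1)]))
 (.node (.leaf 11396 6 [(8, -1), (12, 1)])
 (.leaf 20284 6 [(9, -1), (12, 1)]))))))

def cert43 : Cert :=
 (.node (.node (.node (.node (.node (.leaf 16144 6 [(10, 1), (12, 1)])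
 (.leaf 2140 6 [(11, 1), (12, 1)]))
 (.node (.leaf 1814452 6 [(13, 1)])
 (.leaf 17648 6 [(0, -1), (13, 1)])))
 (.node (.node (.leaf 256 6 [(1, 1), (13, 1)])
 (.leaf 9332 6 [(2, -1), (13, 1)]))
 (.node (.leaf 5036 6 [(3, 1), (13, 1)])
 (.leaf 6400 6 [(4, -1), (13, 1)]))))
 (.node (.node (.node (.leaf 17172 6 [(5, -1), (13, 1)])
 (.leaf 10040 6 [(6, 1), (13, 1)]))
 (.node (.leaf 3632 6 [(7, 1), (13, 1)])
 (.leaf 668 6 [(8, -1), (13, 1)])))
 (.node (.node (.leaf 7760 6 [(9, 1), (13, 1)])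
 (.leaf 11112 6 [(10, 1), (13, 1)]))
 (.node (.leaf 10856 6 [(11, -1), (13, 1)])
 (.leaf 500 6 [(12, -1), (13, 1)])))))
 (.node (.node (.node (.node (.leaf 1779212 6 [(14, 1)])
 (.leaf 17648 6 [(0, -1), (14, 1)]))
 (.node (.leaf 6868 6 [(1, 1), (14, 1)])
 (.leaf 20784 6 [(2, -1), (14, 1)])))
 (.node (.node (.leaf 6920 6 [(3, 1), (14, 1)])
 (.leaf 21536 6 [(4, 1), (14, 1)]))
 (.node (.leaf 11892 6 [(5, -1), (14, 1)])
 (.leaf 2216 6 [(6, 1), (14, 1)]))))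
 (.node (.node (.node (.leaf 524 6 [(7, 1), (14, 1)])
 (.leaf 5304 6 [(8, 1), (14, 1)]))
 (.node (.leaf 3708 6 [(9, -1), (14, 1)])
 (.leaf 12424 6 [(10, 1), (14, 1)])))
 (.node (.node (.leaf 1768 6 [(11, -1), (14, 1)])
 (.leaf 18836 6 [(12, -1), (14, 1)]))
 (.node (.leaf 668 6 [(13, 1), (14, 1)])
 (.leaf 1627200 6 [(16, 1)]))))))

def cert44 : Cert :=
 (.node (.node (.node (.node (.node (.leaf 65360 6 [(0, 1), (16, 1)])
 (.leaf 31828 6 [(1, 1), (16, 1)]))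
 (.node (.leaf 4256 6 [(2, 1), (16, 1)])
 (.leaf 5784 6 [(3, 1), (16, 1)])))
 (.node (.node (.leaf 12724 6 [(4, 1), (16, 1)])
 (.leaf 13408 6 [(5, -1), (16, 1)]))
 (.node (.leaf 9300 6 [(6, 1), (16, 1)])
 (.leaf 5984 6 [(7, 1), (16, 1)]))))
 (.node (.node (.node (.leaf 12440 6 [(8, -1), (16, 1)])
 (.leaf 4248 6 [(9, 1), (16, 1)]))
 (.node (.leaf 9300 6 [(10, -1), (16, 1)])
 (.leaf 7844 6 [(11, -1), (16, 1)])))
 (.node (.node (.leaf 4168 6 [(12, 1), (16, 1)])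
 (.leaf 480 6 [(13, -1), (16, 1)]))
 (.node (.leaf 176 6 [(14, 1), (16, 1)])
 (.leaf 1734276 6 [(17, 1)])))))
 (.node (.node (.node (.node (.leaf 17200 6 [(0, -1), (17, 1)])
 (.leaf 18196 6 [(1, 1), (17, 1)]))
 (.node (.leaf 2728 6 [(2, 1), (17, 1)])
 (.leaf 14520 6 [(3, -1), (17, 1)])))
 (.node (.node (.leaf 14976 6 [(4, -1), (17, 1)])
 (.leaf 9096 6 [(5, -1), (17, 1)]))
 (.node (.leaf 8696 6 [(6, -1), (17, 1)])
 (.leaf 2192 6 [(7, -1), (17, 1)]))))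
 (.node (.node (.node (.leaf 16000 6 [(8, 1), (17, 1)])
 (.leaf 23304 6 [(9, -1), (17, 1)]))
 (.node (.leaf 3376 6 [(10, -1), (17, 1)])
 (.leaf 15408 6 [(11, 1), (17, 1)])))
 (.node (.node (.leaf 2784 6 [(12, 1), (17, 1)])
 (.leaf 9464 6 [(13, 1), (17, 1)]))
 (.node (.leaf 3472 6 [(14, -1), (17, 1)])
 (.leaf 5244 6 [(16, -1), (17, 1)]))))))

def cert45 : Cert :=
 (.node (.node (.node (.node (.node (.leaf 1675844 6 [(18, 1)])
 (.leaf 24976 6 [(0, 1), (18, 1)]))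
 (.node (.leaf 9620 6 [(1, 1), (18, 1)])
 (.leaf 4972 6 [(2, -1), (18, 1)])))
 (.node (.node (.leaf 1452 6 [(3, 1), (18, 1)])
 (.leaf 6544 6 [(4, 1), (18, 1)]))
 (.node (.leaf 1472 6 [(5, 1), (18, 1)])
 (.leaf 20260 6 [(6, -1), (18, 1)]))))
 (.node (.node (.node (.leaf 14488 6 [(7, -1), (18, 1)])
 (.leaf 1884 6 [(8, -1), (18, 1)]))
 (.node (.leaf 5592 6 [(9, 1), (18, 1)])
 (.leaf 3516 6 [(10, 1), (18, 1)])))
 (.node (.node (.leaf 13440 6 [(11, -1), (18, 1)])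
 (.leaf 12200 6 [(12, -1), (18, 1)]))
 (.node (.leaf 9388 6 [(13, 1), (18, 1)])
 (.leaf 736 6 [(14, -1), (18, 1)])))))
 (.node (.node (.node (.node (.leaf 168 6 [(16, -1), (18, 1)])
 (.leaf 10188 6 [(17, -1), (18, 1)]))
 (.node (.leaf 1728344 6 [(19, 1), (35, 1), (49, 1), (50, 1)])
 (.leaf 19368 6 [(0, -1), (19, 1), (35, 1), (49, 1), (50, 1)])))
 (.node (.node (.leaf 38160 6 [(1, 1), (19, 1), (35, 1), (49, 1), (50, 1)])
 (.leaf 3608 6 [(2, 1), (19, 1), (35, 1), (49, 1), (50, 1)]))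
 (.node (.leaf 9472 6 [(3, 1), (19, 1), (35, 1), (49, 1), (50, 1)])
 (.leaf 14208 6 [(4, -1), (19, 1), (35, 1), (49, 1), (50, 1)]))))
 (.node (.node (.node (.leaf 7420 6 [(5, -1), (19, 1), (35, 1), (49, 1), (50, 1)])
 (.leaf 25404 6 [(6, 1), (19, 1), (35, 1), (49, 1), (50, 1)]))
 (.node (.leaf 1828 6 [(7, -1), (19, 1), (35, 1), (49, 1), (50, 1)])
 (.leaf 17656 6 [(8, 1), (19, 1), (35, 1), (49, 1), (50, 1)])))
 (.node (.node (.leaf 9800 6 [(9, -1), (19, 1), (35, 1), (49, 1), (50, 1)])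
 (.leaf 6596 6 [(10, -1), (19, 1), (35, 1), (49, 1), (50, 1)]))
 (.node (.leaf 4456 6 [(11, 1), (19, 1), (35, 1), (49, 1), (50, 1)])
 (.leaf 17148 6 [(12, 1), (19, 1), (35, 1), (49, 1), (50, 1)]))))))

def cert46 : Cert :=
 (.node (.node (.node (.node (.node (.leaf 3180 6 [(13, -1), (19, 1), (35, 1), (49, 1), (50, 1)])
 (.leaf 2168 6 [(14, 1), (19, 1), (35, 1), (49, 1), (50, 1)]))
 (.node (.leaf 2816 6 [(16, -1), (19, 1), (35, 1), (49, 1), (50, 1)])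
 (.leaf 4748 6 [(17, -1), (19, 1), (35, 1), (49, 1), (50, 1)])))
 (.node (.node (.leaf 3904 6 [(18, 1), (19, 1), (35, 1), (49, 1), (50, 1)])
 (.leaf 1714912 6 [(20, 1)]))
 (.node (.leaf 17200 6 [(0, -1), (20, 1)])
 (.leaf 12592 6 [(1, 1), (20, 1)]))))
 (.node (.node (.node (.leaf 19152 6 [(2, -1), (20, 1)])
 (.leaf 10160 6 [(3, 1), (20, 1)]))
 (.node (.leaf 6976 6 [(4, -1), (20, 1)])
 (.leaf 20496 6 [(5, 1), (20, 1)])))
 (.node (.node (.leaf 26956 6 [(6, 1), (20, 1)])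
 (.leaf 16760 6 [(7, -1), (20, 1)]))
 (.node (.leaf 6604 6 [(8, 1), (20, 1)])
 (.leaf 5332 6 [(9, 1), (20, 1)])))))
 (.node (.node (.node (.node (.leaf 11176 6 [(10, 1), (20, 1)])
 (.leaf 7996 6 [(11, -1), (20, 1)]))
 (.node (.leaf 17156 6 [(12, 1), (20, 1)])
 (.leaf 6608 6 [(13, -1), (20, 1)])))
 (.node (.node (.leaf 15204 6 [(14, -1), (20, 1)])
 (.leaf 6396 6 [(16, -1), (20, 1)]))
 (.node (.leaf 3100 6 [(17, 1), (20, 1)])
 (.leaf 2880 6 [(18, 1), (20, 1)]))))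
 (.node (.node (.node (.leaf 3720 6 [(19, 1), (20, 1), (35, 1), (49, 1), (50, 1)])
 (.leaf 1600568 6 [(22, 1)]))
 (.node (.leaf 15268 6 [(0, 1), (22, 1)])
 (.leaf 2924 6 [(1, 1), (22, 1)])))
 (.node (.node (.leaf 26864 6 [(2, -1), (22, 1)])
 (.leaf 25576 6 [(3, 1), (22, 1)]))
 (.node (.leaf 30984 6 [(4, -1), (22, 1)])
 (.leaf 1472 6 [(5, 1), (22, 1)]))))))

def cert47 : Cert :=
 (.node (.node (.node (.node (.node (.leaf 18212 6 [(6, 1), (22, 1)])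
 (.leaf 3024 6 [(7, -1), (22, 1)]))
 (.node (.leaf 856 6 [(8, -1), (22, 1)])
 (.leaf 19180 6 [(9, 1), (22, 1)])))
 (.node (.node (.leaf 272 6 [(10, -1), (22, 1)])
 (.leaf 5244 6 [(11, -1), (22, 1)]))
 (.node (.leaf 21916 6 [(12, 1), (22, 1)])
 (.leaf 10932 6 [(13, -1), (22, 1)]))))
 (.node (.node (.node (.leaf 8240 6 [(14, -1), (22, 1)])
 (.leaf 1776 6 [(16, 1), (22, 1)]))
 (.node (.leaf 2700 6 [(17, 1), (22, 1)])
 (.leaf 21208 6 [(18, 1), (22, 1)])))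
 (.node (.node (.leaf 13664 6 [(19, -1), (22, 1), (35, -1), (49, -1), (50, -1)])
 (.leaf 2672 6 [(20, 1), (22, 1)]))
 (.node (.leaf 1669104 6 [(24, 1)])
 (.leaf 24976 6 [(0, 1), (24, 1)])))))
 (.node (.node (.node (.node (.leaf 4164 6 [(1, -1), (24, 1)])
 (.leaf 32016 6 [(2, -1), (24, 1)]))
 (.node (.leaf 11368 6 [(3, -1), (24, 1)])
 (.leaf 32112 6 [(4, -1), (24, 1)])))
 (.node (.node (.leaf 20452 6 [(5, 1), (24, 1)])
 (.leaf 1844 6 [(6, 1), (24, 1)]))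
 (.node (.leaf 11248 6 [(7, -1), (24, 1)])
 (.leaf 22744 6 [(8, -1), (24, 1)]))))
 (.node (.node (.node (.leaf 13716 6 [(9, -1), (24, 1)])
 (.leaf 16800 6 [(10, 1), (24, 1)]))
 (.node (.leaf 8708 6 [(11, -1), (24, 1)])
 (.leaf 744 6 [(12, -1), (24, 1)])))
 (.node (.node (.leaf 4468 6 [(13, 1), (24, 1)])
 (.leaf 17156 6 [(14, -1), (24, 1)]))
 (.node (.leaf 12728 6 [(16, -1), (24, 1)])
 (.leaf 312 6 [(17, 1), (24, 1)]))))))

def cert48 : Cert :=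
 (.node (.node (.node (.node (.node (.leaf 13008 6 [(18, 1), (24, 1)])
 (.leaf 5680 6 [(19, 1), (24, 1), (35, 1), (49, 1), (50, 1)]))
 (.node (.leaf 5380 6 [(20, 1), (24, 1)])
 (.leaf 13768 6 [(22, 1), (24, 1)])))
 (.node (.node (.leaf 1670868 6 [(25, 1)])
 (.leaf 15268 6 [(0, 1), (25, 1)]))
 (.node (.leaf 17884 6 [(1, 1), (25, 1)])
 (.leaf 21380 6 [(2, -1), (25, 1)]))))
 (.node (.node (.node (.leaf 11900 6 [(3, -1), (25, 1)])
 (.leaf 23300 6 [(4, 1), (25, 1)]))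
 (.node (.leaf 8848 6 [(5, -1), (25, 1)])
 (.leaf 3268 6 [(6, 1), (25, 1)])))
 (.node (.node (.leaf 5400 6 [(7, 1), (25, 1)])
 (.leaf 11516 6 [(8, 1), (25, 1)]))
 (.node (.leaf 23984 6 [(9, -1), (25, 1)])
 (.leaf 4672 6 [(10, 1), (25, 1)])))))
 (.node (.node (.node (.node (.leaf 688 6 [(11, -1), (25, 1)])
 (.leaf 18616 6 [(12, -1), (25, 1)]))
 (.node (.leaf 1912 6 [(13, 1), (25, 1)])
 (.leaf 6644 6 [(14, 1), (25, 1)])))
 (.node (.node (.leaf 28704 6 [(16, 1), (25, 1)])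
 (.leaf 9424 6 [(17, -1), (25, 1)]))
 (.node (.leaf 8224 6 [(18, -1), (25, 1)])
 (.leaf 9108 6 [(19, 1), (25, 1), (35, 1), (49, 1), (50, 1)]))))
 (.node (.node (.node (.leaf 17944 6 [(20, -1), (25, 1)])
 (.leaf 5308 6 [(22, -1), (25, 1)]))
 (.node (.leaf 14328 6 [(24, -1), (25, 1)])
 (.leaf 1717956 6 [(26, 1)])))
 (.node (.node (.leaf 38288 6 [(0, 1), (26, 1)])
 (.leaf 10520 6 [(1, 1), (26, 1)]))
 (.node (.leaf 14592 6 [(2, 1), (26, 1)])
 (.leaf 17952 6 [(3, -1), (26, 1)]))))))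

def cert49 : Cert :=
 (.node (.node (.node (.node (.node (.leaf 19376 6 [(4, -1), (26, 1)])
 (.leaf 7072 6 [(5, 1), (26, 1)]))
 (.node (.leaf 9572 6 [(6, 1), (26, 1)])
 (.leaf 820 6 [(7, 1), (26, 1)])))
 (.node (.node (.leaf 21228 6 [(8, -1), (26, 1)])
 (.leaf 7408 6 [(9, -1), (26, 1)]))
 (.node (.leaf 6332 6 [(10, 1), (26, 1)])
 (.leaf 9224 6 [(11, 1), (26, 1)]))))
 (.node (.node (.node (.leaf 6900 6 [(12, 1), (26, 1)])
 (.leaf 11448 6 [(13, -1), (26, 1)]))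
 (.node (.leaf 2944 6 [(14, -1), (26, 1)])
 (.leaf 980 6 [(16, 1), (26, 1)])))
 (.node (.node (.leaf 8668 6 [(17, -1), (26, 1)])
 (.leaf 11836 6 [(18, -1), (26, 1)]))
 (.node (.leaf 6068 6 [(19, 1), (26, 1), (35, 1), (49, 1), (50, 1)])
 (.leaf 4692 6 [(20, -1), (26, 1)])))))
 (.node (.node (.node (.node (.leaf 12676 6 [(22, -1), (26, 1)])
 (.leaf 2396 6 [(24, 1), (26, 1)]))
 (.node (.leaf 10140 6 [(25, 1), (26, 1)])
 (.leaf 1640412 6 [(32, 1)])))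
 (.node (.node (.leaf 65360 6 [(0, 1), (32, 1)])
 (.leaf 26220 6 [(1, -1), (32, 1)]))
 (.node (.leaf 7664 6 [(2, -1), (32, 1)])
 (.leaf 24456 6 [(3, 1), (32, 1)]))))
 (.node (.node (.node (.leaf 2984 6 [(4, 1), (32, 1)])
 (.leaf 5124 6 [(5, 1), (32, 1)]))
 (.node (.leaf 15692 6 [(6, 1), (32, 1)])
 (.leaf 1396 6 [(7, 1), (32, 1)])))
 (.node (.node (.leaf 19100 6 [(8, 1), (32, 1)])
 (.leaf 4464 6 [(9, 1), (32, 1)]))
 (.node (.leaf 8080 6 [(10, 1), (32, 1)])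
 (.leaf 4732 6 [(11, -1), (32, 1)]))))))

def cert50 : Cert :=
 (.node (.node (.node (.node (.node (.leaf 3448 6 [(12, -1), (32, 1)])
 (.leaf 1244 6 [(13, 1), (32, 1)]))
 (.node (.leaf 2780 6 [(14, -1), (32, 1)])
 (.leaf 14804 6 [(16, -1), (32, 1)])))
 (.node (.node (.leaf 5648 6 [(17, 1), (32, 1)])
 (.leaf 4676 6 [(18, 1), (32, 1)]))
 (.node (.leaf 1540 6 [(19, -1), (32, 1), (35, -1), (49, -1), (50, -1)])
 (.leaf 11968 6 [(20, -1), (32, 1)]))))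
 (.node (.node (.node (.leaf 10860 6 [(22, -1), (32, 1)])
 (.leaf 13764 6 [(24, -1), (32, 1)]))
 (.node (.leaf 5020 6 [(25, 1), (32, 1)])
 (.leaf 2072 6 [(26, -1), (32, 1)])))
 (.node (.node (.leaf 1692476 6 [(33, 1)])
 (.leaf 24976 6 [(0, 1), (33, 1)]))
 (.node (.leaf 13128 6 [(1, -1), (33, 1)])
 (.leaf 48012 6 [(2, -1), (33, 1)])))))
 (.node (.node (.node (.node (.leaf 19332 6 [(3, 1), (33, 1)])
 (.leaf 38572 6 [(4, -1), (33, 1)]))
 (.node (.leaf 6000 6 [(5, 1), (33, 1)])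
 (.leaf 3340 6 [(6, 1), (33, 1)])))
 (.node (.node (.leaf 6072 6 [(7, -1), (33, 1)])
 (.leaf 3656 6 [(8, -1), (33, 1)]))
 (.node (.leaf 856 6 [(9, 1), (33, 1)])
 (.leaf 2836 6 [(10, 1), (33, 1)]))))
 (.node (.node (.node (.leaf 132 6 [(11, 1), (33, 1)])
 (.leaf 15428 6 [(12, -1), (33, 1)]))
 (.node (.leaf 5360 6 [(13, 1), (33, 1)])
 (.leaf 4920 6 [(14, 1), (33, 1)])))
 (.node (.node (.leaf 10124 6 [(16, -1), (33, 1)])
 (.leaf 6036 6 [(17, -1), (33, 1)]))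
 (.node (.leaf 14332 6 [(18, 1), (33, 1)])
 (.leaf 4656 6 [(19, -1), (33, 1), (35, -1), (49, -1), (50, -1)]))))))

def cert51 : Cert :=
 (.node (.node (.node (.node (.node (.leaf 104 6 [(20, -1), (33, 1)])
 (.leaf 11380 6 [(22, 1), (33, 1)]))
 (.node (.leaf 5340 6 [(24, -1), (33, 1)])
 (.leaf 14084 6 [(25, -1), (33, 1)])))
 (.node (.node (.leaf 4636 6 [(26, -1), (33, 1)])
 (.leaf 1980 6 [(32, -1), (33, 1)]))
 (.node (.leaf 1770988 6 [(34, 1)])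
 (.leaf 17200 6 [(0, -1), (34, 1)]))))
 (.node (.node (.node (.leaf 15872 6 [(1, -1), (34, 1)])
 (.leaf 16896 6 [(2, -1), (34, 1)]))
 (.node (.leaf 3960 6 [(3, -1), (34, 1)])
 (.leaf 1144 6 [(4, -1), (34, 1)])))
 (.node (.node (.leaf 6588 6 [(5, 1), (34, 1)])
 (.leaf 16736 6 [(6, -1), (34, 1)]))
 (.node (.leaf 6304 6 [(7, -1), (34, 1)])
 (.leaf 10188 6 [(8, -1), (34, 1)])))))
 (.node (.node (.node (.node (.leaf 6756 6 [(9, -1), (34, 1)])
 (.leaf 1912 6 [(10, 1), (34, 1)]))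
 (.node (.leaf 808 6 [(11, -1), (34, 1)])
 (.leaf 12276 6 [(12, 1), (34, 1)])))
 (.node (.node (.leaf 2652 6 [(13, 1), (34, 1)])
 (.leaf 5968 6 [(14, 1), (34, 1)]))
 (.node (.leaf 336 6 [(16, 1), (34, 1)])
 (.leaf 2048 6 [(17, -1), (34, 1)]))))
 (.node (.node (.node (.leaf 4136 6 [(18, -1), (34, 1)])
 (.leaf 980 6 [(19, 1), (34, 1), (35, 1), (49, 1), (50, 1)]))
 (.node (.leaf 812 6 [(20, 1), (34, 1)])
 (.leaf 13016 6 [(22, 1), (34, 1)])))
 (.node (.node (.leaf 6568 6 [(24, -1), (34, 1)])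
 (.leaf 308 6 [(25, 1), (34, 1)]))
 (.node (.leaf 1244 6 [(26, 1), (34, 1)])
 (.leaf 13144 6 [(32, -1), (34, 1)]))))))

def cert52 : Cert :=
 (.node (.node (.node (.node (.node (.leaf 18460 6 [(33, 1), (34, 1)])
 (.leaf 1577584 6 [(36, 1)]))
 (.node (.leaf 24976 6 [(0, 1), (36, 1)])
 (.leaf 18396 6 [(1, -1), (36, 1)])))
 (.node (.node (.leaf 23976 6 [(2, -1), (36, 1)])
 (.leaf 9808 6 [(3, -1), (36, 1)]))
 (.node (.leaf 6996 6 [(4, -1), (36, 1)])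
 (.leaf 2496 6 [(5, -1), (36, 1)]))))
 (.node (.node (.node (.leaf 20716 6 [(6, -1), (36, 1)])
 (.leaf 2652 6 [(7, -1), (36, 1)]))
 (.node (.leaf 11668 6 [(8, -1), (36, 1)])
 (.leaf 15988 6 [(9, -1), (36, 1)])))
 (.node (.node (.leaf 652 6 [(10, 1), (36, 1)])
 (.leaf 7080 6 [(11, 1), (36, 1)]))
 (.node (.leaf 15320 6 [(12, -1), (36, 1)])
 (.leaf 3652 6 [(13, 1), (36, 1)])))))
 (.node (.node (.node (.node (.leaf 6084 6 [(14, -1), (36, 1)])
 (.leaf 764 6 [(16, 1), (36, 1)]))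
 (.node (.leaf 6968 6 [(17, 1), (36, 1)])
 (.leaf 15884 6 [(18, -1), (36, 1)])))
 (.node (.node (.leaf 10628 6 [(19, 1), (35, 1), (36, 1), (49, 1), (50, 1)])
 (.leaf 5768 6 [(20, -1), (36, 1)]))
 (.node (.leaf 31436 6 [(22, 1), (36, 1)])
 (.leaf 388 6 [(24, -1), (36, 1)]))))
 (.node (.node (.node (.leaf 20264 6 [(25, -1), (36, 1)])
 (.leaf 12804 6 [(26, 1), (36, 1)]))
 (.node (.leaf 14688 6 [(32, -1), (36, 1)])
 (.leaf 16144 6 [(33, 1), (36, 1)])))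
 (.node (.node (.leaf 18288 6 [(34, 1), (36, 1)])
 (.leaf 1674416 6 [(37, 1)]))
 (.node (.leaf 38288 6 [(0, 1), (37, 1)])
 (.leaf 3264 6 [(1, -1), (37, 1)]))))))

def cert53 : Cert :=
 (.node (.node (.node (.node (.node (.leaf 15456 6 [(2, 1), (37, 1)])
 (.leaf 15504 6 [(3, -1), (37, 1)]))
 (.node (.leaf 15868 6 [(4, -1), (37, 1)])
 (.leaf 6772 6 [(5, -1), (37, 1)])))
 (.node (.node (.leaf 16092 6 [(6, -1), (37, 1)])
 (.leaf 5112 6 [(7, 1), (37, 1)]))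
 (.node (.leaf 8564 6 [(8, -1), (37, 1)])
 (.leaf 10312 6 [(9, 1), (37, 1)]))))
 (.node (.node (.node (.leaf 10216 6 [(10, -1), (37, 1)])
 (.leaf 436 6 [(11, 1), (37, 1)]))
 (.node (.leaf 6276 6 [(12, 1), (37, 1)])
 (.leaf 7116 6 [(13, 1), (37, 1)])))
 (.node (.node (.leaf 824 6 [(14, 1), (37, 1)])
 (.leaf 31480 6 [(16, -1), (37, 1)]))
 (.node (.leaf 16748 6 [(17, 1), (37, 1)])
 (.leaf 8356 6 [(18, 1), (37, 1)])))))
 (.node (.node (.node (.node (.leaf 4412 6 [(19, -1), (35, -1), (37, 1), (49, -1), (50, -1)])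
 (.leaf 4268 6 [(20, -1), (37, 1)]))
 (.node (.leaf 6888 6 [(22, -1), (37, 1)])
 (.leaf 8400 6 [(24, 1), (37, 1)])))
 (.node (.node (.leaf 3200 6 [(25, 1), (37, 1)])
 (.leaf 8608 6 [(26, -1), (37, 1)]))
 (.node (.leaf 10924 6 [(32, 1), (37, 1)])
 (.leaf 8284 6 [(33, 1), (37, 1)]))))
 (.node (.node (.node (.leaf 18732 6 [(34, -1), (37, 1)])
 (.leaf 11168 6 [(36, 1), (37, 1)]))
 (.node (.leaf 1730060 6 [(38, 1)])
 (.leaf 15268 6 [(0, 1), (38, 1)])))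
 (.node (.node (.leaf 3744 6 [(1, -1), (38, 1)])
 (.leaf 20340 6 [(2, -1), (38, 1)]))
 (.node (.leaf 6452 6 [(3, -1), (38, 1)])
 (.leaf 28152 6 [(4, -1), (38, 1)]))))))

def cert54 : Cert :=
 (.node (.node (.node (.node (.node (.leaf 7664 6 [(5, 1), (38, 1)])
 (.leaf 5380 6 [(6, 1), (38, 1)]))
 (.node (.leaf 672 6 [(7, 1), (38, 1)])
 (.leaf 32656 6 [(8, -1), (38, 1)])))
 (.node (.node (.leaf 10608 6 [(9, 1), (38, 1)])
 (.leaf 2984 6 [(10, 1), (38, 1)]))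
 (.node (.leaf 92 6 [(11, -1), (38, 1)])
 (.leaf 1112 6 [(12, 1), (38, 1)]))))
 (.node (.node (.node (.leaf 1836 6 [(13, 1), (38, 1)])
 (.leaf 3228 6 [(14, 1), (38, 1)]))
 (.node (.leaf 8040 6 [(16, -1), (38, 1)])
 (.leaf 4704 6 [(17, 1), (38, 1)])))
 (.node (.node (.leaf 15368 6 [(18, 1), (38, 1)])
 (.leaf 11612 6 [(19, -1), (35, -1), (38, 1), (49, -1), (50, -1)]))
 (.node (.leaf 9220 6 [(20, -1), (38, 1)])
 (.leaf 10112 6 [(22, -1), (38, 1)])))))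
 (.node (.node (.node (.node (.leaf 10864 6 [(24, 1), (38, 1)])
 (.leaf 5968 6 [(25, 1), (38, 1)]))
 (.node (.leaf 2152 6 [(26, -1), (38, 1)])
 (.leaf 7884 6 [(32, -1), (38, 1)])))
 (.node (.node (.leaf 3196 6 [(33, 1), (38, 1)])
 (.leaf 56 6 [(34, 1), (38, 1)]))
 (.node (.leaf 10544 6 [(36, -1), (38, 1)])
 (.leaf 3200 6 [(37, 1), (38, 1)]))))
 (.node (.node (.node (.leaf 1713892 6 [(40, 1)])
 (.leaf 17200 6 [(0, -1), (40, 1)]))
 (.node (.leaf 29544 6 [(1, -1), (40, 1)])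
 (.leaf 35012 6 [(2, -1), (40, 1)])))
 (.node (.node (.leaf 23276 6 [(3, 1), (40, 1)])
 (.leaf 2568 6 [(4, -1), (40, 1)]))
 (.node (.leaf 6492 6 [(5, 1), (40, 1)])
 (.leaf 20016 6 [(6, 1), (40, 1)]))))))

def cert55 : Cert :=
 (.node (.node (.node (.node (.node (.leaf 4820 6 [(7, -1), (40, 1)])
 (.leaf 4312 6 [(8, 1), (40, 1)]))
 (.node (.leaf 7444 6 [(9, -1), (40, 1)])
 (.leaf 3032 6 [(10, 1), (40, 1)])))
 (.node (.node (.leaf 9492 6 [(11, -1), (40, 1)])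
 (.leaf 10832 6 [(12, 1), (40, 1)]))
 (.node (.leaf 3232 6 [(13, 1), (40, 1)])
 (.leaf 8536 6 [(14, -1), (40, 1)]))))
 (.node (.node (.node (.leaf 7716 6 [(16, -1), (40, 1)])
 (.leaf 3524 6 [(17, 1), (40, 1)]))
 (.node (.leaf 21548 6 [(18, 1), (40, 1)])
 (.leaf 4020 6 [(19, -1), (35, -1), (40, 1), (49, -1), (50, -1)])))
 (.node (.node (.leaf 4204 6 [(20, -1), (40, 1)])
 (.leaf 2784 6 [(22, 1), (40, 1)]))
 (.node (.leaf 5020 6 [(24, -1), (40, 1)])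
 (.leaf 4384 6 [(25, -1), (40, 1)])))))
 (.node (.node (.node (.node (.leaf 4016 6 [(26, 1), (40, 1)])
 (.leaf 5144 6 [(32, -1), (40, 1)]))
 (.node (.leaf 2328 6 [(33, 1), (40, 1)])
 (.leaf 9704 6 [(34, 1), (40, 1)])))
 (.node (.node (.leaf 7204 6 [(36, 1), (40, 1)])
 (.leaf 3488 6 [(37, -1), (40, 1)]))
 (.node (.leaf 4732 6 [(38, -1), (40, 1)])
 (.leaf 1435792 6 [(41, 1)]))))
 (.node (.node (.node (.leaf 15268 6 [(0, 1), (41, 1)])
 (.leaf 24924 6 [(1, -1), (41, 1)]))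
 (.node (.leaf 36156 6 [(2, -1), (41, 1)])
 (.leaf 33580 6 [(3, 1), (41, 1)])))
 (.node (.node (.leaf 24740 6 [(4, -1), (41, 1)])
 (.leaf 16720 6 [(5, 1), (41, 1)]))
 (.node (.leaf 42272 6 [(6, 1), (41, 1)])
 (.leaf 16460 6 [(7, -1), (41, 1)]))))))

def cert56 : Cert :=
 (.node (.node (.node (.node (.node (.leaf 34708 6 [(8, -1), (41, 1)])
 (.leaf 10656 6 [(9, 1), (41, 1)]))
 (.node (.leaf 7212 6 [(10, 1), (41, 1)])
 (.leaf 11220 6 [(11, -1), (41, 1)])))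
 (.node (.node (.leaf 36400 6 [(12, 1), (41, 1)])
 (.leaf 17384 6 [(13, -1), (41, 1)]))
 (.node (.leaf 15972 6 [(14, -1), (41, 1)])
 (.leaf 17296 6 [(16, -1), (41, 1)]))))
 (.node (.node (.node (.leaf 11176 6 [(17, 1), (41, 1)])
 (.leaf 23372 6 [(18, 1), (41, 1)]))
 (.node (.leaf 5848 6 [(19, -1), (35, -1), (41, 1), (49, -1), (50, -1)])
 (.leaf 5692 6 [(20, 1), (41, 1)])))
 (.node (.node (.leaf 16768 6 [(22, -1), (41, 1)])
 (.leaf 11412 6 [(24, 1), (41, 1)]))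
 (.node (.leaf 3996 6 [(25, 1), (41, 1)])
 (.leaf 2768 6 [(26, -1), (41, 1)])))))
 (.node (.node (.node (.node (.leaf 21256 6 [(32, -1), (41, 1)])
 (.leaf 23112 6 [(33, 1), (41, 1)]))
 (.node (.leaf 17428 6 [(34, 1), (41, 1)])
 (.leaf 25648 6 [(36, 1), (41, 1)])))
 (.node (.node (.leaf 17044 6 [(37, -1), (41, 1)])
 (.leaf 13788 6 [(38, -1), (41, 1)]))
 (.node (.leaf 6096 6 [(40, 1), (41, 1)])
 (.leaf 1784072 6 [(28, 1), (44, 1), (52, 1), (56, 1)]))))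
 (.node (.node (.node (.leaf 19368 6 [(0, -1), (28, 1), (44, 1), (52, 1), (56, 1)])
 (.leaf 9416 6 [(1, 1), (28, 1), (44, 1), (52, 1), (56, 1)]))
 (.node (.leaf 11208 6 [(2, 1), (28, 1), (44, 1), (52, 1), (56, 1)])
 (.leaf 6160 6 [(3, -1), (28, 1), (44, 1), (52, 1), (56, 1)])))
 (.node (.node (.leaf 38052 6 [(4, 1), (28, 1), (44, 1), (52, 1), (56, 1)])
 (.leaf 504 6 [(5, 1), (28, 1), (44, 1), (52, 1), (56, 1)]))
 (.node (.leaf 124 6 [(6, 1), (28, 1), (44, 1), (52, 1), (56, 1)])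
 (.leaf 2564 6 [(7, 1), (28, 1), (44, 1), (52, 1), (56, 1)]))))))

def cert57 : Cert :=
 (.node (.node (.node (.node (.node (.leaf 24220 6 [(8, 1), (28, 1), (44, 1), (52, 1), (56, 1)])
 (.leaf 2872 6 [(9, 1), (28, 1), (44, 1), (52, 1), (56, 1)]))
 (.node (.leaf 16832 6 [(10, -1), (28, 1), (44, 1), (52, 1), (56, 1)])
 (.leaf 808 6 [(11, 1), (28, 1), (44, 1), (52, 1), (56, 1)])))
 (.node (.node (.leaf 476 6 [(12, 1), (28, 1), (44, 1), (52, 1), (56, 1)])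
 (.leaf 1052 6 [(13, 1), (28, 1), (44, 1), (52, 1), (56, 1)]))
 (.node (.leaf 772 6 [(14, 1), (28, 1), (44, 1), (52, 1), (56, 1)])
 (.leaf 2932 6 [(16, 1), (28, 1), (44, 1), (52, 1), (56, 1)]))))
 (.node (.node (.node (.leaf 7564 6 [(17, -1), (28, 1), (44, 1), (52, 1), (56, 1)])
 (.leaf 15300 6 [(18, -1), (28, 1), (44, 1), (52, 1), (56, 1)]))
 (.node (.leaf 2748 6 [(19, -1), (28, 1), (35, -1), (44, 1), (49, -1), (50, -1), (52, 1), (56, 1)])
 (.leaf 636 6 [(20, -1), (28, 1), (44, 1), (52, 1), (56, 1)])))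
 (.node (.node (.leaf 7860 6 [(22, -1), (28, 1), (44, 1), (52, 1), (56, 1)])
 (.leaf 5532 6 [(24, 1), (28, 1), (44, 1), (52, 1), (56, 1)]))
 (.node (.leaf 7156 6 [(25, 1), (28, 1), (44, 1), (52, 1), (56, 1)])
 (.leaf 6224 6 [(26, -1), (28, 1), (44, 1), (52, 1), (56, 1)])))))
 (.node (.node (.node (.node (.leaf 15708 6 [(28, 1), (32, 1), (44, 1), (52, 1), (56, 1)])
 (.leaf 1468 6 [(28, 1), (33, 1), (44, 1), (52, 1), (56, 1)]))
 (.node (.leaf 5036 6 [(28, 1), (34, 1), (44, 1), (52, 1), (56, 1)])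
 (.leaf 6324 6 [(28, 1), (36, -1), (44, 1), (52, 1), (56, 1)])))
 (.node (.node (.leaf 1620 6 [(28, 1), (37, -1), (44, 1), (52, 1), (56, 1)])
 (.leaf 6416 6 [(28, 1), (38, 1), (44, 1), (52, 1), (56, 1)]))
 (.node (.leaf 1028 6 [(28, 1), (40, -1), (44, 1), (52, 1), (56, 1)])
 (.leaf 676 6 [(28, 1), (41, -1), (44, 1), (52, 1), (56, 1)]))))
 (.node (.node (.node (.leaf 1625892 6 [(48, 1)])
 (.leaf 27520 6 [(0, -1), (48, 1)]))
 (.node (.leaf 27704 6 [(1, -1), (48, 1)])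
 (.leaf 12336 6 [(2, 1), (48, 1)])))
 (.node (.node (.leaf 2192 6 [(3, 1), (48, 1)])
 (.leaf 3060 6 [(4, 1), (48, 1)]))
 (.node (.leaf 15204 6 [(5, 1), (48, 1)])
 (.leaf 23820 6 [(6, -1), (48, 1)]))))))

def cert58 : Cert :=
 (.node (.node (.node (.node (.leaf 5388 6 [(7, -1), (48, 1)])
 (.node (.leaf 10764 6 [(8, -1), (48, 1)])
 (.leaf 22364 6 [(9, 1), (48, 1)])))
 (.node (.leaf 9188 6 [(10, 1), (48, 1)])
 (.node (.leaf 8772 6 [(11, -1), (48, 1)])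
 (.leaf 1704 6 [(12, 1), (48, 1)]))))
 (.node (.node (.leaf 2952 6 [(13, -1), (48, 1)])
 (.node (.leaf 1712 6 [(14, 1), (48, 1)])
 (.leaf 29532 6 [(16, 1), (48, 1)])))
 (.node (.node (.leaf 328 6 [(17, -1), (48, 1)])
 (.leaf 19508 6 [(18, -1), (48, 1)]))
 (.node (.leaf 5068 6 [(19, 1), (35, 1), (48, 1), (49, 1), (50, 1)])
 (.leaf 15248 6 [(20, -1), (48, 1)])))))
 (.node (.node (.node (.leaf 23904 6 [(22, 1), (48, 1)])
 (.node (.leaf 216 6 [(24, -1), (48, 1)])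
 (.leaf 16816 6 [(25, -1), (48, 1)])))
 (.node (.leaf 2120 6 [(26, -1), (48, 1)])
 (.node (.leaf 5300 6 [(32, -1), (48, 1)])
 (.leaf 20536 6 [(33, 1), (48, 1)]))))
 (.node (.node (.leaf 912 6 [(34, 1), (48, 1)])
 (.node (.leaf 18496 6 [(36, -1), (48, 1)])
 (.leaf 14868 6 [(37, 1), (48, 1)])))
 (.node (.node (.leaf 20304 6 [(38, 1), (48, 1)])
 (.leaf 8352 6 [(40, 1), (48, 1)]))
 (.node (.leaf 4292 6 [(41, 1), (48, 1)])
 (.leaf 824 6 [(28, 1), (44, 1), (48, 1), (52, 1), (56, 1)]))))))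

def certAll : Cert :=
 (.node (.node (.node (.node (.node cert0
 (.node cert1
 cert2))
 (.node (.node cert3
 cert4)
 (.node cert5
 cert6)))
 (.node (.node cert7
 (.node cert8
 cert9))
 (.node (.node cert10
 cert11)
 (.node cert12
 cert13))))
 (.node (.node (.node cert14
 (.node cert15
 cert16))
 (.node (.node cert17
 cert18)
 (.node cert19
 cert20)))
 (.node (.node (.node cert21
 cert22)
 (.node cert23
 cert24))
 (.node (.node cert25
 cert26)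
 (.node cert27
 cert28)))))
 (.node (.node (.node (.node cert29
 (.node cert30
 cert31))
 (.node (.node cert32
 cert33)
 (.node cert34
 cert35)))
 (.node (.node (.node cert36
 cert37)
 (.node cert38
 cert39))
 (.node (.node cert40
 cert41)
 (.node cert42
 cert43))))
 (.node (.node (.node cert44
 (.node cert45
 cert46))
 (.node (.node cert47
 cert48)
 (.node cert49
 cert50)))
 (.node (.node (.node cert51
 cert52)
 (.node cert53
 cert54))
 (.node (.node cert55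
 cert56)
 (.node cert57
 cert58))))))

def polyD : List (ℕ × Int) :=
 [(0, 11), (1, 8), (2, 8), (3, 5), (4, 8), (5, 5), (6, 6), (7, 3), (8, 8), (9, 6), (10, 5), (11, 3), (12, 5), (13, 3), (14, 3), (15, 1), (16, 7), (17, 4), (18, 5), (19, 2), (20, 4), (21, 2), (22, 3), (23, 1), (24, 5), (25, 3), (26, 3), (27, 1), (28, 2), (29, 1), (30, 1), (32, 7), (33, 5), (34, 4), (35, 2), (36, 5), (37, 3), (38, 3), (39, 1), (40, 4), (41, 3), (42, 2), (43, 1), (44, 2), (45, 1), (46, 1), (48, 4), (49, 2), (50, 2), (52, 2), (53, 1), (54, 1), (56, 2), (57, 1), (58, 1)]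

def polyE : List (ℕ × Int) :=
 [(0, 8), (1, 5), (2, 5), (3, 3), (4, 5), (5, 2), (6, 3), (7, 1), (8, 5), (9, 3), (10, 2), (11, 1), (12, 3), (13, 1), (14, 1), (16, 5), (17, 2), (18, 3), (19, 1), (20, 2), (22, 1), (24, 3), (25, 1), (26, 1), (28, 1), (32, 5), (33, 3), (34, 2), (35, 1), (36, 3), (37, 1), (38, 1), (40, 2), (41, 1), (44, 1), (48, 3), (49, 1), (50, 1), (52, 1), (56, 1)]

theorem check_cert : check 16777216 1173220 (Tr.ofList polyD) (Tr.ofList polyE) certAll = true := by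
  decide +kernel

end Pool.Agent.P.MP_e16cac_co
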