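import Mathlib

/-!
A small reflective checker for Hermitian sum-of-squares identities between multi-affine
polynomials with integer coefficients.
-/

namespace Pool.Agent.P.MP_e16cac_co

/-- Multi-affine polynomials in recursive form. -/
inductive Tr : Type
  | c (z : Int) : Tr
  | n (a b : Tr) : Tr

namespace Tr

noncomputable def ev : Tr → (ℕ → ℂ) → ℂ
  | c z, _ => (z : ℂ)
  | n a b, v => a.ev (fun i => v (i + 1)) + v 0 * b.ev (fun i => v (i + 1))

def addc (z : Int) : Tr → Tr
  | c w => c (z + w)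
  | n a b => n (addc z a) b

def add : Tr → Tr → Tr
  | c z, q => if z = 0 then q else addc z q
  | n a b, c w => if w = 0 then n a b else n (addc w a) b
  | n a b, n a' b' => n (add a a') (add b b')

def smul (z : Int) : Tr → Tr
  | c w => c (z * w)
  | n a b => n (smul z a) (smul z b)

def isZ : Tr → Bool
  | c z => decide (z = 0)
  | n a b => isZ a && isZ b

def dep : ℕ → Tr → Bool
  | _, c _ => true
  | 0, n _ _ => false
  | k + 1, n a b => dep k a && dep k b

def tens (q : Tr) : ℕ → Tr → Tr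
  | 0, c z => smul z q
  | 0, n _ _ => c 0
  | k + 1, c z => if z = 0 then c 0 else n (tens q k (c z)) (c 0)
  | k + 1, n a b => n (tens q k a) (tens q k b)

def mulX : ℕ → Tr → Tr
  | 0, c z => n (c 0) (c z)
  | 0, n a _ => n (c 0) a
  | f + 1, c z => if z = 0 then c 0 else n (mulX f (c z)) (c 0)
  | f + 1, n a b => n (mulX f a) (mulX f b)

def free : ℕ → Tr → Bool
  | _, c _ => true
  | 0, n _ b => isZ b
  | f + 1, n a b => free f a && free f b

def mono (z : Int) : ℕ → ℕ → Tr
  | 0, _ => c z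
  | k + 1, m => if m = 0 then c z else
      if m % 2 = 0 then n (mono z k (m / 2)) (c 0) else n (c 0) (mono z k (m / 2))

def ofList : List (ℕ × Int) → Tr
  | [] => c 0
  | t :: l => add (mono t.2 6 t.1) (ofList l)

lemma ev_addc (z : Int) : ∀ (p : Tr) (v : ℕ → ℂ), (addc z p).ev v = z + p.ev v
  | c w, v => by simp [addc, ev]
  | n a b, v => by simp [addc, ev, ev_addc z a, add_assoc]

lemma ev_add : ∀ (p q : Tr) (v : ℕ → ℂ), (add p q).ev v = p.ev v + q.ev v
  | c z, q, v => by
      unfold add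
      split_ifs with h
      · simp [ev, h]
      · rw [ev_addc]; rfl
  | n a b, c w, v => by
      unfold add
      split_ifs with h
      · simp [ev, h]
      · simp only [ev, ev_addc]; ring
  | n a b, n a' b', v => by
      simp only [add, ev, ev_add a a', ev_add b b']; ring

lemma ev_smul (z : Int) : ∀ (p : Tr) (v : ℕ → ℂ), (smul z p).ev v = z * p.ev v
  | c w, v => by simp [smul, ev]
  | n a b, v => by simp only [smul, ev, ev_smul z a, ev_smul z b]; ring

lemma ev_isZ : ∀ (p : Tr) (v : ℕ → ℂ), p.isZ = true → p.ev v = 0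
  | c z, v, h => by
      have : z = 0 := by simpa [isZ] using h
      simp [ev, this]
  | n a b, v, h => by
      simp only [isZ, Bool.and_eq_true] at h
      simp [ev, ev_isZ a _ h.1, ev_isZ b _ h.2]

lemma ev_tens (q : Tr) : ∀ (k : ℕ) (p : Tr) (v : ℕ → ℂ), dep k p = true →
    (tens q k p).ev v = p.ev v * q.ev (fun i => v (i + k))
  | 0, c z, v, _ => by simp [tens, ev, ev_smul]
  | 0, n _ _, v, h => by simp [dep] at h
  | k + 1, c z, v, _ => by
      unfold tens
      split_ifs with h
      · simp [ev, h]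
      · simp only [ev, ev_tens q k (c z) _ (by simp [dep])]
        simp [add_assoc]
  | k + 1, n a b, v, h => by
      simp only [dep, Bool.and_eq_true] at h
      simp only [tens, ev, ev_tens q k a _ h.1, ev_tens q k b _ h.2, add_assoc]
      ring

lemma ev_mulX : ∀ (f : ℕ) (p : Tr) (v : ℕ → ℂ), free f p = true →
    (mulX f p).ev v = v f * p.ev v
  | 0, c z, v, _ => by simp [mulX, ev]
  | 0, n a b, v, h => by
      simp only [free] at h
      simp [mulX, ev, ev_isZ b _ h]
  | f + 1, c z, v, _ => by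
      unfold mulX
      split_ifs with h
      · simp [ev, h]
      · simp only [ev, ev_mulX f (c z) _ (by simp [free])]
        simp
  | f + 1, n a b, v, h => by
      simp only [free, Bool.and_eq_true] at h
      simp only [mulX, ev, ev_mulX f a _ h.1, ev_mulX f b _ h.2]
      ring

lemma ev_congr : ∀ (k : ℕ) (p : Tr) (v v' : ℕ → ℂ), dep k p = true → (∀ i < k, v i = v' i) →
    p.ev v = p.ev v'
  | _, c z, v, v', _, _ => rfl
  | 0, n _ _, v, v', h, _ => by simp [dep] at h
  | k + 1, n a b, v, v', h, hv => by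
      simp only [dep, Bool.and_eq_true] at h
      simp only [ev]
      rw [ev_congr k a _ (fun i => v' (i + 1)) h.1 (fun i hi => hv _ (by omega)),
        ev_congr k b _ (fun i => v' (i + 1)) h.2 (fun i hi => hv _ (by omega)), hv 0 (by omega)]

lemma ev_conj : ∀ (p : Tr) (v : ℕ → ℂ),
    p.ev (fun i => (starRingEnd ℂ) (v i)) = (starRingEnd ℂ) (p.ev v)
  | c z, v => by simp [ev]
  | n a b, v => by
      simp only [ev, map_add, map_mul]
      rw [ev_conj a (fun i => v (i + 1)), ev_conj b (fun i => v (i + 1))]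

end Tr

open Tr

/-- The doubled family of variables: six variables followed by their conjugates. -/
noncomputable def dbl (y : ℕ → ℂ) : ℕ → ℂ :=
  fun i => if i < 6 then y i else (starRingEnd ℂ) (y (i - 6))

lemma ev_herm (p q : Tr) (y : ℕ → ℂ) (hp : dep 6 p = true) :
    (tens q 6 p).ev (dbl y) = p.ev y * (starRingEnd ℂ) (q.ev y) := by
  rw [ev_tens q 6 p _ hp, ev_congr 6 p (dbl y) y hp (fun i hi => by simp [dbl, hi]), ← ev_conj]
  have : (fun i => dbl y (i + 6)) = fun i => (starRingEnd ℂ) (y i) := by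
    funext i
    simp [dbl]
  rw [this]

/-- Certificates: binary trees of weighted squares. -/
inductive Cert : Type
  | leaf (w : ℕ) (f : ℕ) (l : List (ℕ × Int)) : Cert
  | node (a b : Cert) : Cert

def sqTr (w f : ℕ) (p : Tr) : Tr :=
  if f < 6 then add (tens p 6 (smul w (mulX f p))) (tens (mulX f p) 6 (smul w p))
  else tens p 6 (smul w p)

def sqOk (w f : ℕ) (p : Tr) : Bool :=
  if f < 6 then free f p && dep 6 (smul w (mulX f p)) && dep 6 (smul w p) else dep 6 (smul w p)

def Cert.tr : Cert → Tr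
  | leaf w f l => sqTr w f (ofList l)
  | node a b => add a.tr b.tr

def Cert.ok : Cert → Bool
  | leaf w f l => sqOk w f (ofList l)
  | node a b => a.ok && b.ok

lemma sq_nonneg (w f : ℕ) (p : Tr) (y : ℕ → ℂ) (hy : ∀ i < 6, 0 ≤ (y i).re)
    (h : sqOk w f p = true) : 0 ≤ ((sqTr w f p).ev (dbl y)).re := by
  unfold sqOk at h
  unfold sqTr
  split_ifs with hf
  · rw [if_pos hf] at h
    simp only [Bool.and_eq_true] at h
    rw [ev_add, ev_herm _ _ _ h.1.2, ev_herm _ _ _ h.2, ev_smul, ev_smul, ev_mulX _ _ _ h.1.1]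
    have : ((w : ℤ) : ℂ) * (y f * p.ev y) * (starRingEnd ℂ) (p.ev y) +
        ((w : ℤ) : ℂ) * p.ev y * (starRingEnd ℂ) (y f * p.ev y) =
        ((w * (2 * (y f).re) * Complex.normSq (p.ev y) : ℝ) : ℂ) := by
      rw [map_mul]
      push_cast
      rw [← Complex.mul_conj, Complex.re_eq_add_conj]
      ring
    rw [this, Complex.ofReal_re]
    have h1 := hy f hf
    have h2 := Complex.normSq_nonneg (p.ev y)
    positivity
  · rw [if_neg hf] at h
    rw [ev_herm _ _ _ h, ev_smul]
    have : ((w : ℤ) : ℂ) * p.ev y * (starRingEnd ℂ) (p.ev y) =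
        ((w * Complex.normSq (p.ev y) : ℝ) : ℂ) := by
      push_cast
      rw [← Complex.mul_conj]
      ring
    rw [this, Complex.ofReal_re]
    have h2 := Complex.normSq_nonneg (p.ev y)
    positivity

lemma Cert.nonneg (y : ℕ → ℂ) (hy : ∀ i < 6, 0 ≤ (y i).re) :
    ∀ C : Cert, C.ok = true → 0 ≤ (C.tr.ev (dbl y)).re
  | leaf w f l, h => sq_nonneg w f _ y hy h
  | node a b, h => by
      simp only [Cert.ok, Bool.and_eq_true] at h
      simp only [Cert.tr, ev_add, Complex.add_re]
      exact add_nonneg (Cert.nonneg y hy a h.1) (Cert.nonneg y hy b h.2)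

def check (S ε : ℕ) (d e : Tr) (C : Cert) : Bool :=
  C.ok && dep 6 d && dep 6 e &&
    isZ (add (add (c ε) C.tr) (smul (-(S : ℤ)) (add (tens e 6 d) (tens d 6 e))))

theorem check_sound (S ε : ℕ) (hε : 0 < ε) (d e : Tr) (C : Cert) (h : check S ε d e C = true)
    (y : ℕ → ℂ) (hy : ∀ i < 6, 0 ≤ (y i).re) (t : ℂ) (ht : 0 ≤ t.re) :
    d.ev y + t * e.ev y ≠ 0 := by
  intro h0
  simp only [check, Bool.and_eq_true] at h
  obtain ⟨⟨⟨h1, h2⟩, h3⟩, h4⟩ := h
  have h5 := ev_isZ _ (dbl y) h4
  rw [ev_add, ev_add, ev_smul, ev_add, ev_herm _ _ _ h2, ev_herm _ _ _ h3] at h5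
  have hd : d.ev y = -(t * e.ev y) := eq_neg_of_add_eq_zero_left h0
  have h6 : ((-(S : ℤ) : ℤ) : ℂ) * (d.ev y * (starRingEnd ℂ) (e.ev y) +
      e.ev y * (starRingEnd ℂ) (d.ev y)) =
      ((S * (2 * t.re) * Complex.normSq (e.ev y) : ℝ) : ℂ) := by
    rw [hd, map_neg, map_mul]
    push_cast
    rw [← Complex.mul_conj, Complex.re_eq_add_conj]
    ring
  rw [h6] at h5
  have h7 := congrArg Complex.re h5
  have h8 := Cert.nonneg y hy C h1
  have h9 := Complex.normSq_nonneg (e.ev y)
  have h10 : (0 : ℝ) ≤ S * (2 * t.re) * Complex.normSq (e.ev y) := by positivity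
  have h11 : (0 : ℝ) < ε := by exact_mod_cast hε
  simp only [Complex.add_re, Complex.ofReal_re, ev, Complex.zero_re] at h7
  have h12 : (((ε : ℤ) : ℂ)).re = ε := by simp
  rw [h12] at h7
  linarith

end Pool.Agent.P.MP_e16cac_co
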