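import Mathlib

/-!
Definitions for problem MP_e16cac_co: the spanning-set polynomial of a matroid, the multivariate
Brown-Colbourn property, and simple matroids.
-/

namespace Pool.Agent.P.MP_e16cac_co

open Classical in
/-- The spanning-set polynomial `S_M` evaluated at `v`: the sum over the spanning sets `A` of `M`
of the product of the `v e`, `e ∈ A`. -/
noncomputable def spanningPoly {α : Type} [Fintype α] (M : Matroid α) (v : α → ℂ) : ℂ :=
  ∑ A ∈ Finset.univ.filter (fun A : Finset α => M.Spanning (A : Set α)), ∏ e ∈ A, v e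

/-- The multivariate Brown-Colbourn property. -/
def HasBC {α : Type} [Fintype α] (M : Matroid α) : Prop :=
  ∀ v : α → ℂ, (∀ e ∈ M.E, ‖1 + v e‖ < 1) → spanningPoly M v ≠ 0

/-- A matroid is simple if it has no loops and no two parallel elements. -/
def IsSimple {α : Type} (M : Matroid α) : Prop :=
  (∀ e, ¬ M.IsLoop e) ∧ ∀ e f, e ≠ f → ¬ M.IsCircuit {e, f}

end Pool.Agent.P.MP_e16cac_co
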