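import Pool.Agent.P.MP_e16cac_co.Poly

/-!
The counterexample: subdivide every element of the rank three matroid with lines 012, 034, 135,
246, and contract the added elements one at a time.
-/

open scoped Matroid

namespace Pool.Agent.P.MP_e16cac_co

open Classical in
/-- The independent-set polynomial. -/
noncomputable def indPoly {α : Type} [Fintype α] (K : Matroid α) (x : α → ℂ) : ℂ :=
  ∑ I ∈ Finset.univ.filter (fun I : Finset α => K.Indep (I : Set α)), ∏ e ∈ I, x e

lemma spanningPoly_dual {α : Type} [Fintype α] (K : Matroid α) (v : α → ℂ)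
    (hv : ∀ e ∈ K.E, v e ≠ 0) :
    ∃ c : ℂ, c ≠ 0 ∧ spanningPoly K✶ v = c * indPoly K (fun e => (v e)⁻¹) := by
  classical
  let E : Finset α := K.E.toFinite.toFinset
  have hE : (E : Set α) = K.E := K.E.toFinite.coe_toFinset
  refine ⟨∏ e ∈ E, v e, Finset.prod_ne_zero_iff.2 (fun e he => hv e (hE ▸ he)), ?_⟩
  unfold spanningPoly indPoly
  rw [Finset.mul_sum]
  refine Finset.sum_nbij' (fun A => E \ A) (fun I => E \ I) ?_ ?_ ?_ ?_ ?_
  · intro A hA
    simp only [Finset.mem_filter, Finset.mem_univ, true_and] at hA ⊢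
    have := hA.compl_coindep
    rw [Matroid.coindep_def, Matroid.dual_dual, Matroid.dual_ground] at this
    rwa [Finset.coe_sdiff, hE]
  · intro I hI
    simp only [Finset.mem_filter, Finset.mem_univ, true_and] at hI ⊢
    have h2 : K✶.Coindep (I : Set α) := by rwa [Matroid.coindep_def, Matroid.dual_dual]
    have := h2.compl_spanning
    rwa [Finset.coe_sdiff, hE]
  · intro A hA
    simp only [Finset.mem_filter, Finset.mem_univ, true_and] at hA
    have : A ⊆ E := by
      rw [← Finset.coe_subset, hE]
      exact hA.subset_ground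
    exact Finset.sdiff_sdiff_eq_self this
  · intro I hI
    simp only [Finset.mem_filter, Finset.mem_univ, true_and] at hI
    have : I ⊆ E := by
      rw [← Finset.coe_subset, hE]
      exact hI.subset_ground
    exact Finset.sdiff_sdiff_eq_self this
  · intro A hA
    simp only [Finset.mem_filter, Finset.mem_univ, true_and] at hA
    have h1 : A ⊆ E := by
      rw [← Finset.coe_subset, hE]
      exact hA.subset_ground
    rw [← Finset.prod_sdiff h1, Finset.prod_inv_distrib]
    have : ∏ e ∈ E \ A, v e ≠ 0 :=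
      Finset.prod_ne_zero_iff.2 (fun e he => hv e (hE ▸ (Finset.mem_sdiff.1 he).1))
    field_simp

open Classical in
lemma indPoly_delete {α : Type} [Fintype α] (K : Matroid α) (S : Set α) (x : α → ℂ) :
    indPoly (K ＼ S) x = indPoly K (fun e => if e ∈ S then 0 else x e) := by
  unfold indPoly
  rw [Finset.sum_filter, Finset.sum_filter]
  refine Finset.sum_congr rfl (fun I _ => ?_)
  by_cases h : Disjoint (I : Set α) S
  · simp only [Matroid.delete_indep_iff, h, and_true]
    split_ifs
    · refine Finset.prod_congr rfl (fun e he => ?_)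
      rw [if_neg (Set.disjoint_left.1 h he)]
    · rfl
  · simp only [Matroid.delete_indep_iff, h, and_false, if_false]
    split_ifs
    · obtain ⟨e, he, heS⟩ := Set.not_disjoint_iff.1 h
      symm
      exact Finset.prod_eq_zero (f := fun e => if e ∈ S then (0 : ℂ) else x e)
        (Finset.mem_coe.1 he) (if_pos heS)
    · rfl

/-- The doubling of `N`: every element gets a parallel copy. -/
noncomputable def matD : Matroid (Fin 7 ⊕ Fin 7) := matN.comap (Sum.elim id id)

lemma matD_ground : matD.E = Set.univ := rfl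

lemma matD_indep (I : Finset (Fin 7 ⊕ Fin 7)) :
    matD.Indep (I : Set (Fin 7 ⊕ Fin 7)) ↔
      ind (I.toLeft ∪ I.toRight) ∧ Disjoint I.toLeft I.toRight := by
  unfold matD
  rw [Matroid.comap_indep_iff, ← matN_indep]
  have h1 : Sum.elim id id '' (I : Set (Fin 7 ⊕ Fin 7)) =
      ((I.toLeft ∪ I.toRight : Finset (Fin 7)) : Set (Fin 7)) := by
    ext j
    simp
  rw [h1]
  refine and_congr Iff.rfl ⟨fun h => ?_, fun h => ?_⟩
  · rw [Finset.disjoint_left]
    intro j h1 h2
    have := h (Finset.mem_coe.2 (Finset.mem_toLeft.1 h1))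
      (Finset.mem_coe.2 (Finset.mem_toRight.1 h2)) rfl
    exact absurd this (by simp)
  · rw [Finset.disjoint_left] at h
    rintro (a | a) ha (b | b) hb hab
    · exact congrArg _ hab
    · have : a = b := hab
      subst this
      exact absurd (Finset.mem_toRight.2 hb) (h (Finset.mem_toLeft.2 ha))
    · have : a = b := hab
      subst this
      exact absurd (Finset.mem_toRight.2 ha) (h (Finset.mem_toLeft.2 hb))
    · exact congrArg _ hab

set_option linter.constructorNameAsVariable false in
lemma indPoly_matD (x : Fin 7 ⊕ Fin 7 → ℂ) :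
    indPoly matD x = pol (fun j => x (Sum.inl j) + x (Sum.inr j)) := by
  classical
  rw [← sum_ind]
  simp_rw [Finset.prod_add]
  rw [Finset.sum_sigma']
  unfold indPoly
  refine Finset.sum_nbij' (fun I => ⟨I.toLeft ∪ I.toRight, I.toLeft⟩)
    (fun z => z.2.disjSum (z.1 \ z.2)) ?_ ?_ ?_ ?_ ?_
  · intro I hI
    simp only [Finset.mem_filter, Finset.mem_univ, true_and, matD_indep] at hI
    simp only [Finset.mem_sigma, Finset.mem_filter, Finset.mem_univ, true_and,
      Finset.mem_powerset]
    exact ⟨hI.1, Finset.subset_union_left⟩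
  · rintro ⟨J, T⟩ hz
    simp only [Finset.mem_sigma, Finset.mem_filter, Finset.mem_univ, true_and,
      Finset.mem_powerset] at hz
    simp only [Finset.mem_filter, Finset.mem_univ, true_and, matD_indep, Finset.toLeft_disjSum,
      Finset.toRight_disjSum, Finset.union_sdiff_of_subset hz.2]
    exact ⟨hz.1, Finset.disjoint_sdiff⟩
  · intro I hI
    simp only [Finset.mem_filter, Finset.mem_univ, true_and, matD_indep] at hI
    simp only [Finset.union_sdiff_cancel_left hI.2, Finset.toLeft_disjSum_toRight]
  · rintro ⟨J, T⟩ hz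
    simp only [Finset.mem_sigma, Finset.mem_filter, Finset.mem_univ, true_and,
      Finset.mem_powerset] at hz
    simp only [Finset.toLeft_disjSum, Finset.toRight_disjSum, Finset.union_sdiff_of_subset hz.2]
  · intro I hI
    simp only [Finset.mem_filter, Finset.mem_univ, true_and, matD_indep] at hI
    simp only [Finset.union_sdiff_cancel_left hI.2]
    conv_lhs => rw [← Finset.toLeft_disjSum_toRight (u := I), Finset.prod_disjSum]

lemma disc_iff (v : ℂ) : ‖1 + v‖ < 1 ↔ v ≠ 0 ∧ (v⁻¹).re < -1 / 2 := by
  have h1 : ‖1 + v‖ < 1 ↔ 2 * v.re + Complex.normSq v < 0 := by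
    rw [← sq_lt_one_iff₀ (norm_nonneg _), Complex.sq_norm, Complex.normSq_apply,
      Complex.normSq_apply]
    simp only [Complex.add_re, Complex.one_re, Complex.add_im, Complex.one_im]
    constructor <;> intro h <;> nlinarith
  rw [h1]
  constructor
  · intro h
    have hv : v ≠ 0 := by rintro rfl; simp at h
    have hp : 0 < Complex.normSq v := Complex.normSq_pos.2 hv
    refine ⟨hv, ?_⟩
    rw [Complex.inv_re, div_lt_iff₀ hp]
    linarith
  · rintro ⟨hv, h⟩
    have hp : 0 < Complex.normSq v := Complex.normSq_pos.2 hv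
    rw [Complex.inv_re, div_lt_iff₀ hp] at h
    linarith

theorem hasBC_start : HasBC matD✶ := by
  intro v hv
  have hv' : ∀ e, v e ≠ 0 ∧ ((v e)⁻¹).re < -1 / 2 :=
    fun e => (disc_iff _).1 (hv e (Set.mem_univ e))
  obtain ⟨c, hc, h⟩ := spanningPoly_dual matD v (fun e _ => (hv' e).1)
  rw [h, indPoly_matD]
  refine mul_ne_zero hc (pol_ne_zero _ (fun j => ?_))
  have h1 := (hv' (Sum.inl j)).2
  have h2 := (hv' (Sum.inr j)).2
  rw [Complex.add_re]
  linarith

theorem not_hasBC_end : ¬ HasBC (matD✶ ／ Set.range Sum.inr) := by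
  intro H
  rw [← Matroid.dual_delete] at H
  have hz : ∀ j, zeroPt j ≠ 0 := by
    intro j h
    have := zeroPt_re j
    rw [h] at this
    norm_num at this
  let v : Fin 7 ⊕ Fin 7 → ℂ := fun e => (zeroPt (Sum.elim id id e))⁻¹
  have hv : ∀ e, ‖1 + v e‖ < 1 := fun e =>
    (disc_iff _).2 ⟨inv_ne_zero (hz _), by simp only [v, inv_inv]; exact zeroPt_re _⟩
  obtain ⟨c, -, h⟩ := spanningPoly_dual (matD ＼ Set.range Sum.inr) v
    (fun e _ => inv_ne_zero (hz _))
  refine H v (fun e _ => hv e) ?_
  rw [h, indPoly_delete, indPoly_matD]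
  have : (fun j : Fin 7 =>
      (if (Sum.inl j : Fin 7 ⊕ Fin 7) ∈ Set.range Sum.inr then 0 else (v (Sum.inl j))⁻¹) +
      (if (Sum.inr j : Fin 7 ⊕ Fin 7) ∈ Set.range Sum.inr then 0 else (v (Sum.inr j))⁻¹)) =
      zeroPt := by
    funext j
    simp [v]
  convert mul_zero c
  convert pol_zeroPt
  rename_i j
  simp [v]

lemma exists_big : ∀ a b : Fin 7, ∃ B : Finset (Fin 7), B.card = 4 ∧ ind B ∧ a ∉ B ∧ b ∉ B := by
  decide +kernel

lemma pair_indep (S : Set (Fin 7 ⊕ Fin 7)) (hS : S ⊆ Set.range Sum.inr) (a b : Fin 7 ⊕ Fin 7)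
    (ha : a ∉ S) (hb : b ∉ S) : (matD✶ ／ S).Indep {a, b} := by
  classical
  rw [← Matroid.dual_delete, ← Matroid.coindep_def, Matroid.coindep_iff_exists
    (by rintro x (rfl | rfl) <;> exact ⟨Set.mem_univ _, by assumption⟩)]
  obtain ⟨B, hB4, hB, haB, hbB⟩ := exists_big (Sum.elim id id a) (Sum.elim id id b)
  let B' : Finset (Fin 7 ⊕ Fin 7) := B.disjSum ∅
  have hB'S : Disjoint (B' : Set (Fin 7 ⊕ Fin 7)) S := by
    rw [Set.disjoint_left]
    intro x hx hxS
    obtain ⟨y, rfl⟩ := hS hxS
    simp [B'] at hx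
  have hB'i : (matD ＼ S).Indep B' := by
    rw [Matroid.delete_indep_iff, matD_indep]
    refine ⟨?_, hB'S⟩
    simp only [B', Finset.toLeft_disjSum, Finset.toRight_disjSum, Finset.union_empty]
    exact ⟨hB, Finset.disjoint_empty_right _⟩
  refine ⟨B', hB'i.isBase_of_maximal ?_, ?_⟩
  · intro J hJ hBJ
    obtain ⟨J, rfl⟩ := J.toFinite.exists_finset_coe
    rw [Matroid.delete_indep_iff, matD_indep] at hJ
    have h1 : J.card ≤ 4 := by
      rw [← Finset.card_toLeft_add_card_toRight, ← Finset.card_union_of_disjoint hJ.1.2]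
      rcases hJ.1.1 with h | h
      · omega
      · omega
    have h2 : B'.card = 4 := by simp [B', hB4]
    rw [Finset.eq_of_subset_of_card_le (Finset.coe_subset.1 hBJ) (by omega)]
  · intro x hx
    refine ⟨hB'i.subset_ground hx, ?_⟩
    rintro (rfl | rfl)
    · rcases x with x | x
      · exact haB (by simpa [B'] using hx)
      · simp [B'] at hx
    · rcases x with x | x
      · exact hbB (by simpa [B'] using hx)
      · simp [B'] at hx

theorem isSimple_contract (S : Set (Fin 7 ⊕ Fin 7)) (hS : S ⊆ Set.range Sum.inr) :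
    IsSimple (matD✶ ／ S) := by
  constructor
  · intro e he
    have h1 : e ∉ S := he.mem_ground.2
    have := pair_indep S hS e e h1 h1
    rw [Set.pair_eq_singleton] at this
    exact he.dep.not_indep this
  · intro e f _ hC
    have h1 : e ∉ S := (hC.subset_ground (Set.mem_insert _ _)).2
    have h2 : f ∉ S := (hC.subset_ground (Set.mem_insert_of_mem _ rfl)).2
    exact hC.dep.not_indep (pair_indep S hS e f h1 h2)

theorem exists_counterexample : ∃ M : Matroid (Fin 7 ⊕ Fin 7),
    IsSimple M ∧ HasBC M ∧ ∃ e ∈ M.E, ¬ HasBC (M ／ {e}) := by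
  classical
  by_contra H
  push Not at H
  have key : ∀ T : Finset (Fin 7), HasBC (matD✶ ／ (Sum.inr '' (T : Set (Fin 7)))) := by
    intro T
    induction T using Finset.induction_on with
    | empty => simpa using hasBC_start
    | insert j T hj ih =>
      have := H _ (isSimple_contract _ (Set.image_subset_range _ _)) ih (Sum.inr j)
        ⟨Set.mem_univ _, by simpa using hj⟩
      rw [Matroid.contract_contract] at this
      rwa [Finset.coe_insert, Set.image_insert_eq, Set.insert_eq, Set.union_comm]
  have := key Finset.univ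
  rw [Finset.coe_univ, Set.image_univ] at this
  exact not_hasBC_end this

end Pool.Agent.P.MP_e16cac_co
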