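import Pool.Agent.P.MP_e16cac_co.Cert
import Pool.Agent.P.MP_e16cac_co.Defs

/-!
The rank four matroid `N` on seven elements dual to the rank three matroid with three-point lines
012, 034, 135, 246, and its independent-set polynomial.
-/

namespace Pool.Agent.P.MP_e16cac_co

/-- Independent sets of `N`. -/
def ind (I : Finset (Fin 7)) : Prop :=
  I.card ≤ 3 ∨ (I.card = 4 ∧ I ≠ {3, 4, 5, 6} ∧ I ≠ {1, 2, 5, 6} ∧ I ≠ {0, 2, 4, 6} ∧
    I ≠ {0, 1, 3, 5})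

instance : DecidablePred ind := fun I => by unfold ind; infer_instance

lemma ind_subset : ∀ ⦃I J : Finset (Fin 7)⦄, ind J → I ⊆ J → ind I := by
  intro I J hJ hIJ
  have h1 := Finset.card_le_card hIJ
  by_cases h : I.card ≤ 3
  · exact Or.inl h
  · have h2 : J.card ≤ I.card := by
      rcases hJ with h3 | h3
      · omega
      · omega
    rwa [Finset.eq_of_subset_of_card_le hIJ h2]

lemma ind_aug3 : ∀ I : Finset (Fin 7), I.card = 3 → ∀ J : Finset (Fin 7), J.card = 4 → ind J →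
    ∃ e ∈ J, e ∉ I ∧ ind (insert e I) := by
  decide +kernel

lemma ind_aug : ∀ ⦃I J : Finset (Fin 7)⦄, ind I → ind J → I.card < J.card →
    ∃ e ∈ J, e ∉ I ∧ ind (insert e I) := by
  intro I J _ hJ h
  have hJ4 : J.card ≤ 4 := by
    rcases hJ with h3 | h3
    · omega
    · omega
  by_cases h3 : I.card = 3
  · exact ind_aug3 I h3 J (by omega) hJ
  · obtain ⟨e, he, he2⟩ := Finset.exists_mem_notMem_of_card_lt_card h
    refine ⟨e, he, he2, Or.inl ?_⟩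
    rw [Finset.card_insert_of_notMem he2]
    omega

/-- The matroid `N`. -/
noncomputable def matN : Matroid (Fin 7) :=
  (IndepMatroid.ofFinset Set.univ ind (by decide) ind_subset ind_aug
    (fun _ _ => Set.subset_univ _)).matroid

lemma matN_indep (I : Finset (Fin 7)) : matN.Indep (I : Set (Fin 7)) ↔ ind I := by
  simp [matN]

lemma matN_ground : matN.E = Set.univ := rfl

/-- The independent-set polynomial of `N`, written out. -/
noncomputable def pol (x : Fin 7 → ℂ) : ℂ :=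
  1 + x 0 + x 1 + x 0 * x 1 + x 2 + x 0 * x 2 + x 1 * x 2 + x 0 * x 1 * x 2 + x 3 + x 0 * x 3 +
    x 1 * x 3 + x 0 * x 1 * x 3 + x 2 * x 3 + x 0 * x 2 * x 3 + x 1 * x 2 * x 3 +
    x 0 * x 1 * x 2 * x 3 + x 4 + x 0 * x 4 + x 1 * x 4 + x 0 * x 1 * x 4 + x 2 * x 4 +
    x 0 * x 2 * x 4 + x 1 * x 2 * x 4 + x 0 * x 1 * x 2 * x 4 + x 3 * x 4 + x 0 * x 3 * x 4 +
    x 1 * x 3 * x 4 + x 0 * x 1 * x 3 * x 4 + x 2 * x 3 * x 4 + x 0 * x 2 * x 3 * x 4 +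
    x 1 * x 2 * x 3 * x 4 + x 5 + x 0 * x 5 + x 1 * x 5 + x 0 * x 1 * x 5 + x 2 * x 5 +
    x 0 * x 2 * x 5 + x 1 * x 2 * x 5 + x 0 * x 1 * x 2 * x 5 + x 3 * x 5 + x 0 * x 3 * x 5 +
    x 1 * x 3 * x 5 + x 2 * x 3 * x 5 + x 0 * x 2 * x 3 * x 5 + x 1 * x 2 * x 3 * x 5 +
    x 4 * x 5 + x 0 * x 4 * x 5 + x 1 * x 4 * x 5 + x 0 * x 1 * x 4 * x 5 + x 2 * x 4 * x 5 +
    x 0 * x 2 * x 4 * x 5 + x 1 * x 2 * x 4 * x 5 + x 3 * x 4 * x 5 + x 0 * x 3 * x 4 * x 5 +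
    x 1 * x 3 * x 4 * x 5 + x 2 * x 3 * x 4 * x 5 + x 6 + x 0 * x 6 + x 1 * x 6 +
    x 0 * x 1 * x 6 + x 2 * x 6 + x 0 * x 2 * x 6 + x 1 * x 2 * x 6 + x 0 * x 1 * x 2 * x 6 +
    x 3 * x 6 + x 0 * x 3 * x 6 + x 1 * x 3 * x 6 + x 0 * x 1 * x 3 * x 6 + x 2 * x 3 * x 6 +
    x 0 * x 2 * x 3 * x 6 + x 1 * x 2 * x 3 * x 6 + x 4 * x 6 + x 0 * x 4 * x 6 +
    x 1 * x 4 * x 6 + x 0 * x 1 * x 4 * x 6 + x 2 * x 4 * x 6 + x 1 * x 2 * x 4 * x 6 +
    x 3 * x 4 * x 6 + x 0 * x 3 * x 4 * x 6 + x 1 * x 3 * x 4 * x 6 + x 2 * x 3 * x 4 * x 6 +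
    x 5 * x 6 + x 0 * x 5 * x 6 + x 1 * x 5 * x 6 + x 0 * x 1 * x 5 * x 6 + x 2 * x 5 * x 6 +
    x 0 * x 2 * x 5 * x 6 + x 3 * x 5 * x 6 + x 0 * x 3 * x 5 * x 6 + x 1 * x 3 * x 5 * x 6 +
    x 2 * x 3 * x 5 * x 6 + x 4 * x 5 * x 6 + x 0 * x 4 * x 5 * x 6 + x 1 * x 4 * x 5 * x 6 +
    x 2 * x 4 * x 5 * x 6

lemma sum_ind (x : Fin 7 → ℂ) : ∑ I : Finset (Fin 7) with ind I, ∏ e ∈ I, x e = pol x := by
  rw [Finset.sum_filter, ← Finset.powerset_univ,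
    show (Finset.univ : Finset (Fin 7)) = {0, 1, 2, 3, 4, 5, 6} by decide]
  simp (disch := decide) only [Finset.sum_powerset_insert, ← insert_empty_eq (6 : Fin 7),
    Finset.powerset_empty, Finset.sum_singleton]
  simp (disch := decide) only [if_pos, if_neg, Finset.prod_insert, Finset.prod_empty]
  unfold pol
  ring

lemma pol_eq (x : Fin 7 → ℂ) (y : ℕ → ℂ) (t : ℂ) (h0 : x 0 = -(1 + t)) (h1 : x 1 = -(1 + y 0))
    (h2 : x 2 = -(1 + y 1)) (h3 : x 3 = -(1 + y 2)) (h4 : x 4 = -(1 + y 3))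
    (h5 : x 5 = -(1 + y 4)) (h6 : x 6 = -(1 + y 5)) :
    pol x = (Tr.ofList polyD).ev y + t * (Tr.ofList polyE).ev y := by
  simp only [polyD, polyE, Tr.ofList, Tr.ev_add]
  simp only [Tr.mono, Tr.ev, Nat.reduceEqDiff, Nat.reduceMod, Nat.reduceDiv, ↓reduceIte,
    OfNat.ofNat_ne_zero, one_ne_zero, Nat.reduceAdd]
  unfold pol
  rw [h0, h1, h2, h3, h4, h5, h6]
  push_cast
  ring

theorem pol_ne_zero (x : Fin 7 → ℂ) (hx : ∀ i, (x i).re ≤ -1) : pol x ≠ 0 := by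
  let y : ℕ → ℂ := fun i => if h : i < 6 then -(1 + x ⟨i + 1, by omega⟩) else 0
  rw [pol_eq x y (-(1 + x 0)) (by ring) (by simp [y]) (by simp [y]) (by simp [y]) (by simp [y])
    (by simp [y]) (by simp [y])]
  refine check_sound _ _ (by norm_num) _ _ _ check_cert y ?_ _ ?_
  · intro i hi
    have := hx ⟨i + 1, by omega⟩
    simp only [y, hi, dif_pos, Complex.neg_re, Complex.add_re, Complex.one_re]
    linarith
  · have := hx 0
    simp only [Complex.neg_re, Complex.add_re, Complex.one_re]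
    linarith

/-- A zero of the independent-set polynomial with all real parts below `-1/2`. -/
noncomputable def zeroPt : Fin 7 → ℂ :=
  ![⟨-30239665558881943 / 56866125005950455, 144875356535064224 / 10035198530461845⟩,
    ⟨-26 / 51, -10⟩, ⟨-26 / 51, -10⟩, ⟨-26 / 51, -10⟩, ⟨-26 / 51, -10⟩,
    ⟨-26 / 51, 26⟩, ⟨-26 / 51, 26⟩]

lemma zeroPt_re : ∀ i, (zeroPt i).re < -1 / 2 := by
  intro i
  fin_cases i <;> simp [zeroPt] <;> norm_num

lemma pol_zeroPt : pol zeroPt = 0 := by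
  have h0 : zeroPt 0 = ⟨-30239665558881943 / 56866125005950455,
    144875356535064224 / 10035198530461845⟩ := rfl
  have h1 : zeroPt 1 = ⟨-26 / 51, -10⟩ := rfl
  have h2 : zeroPt 2 = zeroPt 1 := rfl
  have h3 : zeroPt 3 = zeroPt 1 := rfl
  have h4 : zeroPt 4 = zeroPt 1 := rfl
  have h5 : zeroPt 5 = ⟨-26 / 51, 26⟩ := rfl
  have h6 : zeroPt 6 = zeroPt 5 := rfl
  unfold pol
  rw [h2, h3, h4, h6, h0, h1, h5]
  simp only [Complex.ext_iff, Complex.add_re, Complex.add_im, Complex.mul_re,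
    Complex.mul_im, Complex.one_re, Complex.one_im, Complex.zero_re, Complex.zero_im]
  norm_num

end Pool.Agent.P.MP_e16cac_co
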